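import Pool.Agent.Q183.CF.UX
import Pool.Agent.W753.FV.BC
import Pool.Agent.Q188.FC.StmC
import Pool.Agent.Q53.FC.PC

/-!
# The functions `FE` in a chart
-/

set_option autoImplicit false

open MeasureTheory Metric Set Filter Topology InnerProductGeometry

namespace Pool.Agent.Q183.CF

open Pool.Agent.H241R3.FV (Sph ext RChart gnorm)
open Pool.Agent.H241R3.FV.TDiff (clamp clamp_cont clamp_mem clamp_eq clamp_eventually gnorm_le
  gnorm_smul gnorm_nonneg)
open Pool.Agent.W716.FV (E)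
open Pool.Agent.W753.FV.BC (cont_uncurry ae_diff' gnorm_sq deriv_bound)
open Pool.Agent.Q188.FC

variable {n : ℕ} {M : Type} [MetricSpace M]

theorem UE_chart {bd : Sph n → M} {e : Sph n → M → ℝ} (he : Dst bd e) (C : RChart n M) :
    ∀ᵐ c ∂(volume : Measure (E n)), c ∈ C.U → ∃ D : E n → E n →L[ℝ] ℝ, Measurable D ∧
      ∀ᵐ G ∂(volume : Measure (E n)), HasFDerivAt (fun c' => UE e (C.map c') G) (D G) c ∧
        ∀ v : E n, (D G v) ^ 2 ≤
          (‖G‖ ^ 2 - UE e (C.map c) G ^ 2) * ∑ i, ∑ j, v i * C.G c i j * v j := by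
  have hloc := Pool.Agent.H241R3.FV.TLoc.taskLoc n M C
  have hx : ∀ x x' : E n, ∀ p, |UE e (C.map p) x - UE e (C.map p) x'| ≤ ‖x - x'‖ :=
    fun x x' p => UE_lip he (C.map p) x x'
  have hloc1 : ∀ p ∈ C.U, ∃ ρ K : ℝ, 0 < ρ ∧ 0 ≤ K ∧ ∀ x, ∀ y ∈ closedBall p ρ,
      ∀ z ∈ closedBall p ρ, |UE e (C.map y) x - UE e (C.map z) x| ≤ ‖x‖ * K * ‖y - z‖ := by
    intro p hp
    obtain ⟨r, hr, hrU, h⟩ := hloc p hp 1 one_pos
    obtain ⟨c, hc, hc'⟩ := gnorm_le (C.G p)
    have hsub : closedBall p (r / 2) ⊆ ball p r := closedBall_subset_ball (by linarith)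
    refine ⟨r / 2, c + 1, by positivity, by positivity, fun x y hy z hz => ?_⟩
    have h1 := h y (hsub hy) z (hsub hz)
    have h2 := hc' (y - z)
    have h3 : dist (C.map y) (C.map z) ≤ (c + 1) * ‖y - z‖ := by linarith
    calc |UE e (C.map y) x - UE e (C.map z) x| ≤ ‖x‖ * dist (C.map y) (C.map z) :=
          UE_q he _ _ _
      _ ≤ ‖x‖ * ((c + 1) * ‖y - z‖) := mul_le_mul_of_nonneg_left h3 (norm_nonneg _)
      _ = _ := by ring
  filter_upwards [ae_diff' (F := fun x p => UE e (C.map p) x) hx hloc1] with p hp hpU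
  have hd := hp hpU
  obtain ⟨ρ, K, hρ, hK0, hK⟩ := hloc1 p hpU
  have hcont := cont_uncurry (F := fun x p => UE e (C.map p) x) hx hρ hK
  have hm0 : Measurable fun a : E n × E n =>
      fderiv ℝ (fun q => UE e (C.map (clamp p ρ q)) a.1) a.2 :=
    measurable_fderiv_with_param ℝ hcont
  have hm1 : Measurable fun x : E n => fderiv ℝ (fun c' => UE e (C.map c') x) p := by
    have h1 : Measurable fun x : E n => fderiv ℝ (fun q => UE e (C.map (clamp p ρ q)) x) p :=
      hm0.comp (measurable_id.prodMk measurable_const)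
    have h2 : (fun x : E n => fderiv ℝ (fun q => UE e (C.map (clamp p ρ q)) x) p) =
        fun x : E n => fderiv ℝ (fun c' => UE e (C.map c') x) p := by
      funext x
      exact (clamp_eventually p hρ (mem_ball_self hρ) (fun c' => UE e (C.map c') x)).fderiv_eq
    rwa [h2] at h1
  refine ⟨fun x => fderiv ℝ (fun c' => UE e (C.map c') x) p, hm1, ?_⟩
  filter_upwards [hd] with x hx1
  refine ⟨hx1.hasFDerivAt, fun v => ?_⟩
  have hnn : 0 ≤ ‖x‖ ^ 2 - UE e (C.map p) x ^ 2 := sub_nonneg.2 (UE_sq_le _ _ _)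
  have hbd := deriv_bound hx1 v (A := C.G p) (s := √(‖x‖ ^ 2 - UE e (C.map p) x ^ 2))
    (K := ‖x‖) (Real.sqrt_nonneg _) (norm_nonneg _) (by
      intro ε hε
      obtain ⟨r, hr, hrU, h⟩ := hloc p hpU ε hε
      refine ⟨r, hr, fun y hy => ⟨dist (C.map y) (C.map p), dist_nonneg,
        h y hy p (mem_ball_self hr), UE_q2 he _ _ _⟩⟩)
  have h2 := pow_le_pow_left₀ (abs_nonneg _) hbd 2
  rw [sq_abs, mul_pow, Real.sq_sqrt hnn, gnorm_sq (C.pos_G p hpU)] at h2
  exact h2

theorem FE_chart {bd : Sph n → M} {e : Sph n → M → ℝ} (he : Dst bd e) (C : RChart n M) :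
    LipFam C.U (fun c => FE e (C.map c)) ∧
    ∀ᵐ c ∂(volume : Measure (E n)), c ∈ C.U →
      ∃ D, GoodD (fun c' => FE e (C.map c')) c (C.G c) D := by
  refine ⟨⟨fun c => FE_Cc he _, fun c₀ hc₀ => ?_⟩, ?_⟩
  · obtain ⟨r, hr, hb, hl⟩ := Pool.Agent.H241R3.FV.TLoc.taskLoc n M C c₀ hc₀ 1 one_pos
    obtain ⟨K, hK, hKg⟩ := Pool.Agent.H241R3.FV.TDiff.gnorm_le (C.G c₀)
    refine ⟨r, K + 1, hr, by positivity, hb, fun c hc c' hc' y => ?_⟩
    refine (FE_q he _ _ y).trans ?_
    have h2 := hl c hc c' hc'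
    have h3 := hKg (c - c')
    gcongr
    linarith
  · filter_upwards [UE_chart he C] with c hc hcU
    obtain ⟨D, hDm, hD⟩ := hc hcU
    refine ⟨fun y => (1 / 2 : ℝ) • (D y - D (-y)), ?_, ?_⟩
    · exact ((hDm.sub (hDm.comp measurable_neg))).const_smul (1 / 2 : ℝ)
    · have hD' : ∀ᵐ y ∂(volume : Measure (E n)), HasFDerivAt (fun c' => UE e (C.map c') (-y))
          (D (-y)) c ∧ ∀ v : E n, (D (-y) v) ^ 2 ≤
          (‖-y‖ ^ 2 - UE e (C.map c) (-y) ^ 2) * ∑ i, ∑ j, v i * C.G c i j * v j :=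
        (Measure.measurePreserving_neg (volume : Measure (E n))).quasiMeasurePreserving.ae hD
      filter_upwards [hD, hD'] with y hy hy'
      constructor
      · have h2 := (hy.1.sub hy'.1).const_smul (1 / 2 : ℝ)
        refine h2.congr_of_eventuallyEq (Eventually.of_forall fun c' => ?_)
        show FE e (C.map c') y = (1 / 2 : ℝ) • (UE e (C.map c') y - UE e (C.map c') (-y))
        unfold FE
        rw [smul_eq_mul]
        ring
      · intro v
        have h2 := hy.2 v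
        have h3 := hy'.2 v
        rw [norm_neg] at h3
        have hg : 0 ≤ ∑ i, ∑ j, v i * C.G c i j * v j := by
          rw [← Pool.Agent.W753.FV.BC.gnorm_sq (C.pos_G c hcU) v]
          positivity
        have u1 := UE_sq_le e (C.map c) y
        have u2 := UE_sq_le e (C.map c) (-y)
        rw [norm_neg] at u2
        have h4 := Pool.Agent.Q53.FC.PC.elem _ _ _ _ _ _ hg u1 u2 h2 h3
        have h5 : ((1 / 2 : ℝ) • (D y - D (-y))) v = (D y v - D (-y) v) / 2 := by
          rw [smul_apply, sub_apply, smul_eq_mul]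
          ring
        rw [h5]
        exact h4

end Pool.Agent.Q183.CF
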