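import Pool.Agent.Q183.CF.UX
import Pool.Agent.Q53.FC.CC

/-!
# Covering for fillings which need not be compact
-/

set_option autoImplicit false

open MeasureTheory Set Metric InnerProductGeometry

namespace Pool.Agent.Q183.CF

open Pool.Agent.W716.FV (E gam gd UU)
open Pool.Agent.H241R3.FV (Sph Fill Triang)
open Pool.Agent.Q188.FC
open Pool.Agent.Q53.FC.CC (mv_lin NI_smul NI_sub norm_NI)

/-- Every continuous map `M → S^d` which is constant on the set of points at distance at least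
`π/2` from the boundary fails to be the identity on the boundary. -/
def NoCollarRetraction {d : ℕ} {M : Type} [MetricSpace M] (S : Fill d M) : Prop :=
  ¬ ∃ r : M → Sph (d + 1), Continuous r ∧ (∀ x, r (S.bd x) = x) ∧
    ∃ z, ∀ q, Real.pi / 2 ≤ infDist q (range S.bd) → r q = z

theorem GG_zero {n : ℕ} (p : E n) : GG p (fun _ : E n => (0 : ℝ)) = -p := by
  unfold GG
  simp

/-- the field at the boundary -/
theorem bdry (h4 : HatLin) (h5 : GGHat) {n : ℕ} {M : Type}
    [MetricSpace M] {bd : Sph n → M} {e : Sph n → M → ℝ} (he : Dst bd e) (p : E n)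
    (hp : ‖p‖ < 1) (x : Sph n) :
    GG p (FE e (bd x)) = (lf p)⁻¹ • NN p ((lf p * (1 - inner ℝ p (x : E n)))⁻¹ •
      NN p ((x : E n) - p)) ∧ GG p (FE e (bd x)) ≠ 0 := by
  have hx : ‖(x : E n)‖ = 1 := by simp
  obtain ⟨l1, -, -, -, -, -, l7⟩ := h4 n p hp
  set xh : E n := (lf p * (1 - inner ℝ p (x : E n)))⁻¹ • NN p ((x : E n) - p) with hxh
  have hxh1 : ‖xh‖ = 1 := l7 x hx
  have hc1 := (l1 x hx.le).1
  have hhat := (l1 x hx.le).2
  have hc2 := (l1 xh hxh1.le).1
  have hF : FE e (bd x) = fun y : E n => (inner ℝ y (x : E n) : ℝ) := funext fun y => FE_bd he x y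
  obtain ⟨g1, g2, -⟩ := h5 n p hp _ _ hc1 hc2 hhat
  rw [mv_lin] at g1 g2
  rw [hF]
  refine ⟨g1, fun h => ?_⟩
  have h0 := g2.1 h
  rw [h0, norm_zero] at hxh1
  exact zero_ne_one hxh1

theorem cover (h1 : RMap) (h3 : BoostAlg) (h4 : HatLin) (h5 : GGHat) (h6 : GGLip)
    (d : ℕ) (hd : 1 ≤ d) (M : Type) [MetricSpace M] (S : Fill d M) (hS : S.NonShort)
    (hT : (CompactSpace M ∧ S.Triangulated) ∨ NoCollarRetraction S)
    (p : E (d + 1)) (hp : ‖p‖ < 1) : ∃ q : M, GG p (FE (tr S.bd) q) = 0 := by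
  have he := tr_dst (Nat.succ_pos d) S.bd hS
  obtain ⟨b1, -, -, -, -, -, -, -, b9, b10, -⟩ := h3 (d + 1) p hp
  have hl0 : 0 < lf p := by linarith
  obtain ⟨R, K, hK, hR1, hR2, hR3⟩ := h1 (d + 1) p hp
  obtain ⟨K6, hK6, hK6l⟩ := h6 (d + 1) ‖p‖ hp
  set m : M → E (d + 1) := fun q => lf p • NI p (GG p (FE (tr S.bd) q)) with hm
  set Φ : M → E (d + 1) := fun q => R (m q) with hΦ
  have hlip : ∀ q q', ‖Φ q - Φ q'‖ ≤ dist q q' * (K * (lf p * (2 * K6))) := by
    intro q q'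
    have e1 : ‖GG p (FE (tr S.bd) q) - GG p (FE (tr S.bd) q')‖ ≤ K6 * dist q q' :=
      hK6l p le_rfl _ _ (FE_Cc he q) (FE_Cc he q') (dist q q') dist_nonneg (FE_q he q q')
    have e2 : ‖m q - m q'‖ ≤ lf p * (2 * (K6 * dist q q')) := by
      rw [hm]
      simp only
      rw [← smul_sub, ← NI_sub, norm_smul, Real.norm_eq_abs, abs_of_pos hl0]
      have e3 := norm_NI p (GG p (FE (tr S.bd) q) - GG p (FE (tr S.bd) q')) hp.le b1
      gcongr
      exact e3.trans (by gcongr)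
    calc ‖Φ q - Φ q'‖ ≤ K * ‖m q - m q'‖ := hR1 _ _
      _ ≤ K * (lf p * (2 * (K6 * dist q q'))) := by gcongr
      _ = _ := by ring
  have hcont : Continuous Φ := by
    have hL : LipschitzWith (Real.toNNReal (K * (lf p * (2 * K6)))) Φ := by
      refine LipschitzWith.of_dist_le_mul fun q q' => ?_
      rw [dist_eq_norm, Real.coe_toNNReal _ (by positivity), mul_comm]
      exact hlip q q'
    exact hL.continuous
  have hbdry : ∀ x, Φ (S.bd x) = (1 : ℝ) • (x : E (d + 1)) := by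
    intro x
    have hx : ‖(x : E (d + 1))‖ = 1 := by simp
    have e1 := (bdry h4 h5 he p hp x).1
    rw [hΦ, hm]
    simp only
    rw [e1, NI_smul, smul_smul, mul_inv_cancel₀ hl0.ne', one_smul, one_smul, b9]
    exact hR3 x hx
  have hzero : ∃ q, Φ q = 0 := by
    rcases hT with ⟨hc, hT⟩ | hT
    · have hsub := Pool.Agent.H241R3.FV.TCoverT.taskCoverT Pool.Agent.H241R3.FV.TGen.taskGen
        Pool.Agent.H241R3.FV.TParity.taskParity Pool.Agent.H241R3.FV.TEven.taskEven d hd M S.bd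
        hS hT Φ 1 _ one_pos hcont hlip hbdry
      exact hsub (mem_ball_self one_pos)
    · by_contra hcon
      push Not at hcon
      apply hT
      have hnorm : ∀ q, ‖‖Φ q‖⁻¹ • Φ q‖ = 1 := by
        intro q
        rw [norm_smul, norm_inv, norm_norm, inv_mul_cancel₀ (norm_ne_zero_iff.2 (hcon q))]
      refine ⟨fun q => ⟨‖Φ q‖⁻¹ • Φ q, by rw [mem_sphere_zero_iff_norm]; exact hnorm q⟩, ?_,
        fun x => ?_, ?_⟩
      · exact Continuous.subtype_mk
          ((hcont.norm.inv₀ fun q => norm_ne_zero_iff.2 (hcon q)).smul hcont) _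
      · apply Subtype.ext
        show ‖Φ (S.bd x)‖⁻¹ • Φ (S.bd x) = (x : E (d + 1))
        have hx : ‖(x : E (d + 1))‖ = 1 := by simp
        rw [hbdry, one_smul, hx, inv_one, one_smul]
      · by_cases hfar : ∃ q₀, Real.pi / 2 ≤ infDist q₀ (range S.bd)
        · obtain ⟨q₀, hq₀⟩ := hfar
          refine ⟨⟨‖Φ q₀‖⁻¹ • Φ q₀, by rw [mem_sphere_zero_iff_norm]; exact hnorm q₀⟩,
            fun q hq => ?_⟩
          · apply Subtype.ext
            show ‖Φ q‖⁻¹ • Φ q = ‖Φ q₀‖⁻¹ • Φ q₀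
            have h7 : Φ q = Φ q₀ := by
              rw [hΦ, hm]
              simp only
              rw [FE_far (Nat.succ_pos d) S.bd q hq, FE_far (Nat.succ_pos d) S.bd q₀ hq₀]
            rw [h7]
        · push Not at hfar
          obtain ⟨z⟩ := Pool.Agent.H241R3.FV.TExt.sph_nonempty (Nat.succ_pos d)
          exact ⟨z, fun q hq => absurd hq (not_le.2 (hfar q))⟩
  obtain ⟨q, hq⟩ := hzero
  refine ⟨q, ?_⟩
  have hm0 : m q = 0 := hR2 _ hq
  have h7 : NI p (GG p (FE (tr S.bd) q)) = 0 := by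
    rw [hm] at hm0
    exact (smul_eq_zero.1 hm0).resolve_left hl0.ne'
  rw [← b10 (GG p (FE (tr S.bd) q)), h7]
  unfold NN
  simp

end Pool.Agent.Q183.CF
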