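import Pool.Agent.Q149.FC.B
import Pool.Agent.Q280.FC.SB
import Pool.Agent.Q53.FC.CM

/-!
# Gaussian inequalities with the test functions `‖z‖² φ`

`φ` is of class `Cc` (odd, homogeneous of degree one, Lipschitz constant one) and centred:
`mv φ = 0`.  The spectral inequality `SPOdd` for the functions `(‖z‖²/n + q) φ` and
`(‖z‖²/n) φ + ε ℓ φ²`, which are homogeneous of degree three, is the sharp spectral inequality on the
unit sphere for odd functions orthogonal to the linear ones; in low dimensions it is much better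
than the same inequality for `(1 + q) φ` and `φ + ε ℓ φ²`.
-/

set_option autoImplicit false

open MeasureTheory

namespace Pool.Agent.Q183.CF

open Pool.Agent.Q188.FC Pool.Agent.Q149.FC Pool.Agent.Q149.FC.GM Pool.Agent.Q149.FC.SA
open Pool.Agent.W716.FV (E gam gd UU)
open Pool.Agent.H241R3.FV (Sph act)
open Pool.Agent.Q53.FC.CM (basis_sum inner_single)

/-- the moment identity for functions which are homogeneous of degree `k` -/
theorem hom_k (h1 : PLBasic) {n : ℕ} (k : ℕ) {g : E n → ℝ} (hg : PL g)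
    (hhom : ∀ (t : ℝ) (z : E n), g (t • z) = t ^ k * g z) :
    Integrable g (gam n) ∧ Integrable (fun z => ‖z‖ ^ 2 * g z) (gam n) ∧
    ∫ z, ‖z‖ ^ 2 * g z ∂(gam n) = (n + k) * ∫ z, g z ∂(gam n) := by
  obtain ⟨f1, f2, f3, -, f5, f6, f7⟩ := h1 n
  obtain ⟨gc, gb, gd', -, gpb, gm, -⟩ := f1 g hg
  have hPBn : PB (fun x : E n => ‖x‖) := ⟨1, 1, by norm_num, fun x => by
    rw [abs_of_nonneg (norm_nonneg x), pow_one]
    linarith [norm_nonneg x]⟩
  have gint : Integrable g (gam n) := f6 g gc gb
  have g2 : Integrable (fun z => ‖z‖ ^ 2 * g z) (gam n) := by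
    refine f6 _ (by fun_prop) ?_
    have e1 := (f3 _ _ hPBn hPBn).2
    have e2 := (f3 _ _ e1 gb).2
    have e3 : (fun x : E n => ‖x‖ * ‖x‖ * g x) = fun z => ‖z‖ ^ 2 * g z := by
      funext x
      ring
    rw [e3] at e2
    exact e2
  refine ⟨gint, g2, ?_⟩
  -- the coordinates
  have key : ∀ i : Fin n, ∫ z, z i ^ 2 * g z ∂(gam n) =
      (∫ z, fderiv ℝ g z (z i • EuclideanSpace.single i (1 : ℝ)) ∂(gam n)) +
        ∫ z, g z ∂(gam n) := by
    intro i
    set v : E n := EuclideanSpace.single i (1 : ℝ) with hv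
    have hPLi : PL (fun x : E n => (inner ℝ v x : ℝ)) := f5 v
    have hh := (f2 g _ hg hPLi).2.2
    have hI := (f1 _ hh).2.2.2.2.2.2 v
    have hPBi := (f1 _ hPLi).2.1
    have e1 : ∀ z : E n, g z * (inner ℝ v z : ℝ) * (inner ℝ z v : ℝ) = z i ^ 2 * g z := by
      intro z
      rw [real_inner_comm z v, hv, inner_single]
      ring
    simp only [e1] at hI
    rw [hI]
    have e2 : ∀ᵐ z ∂(gam n), fderiv ℝ (fun x : E n => g x * (inner ℝ v x : ℝ)) z v =
        fderiv ℝ g z (z i • v) + g z := by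
      filter_upwards [gd'] with z hz
      have d1 : HasFDerivAt (fun x : E n => (inner ℝ v x : ℝ)) (innerSL ℝ v) z :=
        (innerSL ℝ v).hasFDerivAt
      have d2 : fderiv ℝ (fun x : E n => g x * (inner ℝ v x : ℝ)) z =
          g z • (innerSL ℝ v) + (inner ℝ v z : ℝ) • fderiv ℝ g z :=
        (hz.hasFDerivAt.mul d1).fderiv
      rw [d2]
      simp only [add_apply, smul_apply, smul_eq_mul,
        innerSL_apply_apply, map_smul]
      have e3 : (inner ℝ v v : ℝ) = 1 := by
        rw [real_inner_self_eq_norm_sq, hv]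
        simp
      have e4 : (inner ℝ v z : ℝ) = z i := by
        rw [real_inner_comm, hv, inner_single]
      rw [e3, e4]
      ring
    rw [integral_congr_ae e2, integral_add _ gint]
    refine f7 _ ?_ ?_
    · have m1 : Measurable fun z : E n => fderiv ℝ g z v :=
        (ContinuousLinearMap.measurable_apply v).comp gm
      have m2 : Measurable fun z : E n => z i := by fun_prop
      have m3 : (fun z : E n => fderiv ℝ g z (z i • v)) = fun z => z i * fderiv ℝ g z v := by
        funext z
        rw [map_smul, smul_eq_mul]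
      rw [m3]
      exact m2.mul m1
    · obtain ⟨C, m, hC, hCm⟩ := gpb
      refine ⟨C, m + 1, hC, fun x => ?_⟩
      have e3 : |fderiv ℝ g x (x i • v)| ≤ ‖fderiv ℝ g x‖ * ‖x i • v‖ :=
        (fderiv ℝ g x).le_opNorm _
      have e4 : ‖x i • v‖ ≤ 1 + ‖x‖ := by
        rw [norm_smul, hv]
        have : ‖x i‖ ≤ ‖x‖ := PiLp.norm_apply_le x i
        simp
        linarith [norm_nonneg x, this, Real.norm_eq_abs (x i)]
      have e5 := hCm x
      rw [abs_of_nonneg (norm_nonneg _)] at e5
      calc |fderiv ℝ g x (x i • v)| ≤ ‖fderiv ℝ g x‖ * ‖x i • v‖ := e3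
        _ ≤ (C * (1 + ‖x‖) ^ m) * (1 + ‖x‖) := by gcongr
        _ = C * (1 + ‖x‖) ^ (m + 1) := by ring
  have hs1 : ∫ z, ‖z‖ ^ 2 * g z ∂(gam n) = ∑ i, ∫ z, z i ^ 2 * g z ∂(gam n) := by
    rw [← integral_finsetSum]
    · refine integral_congr_ae (Filter.Eventually.of_forall fun z => ?_)
      simp only
      rw [EuclideanSpace.real_norm_sq_eq, Finset.sum_mul]
    · intro i _
      refine g2.mono (by fun_prop) (Filter.Eventually.of_forall fun z => ?_)
      rw [norm_mul, norm_mul, norm_pow, norm_pow, norm_norm]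
      have : ‖z i‖ ≤ ‖z‖ := PiLp.norm_apply_le z i
      gcongr
  have hs2 : ∑ i, ∫ z, fderiv ℝ g z (z i • EuclideanSpace.single i (1 : ℝ)) ∂(gam n) =
      k * ∫ z, g z ∂(gam n) := by
    rw [← integral_finsetSum, ← integral_const_mul]
    · refine integral_congr_ae ?_
      filter_upwards [gd'] with z hz
      rw [← map_sum, basis_sum]
      -- Euler
      have d1 : HasDerivAt (fun t : ℝ => g (t • z)) (fderiv ℝ g z z) 1 := by
        have d2 : HasDerivAt (fun t : ℝ => t • z) z 1 := by
          simpa using (hasDerivAt_id (1 : ℝ)).smul_const z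
        have d3 : HasFDerivAt g (fderiv ℝ g z) ((1 : ℝ) • z) := by
          rw [one_smul]
          exact hz.hasFDerivAt
        exact d3.comp_hasDerivAt (1 : ℝ) d2
      have d4 : HasDerivAt (fun t : ℝ => g (t • z)) (k * g z) 1 := by
        have d5 : HasDerivAt (fun t : ℝ => t ^ k * g z) (k * g z) 1 := by
          have := (hasDerivAt_pow k (1 : ℝ)).mul_const (g z)
          simpa using this
        have d6 : (fun t : ℝ => g (t • z)) = fun t => t ^ k * g z := funext fun t => hhom t z
        rw [d6]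
        exact d5
      exact d1.unique d4
    · intro i _
      refine f7 _ ?_ ?_
      · have m1 : Measurable fun z : E n => fderiv ℝ g z (EuclideanSpace.single i (1 : ℝ)) :=
          (ContinuousLinearMap.measurable_apply _).comp gm
        have m2 : Measurable fun z : E n => z i := by fun_prop
        have m3 : (fun z : E n => fderiv ℝ g z (z i • EuclideanSpace.single i (1 : ℝ))) =
            fun z => z i * fderiv ℝ g z (EuclideanSpace.single i (1 : ℝ)) := by
          funext z
          rw [map_smul, smul_eq_mul]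
        rw [m3]
        exact m2.mul m1
      · obtain ⟨C, m, hC, hCm⟩ := gpb
        refine ⟨C, m + 1, hC, fun x => ?_⟩
        have e3 : |fderiv ℝ g x (x i • EuclideanSpace.single i (1 : ℝ))| ≤
            ‖fderiv ℝ g x‖ * ‖x i • (EuclideanSpace.single i (1 : ℝ) : E n)‖ :=
          (fderiv ℝ g x).le_opNorm _
        have e4 : ‖x i • (EuclideanSpace.single i (1 : ℝ) : E n)‖ ≤ 1 + ‖x‖ := by
          rw [norm_smul]
          have : ‖x i‖ ≤ ‖x‖ := PiLp.norm_apply_le x i
          simp
          linarith [norm_nonneg x, this, Real.norm_eq_abs (x i)]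
        have e5 := hCm x
        rw [abs_of_nonneg (norm_nonneg _)] at e5
        calc |fderiv ℝ g x (x i • EuclideanSpace.single i (1 : ℝ))|
            ≤ ‖fderiv ℝ g x‖ * ‖x i • (EuclideanSpace.single i (1 : ℝ) : E n)‖ := e3
          _ ≤ (C * (1 + ‖x‖) ^ m) * (1 + ‖x‖) := by gcongr
          _ = C * (1 + ‖x‖) ^ (m + 1) := by ring
  rw [hs1, Finset.sum_congr rfl fun i _ => key i, Finset.sum_add_distrib, hs2, Finset.sum_const,
    Finset.card_univ, Fintype.card_fin, nsmul_eq_mul]
  ring

section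
variable {n : ℕ}

theorem pl_nsq (h1 : PLBasic) : PL (fun z : E n => ‖z‖ ^ 2) := by
  have h : PL (fun z : E n => ∑ i, z i ^ 2) := pl_sum h1 _ _ fun i _ => pl_sq h1 (pl_coord h1 i)
  have e : (fun z : E n => ∑ i, z i ^ 2) = fun z => ‖z‖ ^ 2 := by
    funext z
    rw [norm_sq_sum]
  rwa [e] at h

theorem hd_nsq (x : E n) : HasFDerivAt (fun z : E n => ‖z‖ ^ 2) ((2 : ℝ) • innerSL ℝ x) x := by
  have h := (hasStrictFDerivAt_norm_sq x).hasFDerivAt
  exact_mod_cast h

theorem nsq_smul (t : ℝ) (z : E n) : ‖t • z‖ ^ 2 = t ^ 2 * ‖z‖ ^ 2 := by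
  rw [norm_smul, mul_pow, Real.norm_eq_abs, sq_abs]

end

end Pool.Agent.Q183.CF
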