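import Pool.Agent.Q183.CF.GA

/-!
# The bound for the cubic moment
-/

set_option autoImplicit false

open MeasureTheory

namespace Pool.Agent.Q183.CF

open Pool.Agent.Q188.FC Pool.Agent.Q149.FC Pool.Agent.Q149.FC.GM Pool.Agent.Q149.FC.SA
open Pool.Agent.W716.FV (E gam gd UU)
open Pool.Agent.H241R3.FV (Sph act)

/-- The spectral inequality for `(‖z‖²/n) φ + ε ℓ φ²`. -/
theorem bIneqR (h1 : PLBasic) (h2 : CcBasic) (h4 : SPOdd) (n : ℕ) (hn : 0 < n)
    (φ : E n → ℝ) (hφ : Cc φ) (hmv : mv φ = 0) (u : E n) (hu : ‖u‖ = 1) (ε : ℝ) (x₀ A : ℝ)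
    (hx₀ : x₀ = ∑ i, u i * ∑ j, Xm φ i j * u j) (hA : A = ∑ i, (∑ j, Xm φ i j * u j) ^ 2) :
    (3 * n + 4) / n * sv φ + 16 * ε * bv φ u ≤
      1 + n / (n + 2) * (ε ^ 2 * (4 * (sv φ + 2 * x₀) + 8 * (A - x₀ ^ 2) -
        4 * (sv φ + 2 * x₀) ^ 2 / (n + 2))) := by
  have hprob := prob n
  obtain ⟨hpl, -, -, hodd, hfd, heu, hmvu, -, -⟩ := h2 n φ hφ
  obtain ⟨ν, hν⟩ : ∃ ν : ℝ, ν = (n : ℝ) := ⟨_, rfl⟩
  have hν0 : 0 < ν := by rw [hν]; exact_mod_cast hn
  rw [← hν]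
  obtain ⟨r, hr⟩ : ∃ r : ℝ, r = 1 / ν := ⟨_, rfl⟩
  set l : E n → ℝ := fun x => inner ℝ u x with hl
  set N : E n → ℝ := fun x => ‖x‖ ^ 2 with hN
  have plN : PL N := pl_nsq h1
  have pll : PL l := pl_inner h1 u
  have plφ2 : PL (fun x => φ x * φ x) := pl_mul h1 hpl hpl
  have plφ3 : PL (fun x => φ x * (φ x * φ x)) := pl_mul h1 hpl plφ2
  have plφ4 : PL (fun x => (φ x * φ x) * (φ x * φ x)) := pl_mul h1 plφ2 plφ2
  have plNφ : PL (fun x => N x * φ x) := pl_mul h1 plN hpl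
  have pll2 : PL (fun x => l x * (φ x * φ x)) := pl_mul h1 pll plφ2
  have pll4 : PL (fun x => l x * ((φ x * φ x) * (φ x * φ x))) := pl_mul h1 pll plφ4
  have plNφ3 : PL (fun x => N x * (φ x * (φ x * φ x))) := pl_mul h1 plN plφ3
  have plh : PL (fun x => r * (N x * φ x) + ε * (l x * (φ x * φ x))) :=
    pl_add h1 (pl_cmul h1 r plNφ) (pl_cmul h1 ε pll2)
  have hoddh : ∀ x, r * (N (-x) * φ (-x)) + ε * (l (-x) * (φ (-x) * φ (-x))) =
      -(r * (N x * φ x) + ε * (l x * (φ x * φ x))) := by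
    intro x
    rw [hl, hN]
    simp only
    rw [hodd, inner_neg_right, norm_neg]
    ring
  have hSP := h4 n _ plh hoddh
  -- the gradient
  have hpt : ∀ᵐ x ∂(gam n), ‖fderiv ℝ (fun x => r * (N x * φ x) + ε * (l x * (φ x * φ x))) x‖ ^ 2 ≤
      ((r * N x) ^ 2 + 4 * ε * r * (N x * (l x * φ x)) + 4 * ε ^ 2 * (l x ^ 2 * φ x ^ 2) +
        8 * r ^ 2 * (N x * (φ x * φ x)) + 32 / 3 * ε * r * (l x * (φ x * (φ x * φ x)))) +
        2 / 3 * ε * r * fderiv ℝ (fun x => N x * (φ x * (φ x * φ x))) x u +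
        ε ^ 2 * fderiv ℝ (fun x => l x * ((φ x * φ x) * (φ x * φ x))) x u := by
    filter_upwards [pl_ae h1 hpl] with x hx
    have dφ := hx.hasFDerivAt
    have dl : HasFDerivAt l (innerSL ℝ u) x := hd_inner u x
    have dN : HasFDerivAt N ((2 : ℝ) • innerSL ℝ x) x := hd_nsq x
    have dφ2 := hd_mul dφ dφ
    have dh := hd_add (hd_cmul r (hd_mul dN dφ)) (hd_cmul ε (hd_mul dl dφ2))
    have e1 : fderiv ℝ (fun x => r * (N x * φ x) + ε * (l x * (φ x * φ x))) x =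
        (r * N x + 2 * ε * (l x * φ x)) • fderiv ℝ φ x +
          (1 : ℝ) • innerSL ℝ ((2 * r * φ x) • x + (ε * φ x ^ 2) • u) := by
      rw [dh.fderiv]
      ext y
      simp only [_root_.add_apply, _root_.smul_apply, smul_eq_mul, innerSL_apply_apply,
        inner_add_left, real_inner_smul_left]
      ring
    have e2 : fderiv ℝ (fun x => N x * (φ x * (φ x * φ x))) x u =
        2 * (l x * φ x ^ 3) + 3 * (N x * φ x ^ 2) * fderiv ℝ φ x u := by
      rw [(hd_mul dN (hd_mul dφ dφ2)).fderiv]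
      simp only [_root_.add_apply, _root_.smul_apply, smul_eq_mul, innerSL_apply_apply]
      rw [real_inner_comm u x]
      simp only [hl]
      ring
    have e3 : fderiv ℝ (fun x => l x * ((φ x * φ x) * (φ x * φ x))) x u =
        φ x ^ 4 + 4 * (l x * φ x ^ 3) * fderiv ℝ φ x u := by
      rw [(hd_mul dl (hd_mul dφ2 dφ2)).fderiv]
      simp only [_root_.add_apply, _root_.smul_apply, smul_eq_mul, innerSL_apply_apply,
        real_inner_self_eq_norm_sq, hu]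
      ring
    have e4 : fderiv ℝ φ x x = φ x := heu x hx
    have e5 : fderiv ℝ φ x ((2 * r * φ x) • x + (ε * φ x ^ 2) • u) =
        2 * r * φ x ^ 2 + ε * φ x ^ 2 * fderiv ℝ φ x u := by
      rw [map_add, map_smul, map_smul, e4, smul_eq_mul, smul_eq_mul]
      ring
    have e6 : ‖(2 * r * φ x) • x + (ε * φ x ^ 2) • u‖ ^ 2 =
        4 * r ^ 2 * φ x ^ 2 * N x + 4 * r * ε * φ x ^ 3 * l x + ε ^ 2 * φ x ^ 4 := by
      rw [norm_add_sq_real, norm_smul, norm_smul, mul_pow, mul_pow, Real.norm_eq_abs,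
        Real.norm_eq_abs, sq_abs, sq_abs, hu, real_inner_smul_left, real_inner_smul_right,
        real_inner_comm u x]
      simp only [hl, hN]
      ring
    rw [e1, norm_comb, e5, e6, e2, e3]
    have h6 : ‖fderiv ℝ φ x‖ ^ 2 ≤ 1 := pow_le_one₀ (norm_nonneg _) (hfd x)
    have h7 : (r * N x + 2 * ε * (l x * φ x)) ^ 2 * ‖fderiv ℝ φ x‖ ^ 2 ≤
        (r * N x + 2 * ε * (l x * φ x)) ^ 2 := mul_le_of_le_one_right (sq_nonneg _) h6
    refine le_trans (add_le_add_left (add_le_add_left h7 _) _) (le_of_eq ?_)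
    ring
  -- integration
  have q2 : PL (fun x => l x ^ 2 * φ x ^ 2) := pl_mul h1 (pl_sq h1 pll) (pl_sq h1 hpl)
  have q1 : PL (fun x => N x * (l x * φ x)) := pl_mul h1 plN (pl_mul h1 pll hpl)
  have q5 : PL (fun x => N x * (φ x * φ x)) := pl_mul h1 plN plφ2
  have q6 : PL (fun x => l x * (φ x * (φ x * φ x))) := pl_mul h1 pll plφ3
  have p1 : PL (fun x => (r * N x) ^ 2) := pl_sq h1 (pl_cmul h1 r plN)
  have p2 := pl_add h1 p1 (pl_cmul h1 (4 * ε * r) q1)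
  have p3 := pl_add h1 p2 (pl_cmul h1 (4 * ε ^ 2) q2)
  have p4 := pl_add h1 p3 (pl_cmul h1 (8 * r ^ 2) q5)
  have p5 := pl_add h1 p4 (pl_cmul h1 (32 / 3 * ε * r) q6)
  have i1 := pl_int h1 p5
  have i2 : Integrable (fun x => 2 / 3 * ε * r * fderiv ℝ (fun x => N x * (φ x * (φ x * φ x))) x u)
      (gam n) := (fd_int h1 plNφ3 u).const_mul _
  have i3 : Integrable (fun x => ε ^ 2 * fderiv ℝ (fun x => l x * ((φ x * φ x) * (φ x * φ x))) x u)
      (gam n) := (fd_int h1 pll4 u).const_mul _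
  have hint := integral_mono_ae (fd_sq_int h1 plh) ((i1.add i2).add i3) hpt
  set s := sv φ with hs'
  set b := bv φ u with hb
  set W := ∫ x, l x ^ 2 * φ x ^ 4 ∂(gam n) with hW
  set m2 := ∫ x, l x ^ 2 * φ x ^ 2 ∂(gam n) with hm2
  have hsφ : ∫ x, φ x * φ x ∂(gam n) = s := by
    rw [hs']
    unfold sv
    refine integral_congr_ae (Filter.Eventually.of_forall fun x => ?_)
    simp only
    rw [pow_two]
  have hb3 : ∫ x, l x * (φ x * (φ x * φ x)) ∂(gam n) = 3 * b := by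
    rw [hb]
    unfold bv
    have e : ∀ x, l x * (φ x * (φ x * φ x)) = inner ℝ u x * φ x ^ 3 := fun x => by
      simp only [hl]; ring
    simp only [e]
    ring
  have hlφ : ∫ x, l x * φ x ∂(gam n) = 0 := by
    have h5 := hmvu u
    rw [hmv, inner_zero_left] at h5
    rw [h5]
    refine integral_congr_ae (Filter.Eventually.of_forall fun x => ?_)
    simp only
    rw [mul_comm]
  have hl2 : ∫ x, l x * l x ∂(gam n) = 1 := by
    have h5 := mom2 u u
    rw [real_inner_self_eq_norm_sq, hu, one_pow] at h5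
    exact h5
  have hlsm : ∀ (t : ℝ) (z : E n), l (t • z) = t * l z := fun t z => by
    simp only [hl]; rw [real_inner_smul_right]
  have hNsm : ∀ (t : ℝ) (z : E n), N (t • z) = t ^ 2 * N z := fun t z => nsq_smul t z
  -- moments
  have mN : ∫ x, N x ∂(gam n) = ν := by
    have h5 := (hom_k h1 0 (pl_const h1 (n := n) 1) (fun t z => by simp)).2.2
    simp only [mul_one, integral_const, smul_eq_mul, Nat.cast_zero, add_zero] at h5
    rw [hν]
    simpa using h5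
  have mNN : ∫ x, (r * N x) ^ 2 ∂(gam n) = r ^ 2 * ((ν + 2) * ν) := by
    have h5 := (hom_k h1 2 plN hNsm).2.2
    rw [mN] at h5
    have e : ∀ x, (r * N x) ^ 2 = r ^ 2 * (‖x‖ ^ 2 * N x) := fun x => by simp only [hN]; ring
    simp only [e]
    rw [integral_const_mul, h5, hν]
    norm_num
  have mNlφ : ∫ x, N x * (l x * φ x) ∂(gam n) = 0 := by
    have h5 := (hom_k h1 2 (pl_mul h1 pll hpl) (fun t z => by
      rw [hlsm, hφ.hom]; ring)).2.2
    rw [hlφ, mul_zero] at h5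
    exact h5
  have mNφ2 : ∫ x, N x * (φ x * φ x) ∂(gam n) = (ν + 2) * s := by
    have h5 := (hom_k h1 2 plφ2 (fun t z => by rw [hφ.hom]; ring)).2.2
    rw [hsφ] at h5
    rw [hν]
    exact_mod_cast h5
  have mNlφ3 : ∫ x, N x * (l x * (φ x * (φ x * φ x))) ∂(gam n) = (ν + 4) * (3 * b) := by
    have h5 := (hom_k h1 4 q6 (fun t z => by rw [hlsm, hφ.hom]; ring)).2.2
    rw [hb3] at h5
    rw [hν]
    exact_mod_cast h5
  have mNNφ2 : ∫ x, N x * (N x * (φ x * φ x)) ∂(gam n) = (ν + 4) * ((ν + 2) * s) := by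
    have h5 := (hom_k h1 4 q5 (fun t z => by rw [hNsm, hφ.hom]; ring)).2.2
    rw [mNφ2] at h5
    rw [hν] at h5 ⊢
    exact_mod_cast h5
  have mNl2φ2 : ∫ x, N x * (l x ^ 2 * φ x ^ 2) ∂(gam n) = (ν + 4) * m2 := by
    have h5 := (hom_k h1 4 q2 (fun t z => by rw [hlsm, hφ.hom]; ring)).2.2
    rw [← hm2] at h5
    rw [hν]
    exact_mod_cast h5
  have mNl2 : ∫ x, N x * (l x * l x) ∂(gam n) = ν + 2 := by
    have h5 := (hom_k h1 2 (pl_mul h1 pll pll) (fun t z => by rw [hlsm]; ring)).2.2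
    rw [hl2, mul_one] at h5
    rw [hν]
    exact_mod_cast h5
  have mNNl2 : ∫ x, N x * (N x * (l x * l x)) ∂(gam n) = (ν + 4) * (ν + 2) := by
    have h5 := (hom_k h1 4 (pl_mul h1 plN (pl_mul h1 pll pll)) (fun t z => by
      rw [hNsm, hlsm]; ring)).2.2
    rw [mNl2] at h5
    rw [hν] at h5 ⊢
    exact_mod_cast h5
  have q3 : PL (fun x => N x * (l x * (φ x * (φ x * φ x)))) := pl_mul h1 plN q6
  have q4 : PL (fun x => l x ^ 2 * φ x ^ 4) := by
    have e : (fun x => l x ^ 2 * φ x ^ 4) = fun x => l x * (l x * ((φ x * φ x) * (φ x * φ x))) := by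
      funext x; ring
    rw [e]
    exact pl_mul h1 pll pll4
  have q7 : PL (fun x => N x * (N x * (φ x * φ x))) := pl_mul h1 plN q5
  have hR : ∫ x, (((r * N x) ^ 2 + 4 * ε * r * (N x * (l x * φ x)) + 4 * ε ^ 2 * (l x ^ 2 * φ x ^ 2) +
        8 * r ^ 2 * (N x * (φ x * φ x)) + 32 / 3 * ε * r * (l x * (φ x * (φ x * φ x)))) +
        2 / 3 * ε * r * fderiv ℝ (fun x => N x * (φ x * (φ x * φ x))) x u +
        ε ^ 2 * fderiv ℝ (fun x => l x * ((φ x * φ x) * (φ x * φ x))) x u) ∂(gam n) =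
      r ^ 2 * ((ν + 2) * ν) + 4 * ε ^ 2 * m2 + 8 * r ^ 2 * ((ν + 2) * s) + 32 * ε * r * b +
        2 * ε * r * ((ν + 4) * b) + ε ^ 2 * W := by
    have s1 := integral_add (i1.add i2) i3
    have s2 := integral_add i1 i2
    simp only [Pi.add_apply] at s1 s2
    rw [s1, s2, ex_add h1 p4 (pl_cmul h1 _ q6), ex_add h1 p3 (pl_cmul h1 _ q5),
      ex_add h1 p2 (pl_cmul h1 _ q2), ex_add h1 p1 (pl_cmul h1 _ q1),
      integral_const_mul, integral_const_mul, integral_const_mul, integral_const_mul,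
      integral_const_mul, integral_const_mul, ← ibp h1 plNφ3 u, ← ibp h1 pll4 u, mNN, mNlφ,
      ← hm2, mNφ2, hb3]
    have a2 : ∫ x, (inner ℝ u x : ℝ) * (N x * (φ x * (φ x * φ x))) ∂(gam n) =
        (ν + 4) * (3 * b) := by
      rw [← mNlφ3]
      refine integral_congr_ae (Filter.Eventually.of_forall fun x => ?_)
      simp only [hl]
      ring
    have a3 : ∫ x, (inner ℝ u x : ℝ) * (l x * ((φ x * φ x) * (φ x * φ x))) ∂(gam n) = W := by
      rw [hW]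
      refine integral_congr_ae (Filter.Eventually.of_forall fun x => ?_)
      simp only [hl]
      ring
    rw [a2, a3]
    ring
  have hint' : ∫ x, ‖fderiv ℝ (fun x => r * (N x * φ x) + ε * (l x * (φ x * φ x))) x‖ ^ 2
      ∂(gam n) ≤ r ^ 2 * ((ν + 2) * ν) + 4 * ε ^ 2 * m2 + 8 * r ^ 2 * ((ν + 2) * s) +
        32 * ε * r * b + 2 * ε * r * ((ν + 4) * b) + ε ^ 2 * W := by
    rw [← hR]
    exact hint
  have b1 : ∫ x, (r * (N x * φ x) + ε * (l x * (φ x * φ x))) ^ 2 ∂(gam n) =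
      r ^ 2 * ((ν + 4) * ((ν + 2) * s)) + 6 * ε * r * ((ν + 4) * b) + ε ^ 2 * W := by
    have e : ∀ x, (r * (N x * φ x) + ε * (l x * (φ x * φ x))) ^ 2 =
        (r ^ 2 * (N x * (N x * (φ x * φ x))) + 2 * ε * r * (N x * (l x * (φ x * (φ x * φ x))))) +
          ε ^ 2 * (l x ^ 2 * φ x ^ 4) := fun x => by ring
    simp only [e]
    rw [ex_add h1 (pl_add h1 (pl_cmul h1 _ q7) (pl_cmul h1 _ q3)) (pl_cmul h1 _ q4),
      ex_add h1 (pl_cmul h1 _ q7) (pl_cmul h1 _ q3), integral_const_mul, integral_const_mul,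
      integral_const_mul, mNNφ2, mNlφ3]
    ring
  -- second moments against `φ²`
  set y : Fin n → ℝ := fun i => ∫ x : E n, x i * (l x * (φ x * φ x)) ∂(gam n) with hy
  have b2 : ∀ i : Fin n, ∫ x : E n, x i * (r * (N x * φ x) + ε * (l x * (φ x * φ x))) ∂(gam n) =
      ε * y i := by
    intro i
    have e : ∀ x : E n, x i * (r * (N x * φ x) + ε * (l x * (φ x * φ x))) =
        r * (N x * (x i * φ x)) + ε * (x i * (l x * (φ x * φ x))) := fun x => by ring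
    have h5 : ∫ x : E n, x i * φ x ∂(gam n) = 0 := by
      rw [← vec_coord h1 hpl i]
      have h6 : (∫ z, φ z • z ∂(gam n)) = 0 := hmv
      rw [h6]
      rfl
    have h7 : ∫ x : E n, N x * (x i * φ x) ∂(gam n) = 0 := by
      have h8 := (hom_k h1 2 (pl_mul h1 (pl_coord h1 i) hpl) (fun t z => by
        rw [hφ.hom, PiLp.smul_apply, smul_eq_mul]; ring)).2.2
      rw [h5, mul_zero] at h8
      exact h8
    simp only [e]
    rw [ex_add h1 (pl_cmul h1 _ (pl_mul h1 plN (pl_mul h1 (pl_coord h1 i) hpl)))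
      (pl_cmul h1 _ (pl_mul h1 (pl_coord h1 i) pll2)), integral_const_mul, h7,
      integral_const_mul, mul_zero, zero_add]
  have hXij : ∀ i j : Fin n, ∫ x : E n, x i * (x j * (φ x * φ x)) ∂(gam n) =
      2 * Xm φ i j + (if i = j then 1 else 0) * s := by
    intro i j
    have e : ∀ x : E n, x i * (x j * (φ x * φ x)) =
        (x i * x j - if i = j then 1 else 0) * φ x ^ 2 + (if i = j then 1 else 0) * φ x ^ 2 :=
      fun x => by ring
    have hsφ' : ∫ x, φ x ^ 2 ∂(gam n) = s := rfl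
    simp only [e]
    rw [ex_add h1 (pl_mul h1 (pl_sub h1 (pl_mul h1 (pl_coord h1 i) (pl_coord h1 j)) (pl_const h1 _))
      (pl_sq h1 hpl)) (pl_cmul h1 _ (pl_sq h1 hpl)), integral_const_mul, hsφ']
    congr 1
    unfold Xm
    ring
  have hyi : ∀ i, y i = 2 * (∑ j, Xm φ i j * u j) + s * u i := by
    intro i
    have e : ∀ x : E n, x i * (l x * (φ x * φ x)) = ∑ j, u j * (x i * (x j * (φ x * φ x))) := by
      intro x
      rw [hl]
      simp only
      rw [GM.inner_sum, Finset.sum_mul, Finset.mul_sum]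
      exact Finset.sum_congr rfl fun j _ => by ring
    rw [hy]
    simp only [e]
    rw [integral_finsetSum _ fun j _ =>
      (pl_int h1 (pl_mul h1 (pl_coord h1 i) (pl_mul h1 (pl_coord h1 j) plφ2))).const_mul (u j)]
    simp only [integral_const_mul, hXij, mul_add, Finset.sum_add_distrib]
    congr 1
    · rw [Finset.mul_sum]
      exact Finset.sum_congr rfl fun j _ => by ring
    · rw [Finset.sum_eq_single i]
      · simp [mul_comm]
      · intro j _ hj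
        simp [Ne.symm hj]
      · intro h
        exact absurd (Finset.mem_univ i) h
  have hu2 : ∑ i, u i ^ 2 = 1 := by rw [← norm_sq_sum, hu, one_pow]
  set a : Fin n → ℝ := fun i => ∑ j, Xm φ i j * u j with ha
  have hx₀' : x₀ = ∑ i, u i * a i := hx₀
  have hA' : A = ∑ i, a i ^ 2 := hA
  have hm2' : m2 = s + 2 * x₀ := by
    have e : ∀ x : E n, l x ^ 2 * φ x ^ 2 = ∑ i, u i * (x i * (l x * (φ x * φ x))) := by
      intro x
      have e5 : l x = ∑ i, u i * x i := GM.inner_sum u x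
      have e6 : l x ^ 2 * φ x ^ 2 = (∑ i, u i * x i) * (l x * (φ x * φ x)) := by
        rw [← e5]; ring
      rw [e6, Finset.sum_mul]
      exact Finset.sum_congr rfl fun j _ => by ring
    rw [hm2]
    simp only [e]
    rw [integral_finsetSum _ fun i _ =>
      (pl_int h1 (pl_mul h1 (pl_coord h1 i) pll2)).const_mul (u i)]
    have e7 : ∀ i, ∫ x : E n, u i * (x i * (l x * (φ x * φ x))) ∂(gam n) =
        2 * (u i * a i) + s * u i ^ 2 := by
      intro i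
      have e8 : ∫ x : E n, x i * (l x * (φ x * φ x)) ∂(gam n) = y i := rfl
      rw [integral_const_mul, e8, hyi]
      ring
    simp only [e7, Finset.sum_add_distrib]
    rw [← Finset.mul_sum, ← Finset.mul_sum, hu2, ← hx₀']
    ring
  have hy2 : ∑ i, y i ^ 2 = 4 * A + 4 * s * x₀ + s ^ 2 := by
    have e : ∀ i, y i ^ 2 = 4 * a i ^ 2 + 4 * s * (u i * a i) + s ^ 2 * u i ^ 2 := by
      intro i
      rw [hyi]
      ring
    simp only [e, Finset.sum_add_distrib]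
    rw [← Finset.mul_sum, ← Finset.mul_sum, ← Finset.mul_sum, hu2, ← hx₀', ← hA']
    ring
  -- Cauchy-Schwarz
  have hCS : (ν + 4) * m2 ^ 2 ≤ (ν + 2) * W := by
    obtain ⟨c, hc⟩ : ∃ c : ℝ, c = m2 / (ν + 2) := ⟨_, rfl⟩
    have h5 : 0 ≤ ∫ x, (l x * φ x ^ 2 - c * (N x * l x)) ^ 2 ∂(gam n) :=
      integral_nonneg fun x => sq_nonneg _
    have e : ∀ x, (l x * φ x ^ 2 - c * (N x * l x)) ^ 2 =
        (l x ^ 2 * φ x ^ 4 - 2 * c * (N x * (l x ^ 2 * φ x ^ 2))) +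
          c ^ 2 * (N x * (N x * (l x * l x))) := fun x => by ring
    simp only [e] at h5
    rw [ex_add h1 (pl_sub h1 q4 (pl_cmul h1 _ (pl_mul h1 plN q2)))
      (pl_cmul h1 _ (pl_mul h1 plN (pl_mul h1 plN (pl_mul h1 pll pll)))),
      ex_sub h1 q4 (pl_cmul h1 _ (pl_mul h1 plN q2)), integral_const_mul, integral_const_mul,
      mNl2φ2, mNNl2, ← hW] at h5
    have hc' : c * (ν + 2) = m2 := by rw [hc]; field_simp
    have h6 : 0 ≤ (ν + 2) * (W - 2 * c * ((ν + 4) * m2) + c ^ 2 * ((ν + 4) * (ν + 2))) :=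
      mul_nonneg (by positivity) h5
    have h7 : (ν + 2) * (W - 2 * c * ((ν + 4) * m2) + c ^ 2 * ((ν + 4) * (ν + 2))) =
        (ν + 2) * W - 2 * (ν + 4) * (c * (ν + 2)) * m2 + (ν + 4) * (c * (ν + 2)) ^ 2 := by ring
    rw [h7, hc'] at h6
    nlinarith [h6]
  rw [b1] at hSP
  simp only [b2] at hSP
  have e9 : ∑ i, (ε * y i) ^ 2 = ε ^ 2 * ∑ i, y i ^ 2 := by
    rw [Finset.mul_sum]
    exact Finset.sum_congr rfl fun i _ => by ring
  rw [e9, hy2] at hSP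
  have hfin := hSP.trans hint'
  have hε : 0 ≤ ε ^ 2 := sq_nonneg ε
  have hrν : r * ν = 1 := by rw [hr]; field_simp
  -- everything times `ν / (ν + 2)`
  have hW' : ε ^ 2 * ((ν + 4) * m2 ^ 2) ≤ ε ^ 2 * ((ν + 2) * W) := mul_le_mul_of_nonneg_left hCS hε
  obtain ⟨y', hy'⟩ : ∃ y' : ℝ, y' = s + 2 * x₀ := ⟨_, rfl⟩
  rw [← hy'] at hm2' ⊢
  rw [hm2'] at hfin hW'
  have hx₀y : 4 * A + 4 * s * x₀ + s ^ 2 = 4 * (A - x₀ ^ 2) + y' ^ 2 := by rw [hy']; ring
  rw [hx₀y] at hfin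
  -- clear denominators
  have hk : ν * ((3 * ν + 4) / ν * s + 16 * ε * b) * (ν + 2) ^ 2 ≤
      ν * (1 + ν / (ν + 2) * (ε ^ 2 * (4 * y' + 8 * (A - x₀ ^ 2) - 4 * y' ^ 2 / (ν + 2)))) *
        (ν + 2) ^ 2 := by
    have e1 : ν * ((3 * ν + 4) / ν * s + 16 * ε * b) * (ν + 2) ^ 2 =
        ((3 * ν + 4) * s + 16 * ε * b * ν) * (ν + 2) ^ 2 := by
      field_simp
    have e2 : ν * (1 + ν / (ν + 2) * (ε ^ 2 * (4 * y' + 8 * (A - x₀ ^ 2) -
        4 * y' ^ 2 / (ν + 2)))) * (ν + 2) ^ 2 =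
        ν * ((ν + 2) ^ 2 + ν * ε ^ 2 * ((4 * y' + 8 * (A - x₀ ^ 2)) * (ν + 2) - 4 * y' ^ 2)) := by
      field_simp
    rw [e1, e2]
    -- `hfin` multiplied by `ν² (ν + 2)`
    have h8 := mul_le_mul_of_nonneg_left hfin (show 0 ≤ ν ^ 2 * (ν + 2) by positivity)
    have r2 : r ^ 2 * ν ^ 2 = 1 := by
      rw [← mul_pow, hrν, one_pow]
    have h9 : ν ^ 2 * (ν + 2) * (3 * (r ^ 2 * ((ν + 4) * ((ν + 2) * s)) +
        6 * ε * r * ((ν + 4) * b) + ε ^ 2 * W) - 2 * (ε ^ 2 * (4 * (A - x₀ ^ 2) + y' ^ 2))) =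
        (ν + 2) * (3 * ((r ^ 2 * ν ^ 2) * ((ν + 4) * ((ν + 2) * s))) +
        18 * ε * (r * ν) * ν * ((ν + 4) * b) + 3 * ε ^ 2 * ν ^ 2 * W -
        2 * ν ^ 2 * (ε ^ 2 * (4 * (A - x₀ ^ 2) + y' ^ 2))) := by ring
    have h10 : ν ^ 2 * (ν + 2) * (r ^ 2 * ((ν + 2) * ν) + 4 * ε ^ 2 * y' +
        8 * r ^ 2 * ((ν + 2) * s) + 32 * ε * r * b + 2 * ε * r * ((ν + 4) * b) + ε ^ 2 * W) =
        (ν + 2) * ((r ^ 2 * ν ^ 2) * ((ν + 2) * ν) + 4 * ε ^ 2 * ν ^ 2 * y' +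
        8 * (r ^ 2 * ν ^ 2) * ((ν + 2) * s) + 32 * ε * (r * ν) * ν * b +
        2 * ε * (r * ν) * ν * ((ν + 4) * b) + ε ^ 2 * ν ^ 2 * W) := by ring
    rw [h9, h10, r2, hrν] at h8
    have h11 := mul_le_mul_of_nonneg_left hW' (show 0 ≤ 2 * ν ^ 2 by positivity)
    nlinarith [h8, h11]
  have hpos : 0 < ν * (ν + 2) ^ 2 := by positivity
  have h12 : (ν * (ν + 2) ^ 2) * ((3 * ν + 4) / ν * s + 16 * ε * b) ≤ (ν * (ν + 2) ^ 2) *
      (1 + ν / (ν + 2) * (ε ^ 2 * (4 * y' + 8 * (A - x₀ ^ 2) - 4 * y' ^ 2 / (ν + 2)))) := by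
    calc _ = ν * ((3 * ν + 4) / ν * s + 16 * ε * b) * (ν + 2) ^ 2 := by ring
      _ ≤ _ := hk
      _ = _ := by ring
  exact le_of_mul_le_mul_left h12 hpos

end Pool.Agent.Q183.CF
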