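import Pool.Agent.Q183.CF.GA

/-!
# The bound for the traceless part of `X`
-/

set_option autoImplicit false

open MeasureTheory

namespace Pool.Agent.Q183.CF

open Pool.Agent.Q188.FC Pool.Agent.Q149.FC Pool.Agent.Q149.FC.GM Pool.Agent.Q149.FC.SA
open Pool.Agent.W716.FV (E gam gd UU)
open Pool.Agent.H241R3.FV (Sph act)
open Pool.Agent.Q280.FC (qp_cont qp_pb inner_int cs pb_mul pb_intc)

section
variable {n : ℕ}

theorem qp_hom {Q : Matrix (Fin n) (Fin n) ℝ} (hQ0 : Q.trace = 0) (t : ℝ) (z : E n) :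
    qp Q (t • z) = t ^ 2 * qp Q z := by
  have h1 := inner_act_self Q (t • z)
  have h2 := inner_act_self Q z
  rw [hQ0, add_zero] at h1 h2
  rw [← h1, ← h2, Finset.mul_sum]
  refine Finset.sum_congr rfl fun i _ => ?_
  rw [act_apply, act_apply, PiLp.smul_apply, smul_eq_mul]
  simp only [PiLp.smul_apply, smul_eq_mul, Finset.mul_sum]
  refine Finset.sum_congr rfl fun j _ => ?_
  ring

theorem qp_one_add (Q : Matrix (Fin n) (Fin n) ℝ) (r : ℝ) (z : E n) :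
    qp (r • (1 : Matrix (Fin n) (Fin n) ℝ) + Q) z = r * (‖z‖ ^ 2 - n) + qp Q z := by
  unfold qp
  simp only [Matrix.add_apply, Matrix.smul_apply, smul_eq_mul, add_mul, Finset.sum_add_distrib]
  congr 1
  have h : ∀ i : Fin n, ∑ j, r * (1 : Matrix (Fin n) (Fin n) ℝ) i j *
      (z i * z j - if i = j then 1 else 0) = r * (z i ^ 2 - 1) := by
    intro i
    rw [Finset.sum_eq_single i]
    · rw [Matrix.one_apply_eq, if_pos rfl]
      ring
    · intro j _ hj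
      rw [Matrix.one_apply_ne (Ne.symm hj)]
      ring
    · intro h
      exact absurd (Finset.mem_univ i) h
  rw [Finset.sum_congr rfl fun i _ => h i, ← Finset.mul_sum, Finset.sum_sub_distrib, norm_sq_sum]
  simp

theorem hs_one_add {Q : Matrix (Fin n) (Fin n) ℝ} (hQ0 : Q.trace = 0) (r : ℝ) :
    hs (r • (1 : Matrix (Fin n) (Fin n) ℝ) + Q) = r ^ 2 * n + hs Q := by
  unfold hs
  have h : ∀ i : Fin n, ∑ j, (r • (1 : Matrix (Fin n) (Fin n) ℝ) + Q) i j ^ 2 =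
      (r ^ 2 + 2 * r * Q i i) + ∑ j, Q i j ^ 2 := by
    intro i
    have e : ∀ j, (r • (1 : Matrix (Fin n) (Fin n) ℝ) + Q) i j ^ 2 =
        (if i = j then r ^ 2 + 2 * r * Q i j else 0) + Q i j ^ 2 := by
      intro j
      rw [Matrix.add_apply, Matrix.smul_apply, Matrix.one_apply, smul_eq_mul]
      split_ifs <;> ring
    simp only [e, Finset.sum_add_distrib, Finset.sum_ite_eq, Finset.mem_univ, if_true]
  rw [Finset.sum_congr rfl fun i _ => h i, Finset.sum_add_distrib, Finset.sum_add_distrib,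
    ← Finset.mul_sum]
  have h2 : ∑ i, Q i i = 0 := hQ0
  rw [h2]
  simp
  ring

theorem pair_one_add (Q X : Matrix (Fin n) (Fin n) ℝ) (r : ℝ) :
    ∑ i, ∑ j, (r • (1 : Matrix (Fin n) (Fin n) ℝ) + Q) i j * X i j =
      r * X.trace + ∑ i, ∑ j, Q i j * X i j := by
  have h : ∀ i : Fin n, ∑ j, (r • (1 : Matrix (Fin n) (Fin n) ℝ) + Q) i j * X i j =
      r * X i i + ∑ j, Q i j * X i j := by
    intro i
    have e : ∀ j, (r • (1 : Matrix (Fin n) (Fin n) ℝ) + Q) i j * X i j =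
        (if i = j then r * X i j else 0) + Q i j * X i j := by
      intro j
      rw [Matrix.add_apply, Matrix.smul_apply, Matrix.one_apply, smul_eq_mul]
      split_ifs <;> ring
    simp only [e, Finset.sum_add_distrib, Finset.sum_ite_eq, Finset.mem_univ, if_true]
  rw [Finset.sum_congr rfl fun i _ => h i, Finset.sum_add_distrib, ← Finset.mul_sum]
  rfl

end

/-- The spectral inequality for `(‖z‖²/n + q) φ`. -/
theorem vIneqR (h1 : PLBasic) (h2 : CcBasic) (hCM : CcMom) (hGM : GMom) (hSA : SXa) (n : ℕ)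
    (hn : 0 < n) (φ : E n → ℝ) (hφ : Cc φ) (hmv : mv φ = 0) (Q : Matrix (Fin n) (Fin n) ℝ)
    (hQ : Q.IsSymm) (hQ0 : Q.trace = 0) (κ : ℝ) (hκ : ∀ v : E n, ‖act Q v‖ ^ 2 ≤ κ * ‖v‖ ^ 2)
    (τ : ℝ) (hτ : τ = ∑ i, ∑ j, Q i j * Xm φ i j) (β : ℝ) :
    (3 * n + 4) / n * sv φ + 8 * τ + n / (n + 2) * (4 * (n + 4) * β * τ -
      (n + 4) * (n + 2) * β ^ 2 * sv φ) ≤
      1 + 2 * n / (n + 2) * hs Q + (n / (n + 2)) ^ 2 *
        ((n + 2) / (n + 4) * (sv φ * (2 * hs Q + 4 * n / (n + 2) * κ))) := by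
  have hprob := prob n
  obtain ⟨hpl, -, -, hodd, hfd, heu, hmvu, -, hs0⟩ := h2 n φ hφ
  obtain ⟨htr, -, -, -⟩ := hCM n φ hφ
  obtain ⟨-, -, -, -, hq2, hqq, hqqq⟩ := (hGM n).2 Q hQ
  obtain ⟨ν, hν⟩ : ∃ ν : ℝ, ν = (n : ℝ) := ⟨_, rfl⟩
  have hν0 : 0 < ν := by rw [hν]; exact_mod_cast hn
  obtain ⟨r, hr⟩ : ∃ r : ℝ, r = 1 / ν := ⟨_, rfl⟩
  have hrν : r * ν = 1 := by rw [hr]; field_simp
  set N : E n → ℝ := fun x => ‖x‖ ^ 2 with hN
  set q : E n → ℝ := qp Q with hq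
  set s := sv φ with hs'
  have plN : PL N := pl_nsq h1
  have plq : PL q := pl_qp h1 Q
  have plqφ : PL (fun z => q z * φ z) := pl_mul h1 plq hpl
  have plNφ : PL (fun z => N z * φ z) := pl_mul h1 plN hpl
  have hqsm : ∀ (t : ℝ) (z : E n), q (t • z) = t ^ 2 * q z := fun t z => qp_hom hQ0 t z
  have hNsm : ∀ (t : ℝ) (z : E n), N (t • z) = t ^ 2 * N z := fun t z => nsq_smul t z
  have hism : ∀ (v : E n) (t : ℝ) (z : E n), (inner ℝ v (t • z) : ℝ) = t * inner ℝ v z :=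
    fun v t z => real_inner_smul_right _ _ _
  set P : E n := ∫ z, (q z * φ z) • z ∂(gam n) with hP
  have hPv : ∀ v : E n, (inner ℝ P v : ℝ) = ∫ z, (q z * φ z) * inner ℝ v z ∂(gam n) :=
    fun v => inner_int ((qp_cont Q).mul (pl_cont h1 hpl))
      (pb_mul (qp_pb Q) ((h1 n).1 φ hpl).2.1) v
  have hz : ∀ v : E n, ∫ z, φ z * inner ℝ v z ∂(gam n) = 0 := by
    intro v
    rw [← hmvu v, hmv, inner_zero_left]
  have plv : ∀ v : E n, PL (fun z : E n => (inner ℝ v z : ℝ)) := fun v => pl_inner h1 v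
  -- moments
  have mφ : ∫ z, φ z * φ z ∂(gam n) = s := by
    rw [hs']
    unfold sv
    refine integral_congr_ae (Filter.Eventually.of_forall fun x => ?_)
    simp only
    rw [pow_two]
  have mNφ2 : ∫ z, N z * (φ z * φ z) ∂(gam n) = (ν + 2) * s := by
    have h5 := (hom_k h1 2 (pl_mul h1 hpl hpl) (fun t z => by rw [hφ.hom]; ring)).2.2
    rw [mφ] at h5
    rw [hν]
    exact_mod_cast h5
  have mNNφ2 : ∫ z, N z * (N z * (φ z * φ z)) ∂(gam n) = (ν + 4) * ((ν + 2) * s) := by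
    have h5 := (hom_k h1 4 (pl_mul h1 plN (pl_mul h1 hpl hpl)) (fun t z => by
      rw [hNsm, hφ.hom]; ring)).2.2
    rw [mNφ2] at h5
    rw [hν] at h5 ⊢
    exact_mod_cast h5
  have mqφ2 : ∫ z, q z * (φ z * φ z) ∂(gam n) = 2 * τ := by
    rw [hτ, ← Pool.Agent.Q280.FC.qp_phi hφ Q]
    refine integral_congr_ae (Filter.Eventually.of_forall fun x => ?_)
    simp only [hq]
    ring
  have mNqφ2 : ∫ z, N z * (q z * (φ z * φ z)) ∂(gam n) = (ν + 4) * (2 * τ) := by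
    have h5 := (hom_k h1 4 (pl_mul h1 plq (pl_mul h1 hpl hpl)) (fun t z => by
      rw [hqsm, hφ.hom]; ring)).2.2
    rw [mqφ2] at h5
    rw [hν]
    exact_mod_cast h5
  have mφv : ∀ v : E n, ∫ z, φ z * inner ℝ v z ∂(gam n) = 0 := hz
  have mNφv : ∀ v : E n, ∫ z, N z * (φ z * inner ℝ v z) ∂(gam n) = 0 := by
    intro v
    have h5 := (hom_k h1 2 (pl_mul h1 hpl (plv v)) (fun t z => by
      rw [hφ.hom, hism]; ring)).2.2
    rw [mφv, mul_zero] at h5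
    exact h5
  have mNNφv : ∀ v : E n, ∫ z, N z * (N z * (φ z * inner ℝ v z)) ∂(gam n) = 0 := by
    intro v
    have h5 := (hom_k h1 4 (pl_mul h1 plN (pl_mul h1 hpl (plv v))) (fun t z => by
      rw [hNsm, hφ.hom, hism]; ring)).2.2
    rw [mNφv, mul_zero] at h5
    exact h5
  have mvv : ∀ v : E n, ∫ z : E n, (inner ℝ v z : ℝ) * inner ℝ v z ∂(gam n) = ‖v‖ ^ 2 := by
    intro v
    rw [mom2 v v, real_inner_self_eq_norm_sq]
  have mNvv : ∀ v : E n, ∫ z, N z * ((inner ℝ v z : ℝ) * inner ℝ v z) ∂(gam n) =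
      (ν + 2) * ‖v‖ ^ 2 := by
    intro v
    have h5 := (hom_k h1 2 (pl_mul h1 (plv v) (plv v)) (fun t z => by rw [hism]; ring)).2.2
    rw [mvv] at h5
    rw [hν]
    exact_mod_cast h5
  have mNNvv : ∀ v : E n, ∫ z, N z * (N z * ((inner ℝ v z : ℝ) * inner ℝ v z)) ∂(gam n) =
      (ν + 4) * ((ν + 2) * ‖v‖ ^ 2) := by
    intro v
    have h5 := (hom_k h1 4 (pl_mul h1 plN (pl_mul h1 (plv v) (plv v))) (fun t z => by
      rw [hNsm, hism]; ring)).2.2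
    rw [mNvv] at h5
    rw [hν] at h5 ⊢
    exact_mod_cast h5
  have mNg : ∀ v : E n, ∫ z, N z * ((q z * φ z) * inner ℝ v z) ∂(gam n) =
      (ν + 4) * inner ℝ P v := by
    intro v
    have h5 := (hom_k h1 4 (pl_mul h1 plqφ (plv v)) (fun t z => by
      rw [hqsm, hφ.hom, hism]; ring)).2.2
    rw [← hPv] at h5
    rw [hν]
    exact_mod_cast h5
  -- lower bound of `E2`
  set E2 := ∫ z, (q z * φ z) ^ 2 ∂(gam n) with hE2
  have plg2 : PL (fun z => (q z * φ z) ^ 2) := pl_sq h1 plqφ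
  have hlow : (ν + 4) * ‖P‖ ^ 2 + (ν + 2) * (4 * (ν + 4) * β * τ -
      (ν + 4) * (ν + 2) * β ^ 2 * s) ≤ (ν + 2) * E2 := by
    obtain ⟨α, hα⟩ : ∃ α : ℝ, α = 1 / (ν + 2) := ⟨_, rfl⟩
    have hα' : α * (ν + 2) = 1 := by rw [hα]; field_simp
    have h5 : 0 ≤ ∫ z, (q z * φ z - α * (N z * inner ℝ P z) - β * (N z * φ z)) ^ 2 ∂(gam n) :=
      integral_nonneg fun z => sq_nonneg _
    have p1 := plg2
    have p2 := pl_sub h1 p1 (pl_cmul h1 (2 * α) (pl_mul h1 plN (pl_mul h1 plqφ (plv P))))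
    have p3 := pl_sub h1 p2 (pl_cmul h1 (2 * β) (pl_mul h1 plN (pl_mul h1 plq
      (pl_mul h1 hpl hpl))))
    have p4 := pl_add h1 p3 (pl_cmul h1 (α ^ 2) (pl_mul h1 plN (pl_mul h1 plN
      (pl_mul h1 (plv P) (plv P)))))
    have p5 := pl_add h1 p4 (pl_cmul h1 (2 * α * β) (pl_mul h1 plN (pl_mul h1 plN
      (pl_mul h1 hpl (plv P)))))
    have e : ∫ z, (q z * φ z - α * (N z * inner ℝ P z) - β * (N z * φ z)) ^ 2 ∂(gam n) =
        E2 - 2 * α * ((ν + 4) * ‖P‖ ^ 2) - 2 * β * ((ν + 4) * (2 * τ)) +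
        α ^ 2 * ((ν + 4) * ((ν + 2) * ‖P‖ ^ 2)) + 2 * α * β * 0 +
        β ^ 2 * ((ν + 4) * ((ν + 2) * s)) := by
      rw [← mNNφ2, ← mNNφv P, ← mNNvv P, ← mNqφ2, ← real_inner_self_eq_norm_sq, ← mNg P, hE2,
        ← integral_const_mul, ← integral_const_mul, ← integral_const_mul, ← integral_const_mul,
        ← integral_const_mul, ← ex_sub h1 p1 (pl_cmul h1 (2 * α) (pl_mul h1 plN
          (pl_mul h1 plqφ (plv P)))),
        ← ex_sub h1 p2 (pl_cmul h1 (2 * β) (pl_mul h1 plN (pl_mul h1 plq (pl_mul h1 hpl hpl)))),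
        ← ex_add h1 p3 (pl_cmul h1 (α ^ 2) (pl_mul h1 plN (pl_mul h1 plN
          (pl_mul h1 (plv P) (plv P))))),
        ← ex_add h1 p4 (pl_cmul h1 (2 * α * β) (pl_mul h1 plN (pl_mul h1 plN
          (pl_mul h1 hpl (plv P))))),
        ← ex_add h1 p5 (pl_cmul h1 (β ^ 2) (pl_mul h1 plN (pl_mul h1 plN
          (pl_mul h1 hpl hpl))))]
      refine integral_congr_ae (Filter.Eventually.of_forall fun z => ?_)
      simp only
      ring
    rw [e] at h5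
    have h6 : 0 ≤ (ν + 2) * (E2 - 2 * α * ((ν + 4) * ‖P‖ ^ 2) - 2 * β * ((ν + 4) * (2 * τ)) +
        α ^ 2 * ((ν + 4) * ((ν + 2) * ‖P‖ ^ 2)) + 2 * α * β * 0 +
        β ^ 2 * ((ν + 4) * ((ν + 2) * s))) := mul_nonneg (by positivity) h5
    have h7 : (ν + 2) * (E2 - 2 * α * ((ν + 4) * ‖P‖ ^ 2) - 2 * β * ((ν + 4) * (2 * τ)) +
        α ^ 2 * ((ν + 4) * ((ν + 2) * ‖P‖ ^ 2)) + 2 * α * β * 0 +
        β ^ 2 * ((ν + 4) * ((ν + 2) * s))) = (ν + 2) * E2 -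
        2 * (α * (ν + 2)) * ((ν + 4) * ‖P‖ ^ 2) + (α * (ν + 2)) ^ 2 * ((ν + 4) * ‖P‖ ^ 2) -
        (ν + 2) * (4 * (ν + 4) * β * τ - (ν + 4) * (ν + 2) * β ^ 2 * s) := by ring
    rw [h7, hα'] at h6
    linarith
  -- upper bound of `‖P‖²`
  have hκP : (ν + 4) * ‖P‖ ^ 2 ≤ (ν + 2) * (s * (2 * hs Q + 4 * ν / (ν + 2) * κ)) := by
    have key : ∀ v : E n, (ν + 4) * (inner ℝ P v : ℝ) ^ 2 ≤
        (ν + 2) * (s * (2 * hs Q + 4 * ν / (ν + 2) * κ)) * ‖v‖ ^ 2 := by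
      intro v
      set w := act Q v with hw
      obtain ⟨c, hc⟩ : ∃ c : ℝ, c = 2 / (ν + 2) := ⟨_, rfl⟩
      have hc' : c * (ν + 2) = 2 := by rw [hc]; field_simp
      set H : E n → ℝ := fun z => q z * inner ℝ v z - c * (N z * inner ℝ w z) with hH
      have plH : PL H := pl_sub h1 (pl_mul h1 plq (plv v)) (pl_cmul h1 c (pl_mul h1 plN (plv w)))
      have mHφ : ∫ z, H z * (N z * φ z) ∂(gam n) = (ν + 4) * inner ℝ P v := by
        have e : ∀ z, H z * (N z * φ z) = N z * ((q z * φ z) * inner ℝ v z) -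
            c * (N z * (N z * (φ z * inner ℝ w z))) := fun z => by simp only [hH]; ring
        simp only [e]
        rw [ex_sub h1 (pl_mul h1 plN (pl_mul h1 plqφ (plv v))) (pl_cmul h1 c (pl_mul h1 plN
          (pl_mul h1 plN (pl_mul h1 hpl (plv w))))), integral_const_mul, mNNφv, mNg]
        ring
      have mqvw : ∫ z : E n, (inner ℝ v z : ℝ) * inner ℝ w z * q z ∂(gam n) = 2 * ‖w‖ ^ 2 := by
        rw [hqq v w, ← hw, real_inner_self_eq_norm_sq]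
      have mNqvw : ∫ z : E n, N z * ((inner ℝ v z : ℝ) * inner ℝ w z * q z) ∂(gam n) =
          (ν + 4) * (2 * ‖w‖ ^ 2) := by
        have h5 := (hom_k h1 4 (pl_mul h1 (pl_mul h1 (plv v) (plv w)) plq) (fun t z => by
          rw [hism, hism, hqsm]; ring)).2.2
        rw [mqvw] at h5
        rw [hν]
        exact_mod_cast h5
      have mHH : ∫ z, H z ^ 2 ∂(gam n) = 2 * hs Q * ‖v‖ ^ 2 + 8 * ‖w‖ ^ 2 -
          2 * c * ((ν + 4) * (2 * ‖w‖ ^ 2)) + c ^ 2 * ((ν + 4) * ((ν + 2) * ‖w‖ ^ 2)) := by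
        have e : ∀ z, H z ^ 2 = (inner ℝ v z ^ 2 * q z ^ 2 -
            2 * c * (N z * ((inner ℝ v z : ℝ) * inner ℝ w z * q z))) +
            c ^ 2 * (N z * (N z * ((inner ℝ w z : ℝ) * inner ℝ w z))) := fun z => by
          simp only [hH]; ring
        have pa : PL (fun z : E n => (inner ℝ v z : ℝ) ^ 2 * q z ^ 2) :=
          pl_mul h1 (pl_sq h1 (plv v)) (pl_sq h1 plq)
        have pb := pl_cmul h1 (2 * c) (pl_mul h1 plN (pl_mul h1 (pl_mul h1 (plv v) (plv w)) plq))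
        simp only [e]
        rw [ex_add h1 (pl_sub h1 pa pb) (pl_cmul h1 (c ^ 2) (pl_mul h1 plN (pl_mul h1 plN
          (pl_mul h1 (plv w) (plv w))))), ex_sub h1 pa pb, integral_const_mul,
          integral_const_mul, hqqq v, mNqvw, mNNvv, ← hw]
      have hCS := cs (pl_int h1 (pl_sq h1 plH)) (pl_int h1 (pl_sq h1 plNφ))
        (pl_int h1 (pl_mul h1 plH plNφ))
      have mNφNφ : ∫ z, (N z * φ z) ^ 2 ∂(gam n) = (ν + 4) * ((ν + 2) * s) := by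
        rw [← mNNφ2]
        refine integral_congr_ae (Filter.Eventually.of_forall fun z => ?_)
        simp only
        ring
      rw [mHφ, mHH, mNφNφ] at hCS
      have hwκ : ‖w‖ ^ 2 ≤ κ * ‖v‖ ^ 2 := hκ v
      have h6 : 2 * hs Q * ‖v‖ ^ 2 + 8 * ‖w‖ ^ 2 -
          2 * c * ((ν + 4) * (2 * ‖w‖ ^ 2)) + c ^ 2 * ((ν + 4) * ((ν + 2) * ‖w‖ ^ 2)) =
          2 * hs Q * ‖v‖ ^ 2 + 4 * ν / (ν + 2) * ‖w‖ ^ 2 := by
        have h7 : 4 * ν / (ν + 2) = 8 - 4 * c * (ν + 4) + c * (c * (ν + 2)) * (ν + 4) := by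
          rw [hc', hc]
          field_simp
          ring
        rw [h7]
        ring
      rw [h6] at hCS
      have h8 : 2 * hs Q * ‖v‖ ^ 2 + 4 * ν / (ν + 2) * ‖w‖ ^ 2 ≤
          (2 * hs Q + 4 * ν / (ν + 2) * κ) * ‖v‖ ^ 2 := by
        have h9 : 0 ≤ 4 * ν / (ν + 2) := by positivity
        have h10 := mul_le_mul_of_nonneg_left hwκ h9
        linarith
      have h11 := mul_le_mul_of_nonneg_right h8 (show 0 ≤ (ν + 4) * ((ν + 2) * s) by positivity)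
      have h12 := hCS.trans h11
      have h13 : (ν + 4) * ((ν + 4) * (inner ℝ P v : ℝ) ^ 2) ≤
          (ν + 4) * ((ν + 2) * (s * (2 * hs Q + 4 * ν / (ν + 2) * κ)) * ‖v‖ ^ 2) := by
        calc (ν + 4) * ((ν + 4) * (inner ℝ P v : ℝ) ^ 2) = ((ν + 4) * (inner ℝ P v : ℝ)) ^ 2 := by
              ring
          _ ≤ _ := h12
          _ = _ := by ring
      exact le_of_mul_le_mul_left h13 (by positivity)
    have h5 := key P
    rw [real_inner_self_eq_norm_sq] at h5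
    rcases (sq_nonneg ‖P‖).eq_or_lt with h6 | h6
    · rw [← h6, mul_zero]
      have hκ0 : 0 ≤ κ := by
        by_contra hcon
        push Not at hcon
        have h7 := hκ (EuclideanSpace.single ⟨0, hn⟩ 1)
        have h8 : ‖(EuclideanSpace.single (⟨0, hn⟩ : Fin n) (1 : ℝ) : E n)‖ = 1 := by simp
        rw [h8, one_pow, mul_one] at h7
        have h9 := sq_nonneg ‖act Q (EuclideanSpace.single (⟨0, hn⟩ : Fin n) (1 : ℝ))‖
        linarith
      have := Pool.Agent.Q280.FC.hs_nonneg Q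
      positivity
    · have h7 : ‖P‖ ^ 2 * ((ν + 4) * ‖P‖ ^ 2) ≤
          ‖P‖ ^ 2 * ((ν + 2) * (s * (2 * hs Q + 4 * ν / (ν + 2) * κ))) := by
        calc _ = (ν + 4) * (‖P‖ ^ 2) ^ 2 := by ring
          _ ≤ _ := h5
          _ = _ := by ring
      exact le_of_mul_le_mul_left h7 h6
  -- the inequality `SXa`
  have hQ' : (r • (1 : Matrix (Fin n) (Fin n) ℝ) + Q).IsSymm := by
    apply Matrix.IsSymm.add _ hQ
    exact (Matrix.isSymm_one).smul r
  have hA := hSA n φ hφ hmv _ hQ'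
  have hqp : ∀ z, qp (r • (1 : Matrix (Fin n) (Fin n) ℝ) + Q) z = (r * N z - 1) + q z := by
    intro z
    rw [qp_one_add, ← hν]
    have : r * (‖z‖ ^ 2 - ν) = r * ‖z‖ ^ 2 - r * ν := by ring
    rw [this, hrν]
  simp only [hqp] at hA
  rw [hs_one_add hQ0, pair_one_add, htr, ← hτ, ← hν, ← hs'] at hA
  have hPP : (∫ z, ((r * N z - 1 + q z) * φ z) • z ∂(gam n)) = P := by
    have pl1 : PL (fun z => (r * N z - 1 + q z) * φ z) :=
      pl_mul h1 (pl_add h1 (pl_sub h1 (pl_cmul h1 r plN) (pl_const h1 1)) plq) hpl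
    ext i
    rw [vec_coord h1 pl1 i, hP, vec_coord h1 plqφ i]
    have e : ∀ z : E n, z i * ((r * N z - 1 + q z) * φ z) =
        (r * (N z * (φ z * z i)) - φ z * z i) + z i * (q z * φ z) := fun z => by ring
    simp only [e]
    have hi : ∀ z : E n, (inner ℝ (EuclideanSpace.single i (1 : ℝ)) z : ℝ) = z i := by
      intro z
      rw [EuclideanSpace.inner_single_left]
      simp
    have c1 := mφv (EuclideanSpace.single i (1 : ℝ))
    have c2 := mNφv (EuclideanSpace.single i (1 : ℝ))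
    simp only [hi] at c1 c2
    have pc : PL (fun z : E n => φ z * z i) := pl_mul h1 hpl (pl_coord h1 i)
    rw [ex_add h1 (pl_sub h1 (pl_cmul h1 r (pl_mul h1 plN pc)) pc)
      (pl_mul h1 (pl_coord h1 i) plqφ), ex_sub h1 (pl_cmul h1 r (pl_mul h1 plN pc)) pc,
      integral_const_mul, c1, c2]
    ring
  rw [hPP] at hA
  have hE : ∫ z, ((r * N z - 1 + q z) * φ z) ^ 2 ∂(gam n) =
      r ^ 2 * ((ν + 4) * ((ν + 2) * s)) - 2 * r * ((ν + 2) * s) + s +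
        2 * r * ((ν + 4) * (2 * τ)) - 2 * (2 * τ) + E2 := by
    have p1 := pl_cmul h1 (r ^ 2) (pl_mul h1 plN (pl_mul h1 plN (pl_mul h1 hpl hpl)))
    have p2 := pl_sub h1 p1 (pl_cmul h1 (2 * r) (pl_mul h1 plN (pl_mul h1 hpl hpl)))
    have p3 := pl_add h1 p2 (pl_mul h1 hpl hpl)
    have p4 := pl_add h1 p3 (pl_cmul h1 (2 * r) (pl_mul h1 plN (pl_mul h1 plq
      (pl_mul h1 hpl hpl))))
    have p5 := pl_sub h1 p4 (pl_cmul h1 2 (pl_mul h1 plq (pl_mul h1 hpl hpl)))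
    rw [← mNNφ2, ← mNφ2, ← mNqφ2, ← mqφ2, hE2, ← integral_const_mul, ← integral_const_mul,
      ← integral_const_mul, ← integral_const_mul,
      ← ex_sub h1 p1 (pl_cmul h1 (2 * r) (pl_mul h1 plN (pl_mul h1 hpl hpl)))]
    have e0 : s = ∫ z, φ z * φ z ∂(gam n) := mφ.symm
    rw [e0, ← ex_add h1 p2 (pl_mul h1 hpl hpl), ← ex_add h1 p3 (pl_cmul h1 (2 * r)
      (pl_mul h1 plN (pl_mul h1 plq (pl_mul h1 hpl hpl)))),
      ← ex_sub h1 p4 (pl_cmul h1 2 (pl_mul h1 plq (pl_mul h1 hpl hpl))), ← ex_add h1 p5 plg2]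
    refine integral_congr_ae (Filter.Eventually.of_forall fun z => ?_)
    simp only
    ring
  rw [hE] at hA
  -- arithmetic
  rw [← hν]
  have hpos : 0 < ν * (ν + 2) ^ 2 := by positivity
  have hk : (ν * (ν + 2) ^ 2) * ((3 * ν + 4) / ν * s + 8 * τ + ν / (ν + 2) *
      (4 * (ν + 4) * β * τ - (ν + 4) * (ν + 2) * β ^ 2 * s)) ≤ (ν * (ν + 2) ^ 2) *
      (1 + 2 * ν / (ν + 2) * hs Q + (ν / (ν + 2)) ^ 2 *
        ((ν + 2) / (ν + 4) * (s * (2 * hs Q + 4 * ν / (ν + 2) * κ)))) := by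
    obtain ⟨F, hF⟩ : ∃ F : ℝ, F = 4 * (ν + 4) * β * τ - (ν + 4) * (ν + 2) * β ^ 2 * s := ⟨_, rfl⟩
    obtain ⟨B, hB⟩ : ∃ B : ℝ, B = s * (2 * hs Q + 4 * ν / (ν + 2) * κ) := ⟨_, rfl⟩
    rw [← hF] at hlow ⊢
    rw [← hB] at hκP ⊢
    have e1 : (ν * (ν + 2) ^ 2) * ((3 * ν + 4) / ν * s + 8 * τ + ν / (ν + 2) * F) =
        (ν + 2) ^ 2 * ((3 * ν + 4) * s + 8 * τ * ν) + ν ^ 2 * (ν + 2) * F := by
      field_simp
    have e2 : (ν * (ν + 2) ^ 2) * (1 + 2 * ν / (ν + 2) * hs Q + (ν / (ν + 2)) ^ 2 *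
        ((ν + 2) / (ν + 4) * B)) = ν * (ν + 2) ^ 2 + 2 * ν ^ 2 * (ν + 2) * hs Q +
        ν ^ 3 * ((ν + 2) / (ν + 4) * B) := by
      field_simp
    rw [e1, e2]
    -- `‖P‖² ≤ (ν+2)/(ν+4) B`
    have e3 : ‖P‖ ^ 2 ≤ (ν + 2) / (ν + 4) * B := by
      rw [div_mul_eq_mul_div, le_div_iff₀ (by positivity)]
      linarith
    have r2 : r ^ 2 * ν ^ 2 = 1 := by
      rw [← mul_pow, hrν, one_pow]
    have h8 := mul_le_mul_of_nonneg_left hA (show 0 ≤ ν ^ 2 * (ν + 2) by positivity)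
    have h9 : ν ^ 2 * (ν + 2) * (3 * s + 8 * (r * s + τ) +
        (r ^ 2 * ((ν + 4) * ((ν + 2) * s)) - 2 * r * ((ν + 2) * s) + s +
        2 * r * ((ν + 4) * (2 * τ)) - 2 * (2 * τ) + E2)) =
        (ν + 2) * (3 * ν ^ 2 * s + 8 * ((r * ν) * ν * s + ν ^ 2 * τ) +
        ((r ^ 2 * ν ^ 2) * ((ν + 4) * ((ν + 2) * s)) - 2 * (r * ν) * ν * ((ν + 2) * s) +
        ν ^ 2 * s + 2 * (r * ν) * ν * ((ν + 4) * (2 * τ)) - 2 * ν ^ 2 * (2 * τ))) +
        ν ^ 2 * ((ν + 2) * E2) := by ring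
    have h10 : ν ^ 2 * (ν + 2) * (1 + 2 * (r ^ 2 * ν + hs Q) + 2 * ‖P‖ ^ 2) =
        (ν + 2) * (ν ^ 2 + 2 * ((r * ν) * (r * ν) * ν + ν ^ 2 * hs Q)) +
        2 * ν ^ 2 * (ν + 2) * ‖P‖ ^ 2 := by ring
    rw [h9, h10, r2, hrν] at h8
    have h11 := mul_le_mul_of_nonneg_left hlow (show 0 ≤ ν ^ 2 by positivity)
    have h12 := mul_le_mul_of_nonneg_left e3 (show 0 ≤ ν ^ 3 by positivity)
    nlinarith [h8, h11, h12]
  exact le_of_mul_le_mul_left hk hpos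

end Pool.Agent.Q183.CF
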