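import Pool.Agent.Q183.CF.MX
import Pool.Agent.Q188.FC.BetCF
import Pool.Agent.Q188.FC.BetCA

/-!
# The Jacobian of the centre with a general constant

Copied from `Pool.Agent.Q188.FC.BetJF`, `BetCF`, `BetCA` (helpers 53, 190, 188) with a general
constant `κ` in one fixed dimension `n` in place of `200/163` in all dimensions.
-/

set_option autoImplicit false

open MeasureTheory Metric Set Filter Topology

namespace Pool.Agent.Q183.CF

open Pool.Agent.W716.FV (E gam gd UU)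
open Pool.Agent.Q188.FC

/-- The Gaussian inequality with the constant `κ` in dimension `n`. -/
def GaussK (n : ℕ) (κ : ℝ) : Prop :=
  ∀ (φ : E n → ℝ), Cc φ → mv φ = 0 → ∀ p : E n, ‖p‖ ≤ 1 →
    Real.exp (-(sv φ + bv φ p) / 2) ≤ κ * (1 - Xm φ).det

def JacK (n : ℕ) (κ : ℝ) : Prop :=
  ∀ p : E n, ‖p‖ < 1 → ∀ φ : E n → ℝ, Cc φ → GG p φ = 0 →
    ∀ L : E n →L[ℝ] E n, HasFDerivAt (fun p' => GG p' φ) L p →
    ∀ G : Matrix (Fin n) (Fin n) ℝ, G.PosDef → ∀ D : E n → E n →L[ℝ] ℝ, Measurable D →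
    (∀ᵐ y ∂(volume : Measure (E n)), ∀ v : E n,
      (D y v) ^ 2 ≤ (‖y‖ ^ 2 - φ y ^ 2) * ∑ i, ∑ j, v i * G i j * v j) →
    ∀ T : E n →L[ℝ] E n, (∀ v, T v = ∫ y, (D y v) • gk p (φ y) y) →
    L.det ≠ 0 ∧ |T.det| ≤ κ * (lf p)⁻¹ * |L.det| * √G.det

def CenterDiffK (n : ℕ) (κ : ℝ) : Prop :=
  ∀ (U : Set (E n)) (φ : E n → E n → ℝ), IsOpen U → LipFam U φ →
    ∀ (s : Set (E n)) (f : E n → E n), s ⊆ U → (∀ c ∈ s, ‖f c‖ < 1 ∧ GG (f c) (φ c) = 0) →
    ∀ c₀ ∈ s, ∀ G : Matrix (Fin n) (Fin n) ℝ, G.PosDef → (∃ D, GoodD φ c₀ G D) →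
    ∃ f' : E n →L[ℝ] E n, HasFDerivWithinAt f f' s c₀ ∧
      |f'.det| ≤ κ * (lf (f c₀))⁻¹ * √G.det

theorem jacK (n : ℕ) (hn : 0 < n) (κ : ℝ) (hκ : 0 < κ) (h1 : BoostAlg) (h2 : HatEx) (h3 : GGHat) (h4 : GGDer) (h5 : GGForm) (h6 : DetD)
    (h7 : DetT) (h8 : GaussK n κ) : JacK n κ := by
  intro p hp φ hφ h0 L hL G hG D hD hDb T hT
  obtain ⟨ψ, hψ, hhat⟩ := h2 n p hp φ hφ
  have hm : mv ψ = 0 := ((h3 n p hp φ ψ hφ hψ hhat).2.1).1 h0
  have hlf : 1 ≤ lf p := (h1 n p hp).1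
  obtain ⟨L', hL', hform⟩ := h4 n φ hφ p hp
  have hLL : L = L' := hL.unique hL'
  have hLf : ∀ a a' : E n, (inner ℝ (L a) a' : ℝ) =
      -inner ℝ (NN p a) (NN p a') + qX ψ (NN p a) (NN p a') := by
    intro a a'
    rw [hLL, hform, h5 n p hp φ ψ hφ hψ hhat a a', hm, inner_zero_right, inner_zero_right]
    ring
  have hdet := h6 n p hp ψ hψ L hLf
  have hG8 := h8 ψ hψ hm p hp.le
  have hT7 := h7 n hn p hp φ ψ hφ hψ hhat hm G hG D hD hDb T hT
  set e := Real.exp (-(sv ψ + bv ψ p) / 2) with he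
  have he0 : 0 < e := Real.exp_pos _
  set x := (1 - Xm ψ).det with hx
  have hx0 : 0 < x := by
    by_contra hcon
    push Not at hcon
    have : κ * x ≤ 0 := mul_nonpos_of_nonneg_of_nonpos hκ.le hcon
    linarith
  have hl0 : 0 < lf p := by linarith
  rw [abs_of_pos hx0] at hdet
  constructor
  · intro h
    rw [h, abs_zero] at hdet
    have : 0 < lf p ^ 2 * x := by positivity
    linarith
  · calc |T.det| ≤ lf p * e * √G.det := hT7
      _ ≤ lf p * (κ * x) * √G.det := by gcongr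
      _ = κ * (lf p)⁻¹ * |L.det| * √G.det := by
          rw [hdet]
          field_simp

theorem centerDiffK (n : ℕ) (κ : ℝ) (h1 : LocZ) (h2 : GGDer) (h3 : GGStrict) (h4 : GGChart) 
    (h5 : JacK n κ) : CenterDiffK n κ := by
  intro U φ hU hφ s f hsU hf c₀ hc₀ G hG hD
  obtain ⟨D, hDm, hDd⟩ := hD
  obtain ⟨hcc, hloc⟩ := hφ
  obtain ⟨r₀, K₀, hr₀, hK₀, hball, hlip⟩ := hloc c₀ (hsU hc₀)
  obtain ⟨hp₀, hz₀⟩ := hf c₀ hc₀
  set p₀ := f c₀ with hp₀d
  obtain ⟨L, hL, -⟩ := h2 n (φ c₀) (hcc c₀) p₀ hp₀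
  obtain ⟨T, hT, hTv⟩ := h4 n p₀ hp₀ φ hcc c₀ r₀ K₀ hr₀
    (fun c hc y => hlip c hc c₀ (mem_ball_self hr₀) y) D hDm (hDd.mono fun y hy => hy.1)
  obtain ⟨hL0, hdet⟩ := h5 p₀ hp₀ (φ c₀) (hcc c₀) hz₀ L hL G hG D hDm
    (hDd.mono fun y hy => hy.2) T hTv
  set Le : E n ≃L[ℝ] E n := L.toContinuousLinearEquivOfDetNeZero hL0 with hLe
  have hLe1 : ∀ v, Le v = L v := fun v => rfl
  have hLe2 : ∀ v, L (Le.symm v) = v := fun v => by rw [← hLe1, Le.apply_symm_apply]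
  refine ⟨-((Le.symm : E n →L[ℝ] E n).comp T), ?_, ?_⟩
  · -- local Lipschitz constant
    obtain ⟨r, K, hr, hK, hLZ⟩ := h1 n (φ c₀) (hcc c₀) p₀ hp₀ hz₀
    obtain ⟨Cs, hCs0, hCs⟩ : ∃ Cs : ℝ, 0 < Cs ∧ ∀ v, ‖Le.symm v‖ ≤ Cs * ‖v‖ := by
      refine ⟨‖(Le.symm : E n →L[ℝ] E n)‖ + 1, by positivity, fun v => ?_⟩
      have := (Le.symm : E n →L[ℝ] E n).le_opNorm v
      have h6 : ‖(Le.symm : E n →L[ℝ] E n)‖ * ‖v‖ ≤ (‖(Le.symm : E n →L[ℝ] E n)‖ + 1) * ‖v‖ := by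
        gcongr
        linarith
      exact this.trans h6
    rw [hasFDerivWithinAt_iff_isLittleO, Asymptotics.isLittleO_iff]
    intro ε hε
    set ε₁ : ℝ := ε / (2 * Cs * (K * K₀ + 1)) with hε₁
    have hε₁0 : 0 < ε₁ := by positivity
    set ε₂ : ℝ := ε / (2 * Cs) with hε₂
    have hε₂0 : 0 < ε₂ := by positivity
    obtain ⟨δ, hδ, -, hst⟩ := h3 n (φ c₀) (hcc c₀) p₀ hp₀ L hL ε₁ hε₁0
    rw [hasFDerivAt_iff_isLittleO, Asymptotics.isLittleO_iff] at hT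
    have hT' := hT hε₂0
    set ρ : ℝ := min r₀ (min (r / (K₀ + 1)) (min (δ / (K₀ + 1)) (δ / (K * K₀ + 1)))) with hρ
    have hρ0 : 0 < ρ := by
      rw [hρ]
      refine lt_min hr₀ (lt_min ?_ (lt_min ?_ ?_)) <;> positivity
    have hρ1 : ρ ≤ r₀ := min_le_left _ _
    have hρ2 : ρ ≤ r / (K₀ + 1) := (min_le_right _ _).trans (min_le_left _ _)
    have hρ3 : ρ ≤ δ / (K₀ + 1) := (min_le_right _ _).trans ((min_le_right _ _).trans (min_le_left _ _))
    have hρ4 : ρ ≤ δ / (K * K₀ + 1) := (min_le_right _ _).trans ((min_le_right _ _).trans (min_le_right _ _))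
    filter_upwards [self_mem_nhdsWithin, mem_nhdsWithin_of_mem_nhds (ball_mem_nhds c₀ hρ0),
      mem_nhdsWithin_of_mem_nhds hT'] with c hcs hcb hcT
    obtain ⟨hp, hz⟩ := hf c hcs
    set p := f c with hpd
    rw [mem_ball, dist_eq_norm] at hcb
    have hcr : c ∈ ball c₀ r₀ := by
      rw [mem_ball, dist_eq_norm]
      linarith
    have hcl : ∀ y, |φ c y - φ c₀ y| ≤ K₀ * ‖c - c₀‖ * ‖y‖ := fun y => hlip c hcr c₀ (mem_ball_self hr₀) y
    have hKc : K₀ * ‖c - c₀‖ ≤ r := by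
      have h6 : (K₀ + 1) * ‖c - c₀‖ ≤ r := by
        have := hcb.le.trans hρ2
        rw [le_div_iff₀ (by positivity)] at this
        linarith
      nlinarith [norm_nonneg (c - c₀)]
    have hKδ : K₀ * ‖c - c₀‖ ≤ δ := by
      have h6 : (K₀ + 1) * ‖c - c₀‖ ≤ δ := by
        have := hcb.le.trans hρ3
        rw [le_div_iff₀ (by positivity)] at this
        linarith
      nlinarith [norm_nonneg (c - c₀)]
    have hpp : ‖p - p₀‖ ≤ K * (K₀ * ‖c - c₀‖) :=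
      hLZ (φ c) (φ c₀) (hcc c) (hcc c₀) (fun y => (hcl y).trans (by gcongr)) (fun y => by simp; positivity)
        p p₀ hp hp₀ hz hz₀ (K₀ * ‖c - c₀‖) (by positivity) hcl
    have hpδ : ‖p - p₀‖ < δ := by
      have h6 : ‖c - c₀‖ < δ / (K * K₀ + 1) := lt_of_lt_of_le hcb hρ4
      rw [lt_div_iff₀ (by positivity)] at h6
      nlinarith [norm_nonneg (c - c₀)]
    have hst' := hst (φ c) (hcc c) (fun y => (hcl y).trans (by gcongr)) p
      (by rw [mem_ball, dist_eq_norm]; exact hpδ) p₀ (mem_ball_self hδ)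
    rw [hz, zero_sub] at hst'
    -- the identity
    have hid : p - p₀ - (-((Le.symm : E n →L[ℝ] E n).comp T)) (c - c₀) =
        Le.symm ((L (p - p₀) + GG p₀ (φ c)) - (GG p₀ (φ c) - GG p₀ (φ c₀) - T (c - c₀))) := by
      apply Le.injective
      rw [Le.apply_symm_apply, hLe1, map_sub]
      simp only [ContinuousLinearMap.neg_apply, ContinuousLinearMap.comp_apply, map_neg]
      have h7 : L ((Le.symm : E n →L[ℝ] E n) (T (c - c₀))) = T (c - c₀) := hLe2 _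
      rw [h7, hz₀]
      abel
    rw [hid]
    refine (hCs _).trans ?_
    have h8 : ‖(L (p - p₀) + GG p₀ (φ c)) - (GG p₀ (φ c) - GG p₀ (φ c₀) - T (c - c₀))‖ ≤
        ε₁ * ‖p - p₀‖ + ε₂ * ‖c - c₀‖ := by
      refine (norm_sub_le _ _).trans (add_le_add ?_ hcT)
      have h9 : ‖L (p - p₀) + GG p₀ (φ c)‖ = ‖-GG p₀ (φ c) - L (p - p₀)‖ := by
        rw [← norm_neg]
        congr 1
        abel
      rw [h9]
      exact hst'
    calc Cs * ‖(L (p - p₀) + GG p₀ (φ c)) - (GG p₀ (φ c) - GG p₀ (φ c₀) - T (c - c₀))‖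
        ≤ Cs * (ε₁ * (K * (K₀ * ‖c - c₀‖)) + ε₂ * ‖c - c₀‖) := by
          gcongr
          refine h8.trans ?_
          gcongr
      _ = (Cs * ε₁ * (K * K₀) + Cs * ε₂) * ‖c - c₀‖ := by ring
      _ ≤ (Cs * ε₁ * (K * K₀ + 1) + Cs * ε₂) * ‖c - c₀‖ := by
          gcongr
          linarith
      _ = ε * ‖c - c₀‖ := by
          rw [hε₁, hε₂]
          field_simp
          ring
  · have h6 : L.comp (-((Le.symm : E n →L[ℝ] E n).comp T)) = -T := by
      ext v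
      simp only [ContinuousLinearMap.comp_apply, ContinuousLinearMap.neg_apply, map_neg]
      have h7 : L ((Le.symm : E n →L[ℝ] E n) (T v)) = T v := hLe2 _
      rw [h7]
    rw [Pool.Agent.Q188.FC.Bet.CF.det_neg_comp _ T L hL0 h6, div_le_iff₀ (abs_pos.2 hL0)]
    calc |T.det| ≤ κ * (lf p₀)⁻¹ * |L.det| * √G.det := hdet
      _ = _ := by ring

theorem chartAreaK (n : ℕ) (κ : ℝ) (hκ : 0 < κ) (h1 : CenterDiffK n κ) (h2 : CenterLip) (h3 : NullLL) (h4 : MeasS) (h5 : WArea) :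
    ChartAreaK n κ := by
  intro U φ hU hφ G hG hae D hD hDU s f hs hf
  have hsm : MeasurableSet s := by
    rw [hs]
    exact h4 n U φ hU hφ D hD hDU
  have hsD : s ⊆ D := by
    rw [hs]
    exact fun c hc => hc.1
  have hsU : s ⊆ U := hsD.trans hDU
  set N : Set (E n) := toMeasurable volume {c | ¬ (c ∈ U → ∃ D, GoodD φ c (G c) D)} with hN
  have hN0 : volume N = 0 := by
    rw [hN, measure_toMeasurable]
    exact hae
  have hNm : MeasurableSet N := measurableSet_toMeasurable _ _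
  have hgood : ∀ c ∈ s \ N, ∃ D, GoodD φ c (G c) D := by
    intro c hc
    by_contra hcon
    apply hc.2
    apply subset_toMeasurable
    intro hh
    exact hcon (hh (hsU hc.1))
  have hder : ∀ c : E n, ∃ f' : E n →L[ℝ] E n, c ∈ s \ N → HasFDerivWithinAt f f' (s \ N) c ∧
      |f'.det| ≤ κ * (lf (f c))⁻¹ * √(G c).det := by
    intro c
    by_cases hc : c ∈ s \ N
    · obtain ⟨f', h6, h7⟩ := h1 U φ hU hφ s f hsU hf c hc.1 (G c) (hG c (hsU hc.1))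
        (hgood c hc)
      exact ⟨f', fun _ => ⟨h6.mono sdiff_subset, h7⟩⟩
    · exact ⟨0, fun h => absurd h hc⟩
  choose f' hf' using hder
  have hA := h5 n (s \ N) f f' (hsm.diff hNm) (fun x hx => (hf' x hx).1)
    (fun p => ENNReal.ofReal (lf p)) (Pool.Agent.Q188.FC.Bet.CA.lf_measurable n)
  have hnull : volume (f '' (s ∩ N)) = 0 := by
    refine h3 n s f ?_ (s ∩ N) inter_subset_left (measure_mono_null inter_subset_right hN0)
    exact h2 n U φ hU hφ s f hsU hf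
  have hsub : f '' s ⊆ f '' (s \ N) ∪ f '' (s ∩ N) := by
    rintro _ ⟨x, hx, rfl⟩
    by_cases hxN : x ∈ N
    · exact Or.inr ⟨x, ⟨hx, hxN⟩, rfl⟩
    · exact Or.inl ⟨x, ⟨hx, hxN⟩, rfl⟩
  have hpt : ∀ x ∈ s \ N, ENNReal.ofReal |(f' x).det| * ENNReal.ofReal (lf (f x)) ≤
      ENNReal.ofReal (κ) * ENNReal.ofReal √(G x).det := by
    intro x hx
    have hlf : 0 < lf (f x) := by
      unfold lf
      have hx1 := (hf x hx.1).1
      apply inv_pos.2
      apply Real.sqrt_pos.2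
      have := norm_nonneg (f x)
      nlinarith
    rw [← ENNReal.ofReal_mul (abs_nonneg _), ← ENNReal.ofReal_mul hκ.le]
    refine ENNReal.ofReal_le_ofReal ?_
    calc |(f' x).det| * lf (f x) ≤ κ * (lf (f x))⁻¹ * √(G x).det * lf (f x) :=
          mul_le_mul_of_nonneg_right (hf' x hx).2 hlf.le
      _ = κ * √(G x).det := by
          field_simp
  calc ∫⁻ p in f '' s, ENNReal.ofReal (lf p)
      ≤ ∫⁻ p in f '' (s \ N) ∪ f '' (s ∩ N), ENNReal.ofReal (lf p) := lintegral_mono_set hsub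
    _ ≤ (∫⁻ p in f '' (s \ N), ENNReal.ofReal (lf p)) +
        ∫⁻ p in f '' (s ∩ N), ENNReal.ofReal (lf p) := lintegral_union_le _ _ _
    _ = ∫⁻ p in f '' (s \ N), ENNReal.ofReal (lf p) := by
        rw [setLIntegral_measure_zero _ _ hnull, add_zero]
    _ ≤ ∫⁻ x in s \ N, ENNReal.ofReal |(f' x).det| * ENNReal.ofReal (lf (f x)) := hA
    _ ≤ ∫⁻ x in s \ N, ENNReal.ofReal (κ) * ENNReal.ofReal √(G x).det :=
        setLIntegral_mono' (hsm.diff hNm) hpt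
    _ ≤ ∫⁻ x in D, ENNReal.ofReal (κ) * ENNReal.ofReal √(G x).det :=
        lintegral_mono_set (sdiff_subset.trans hsD)
    _ = ENNReal.ofReal (κ) * ∫⁻ c in D, ENNReal.ofReal √(G c).det :=
        lintegral_const_mul' _ _ ENNReal.ofReal_ne_top

end Pool.Agent.Q183.CF
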