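import Pool.Agent.Q183.CF.GB
import Pool.Agent.Q183.CF.GV
import Pool.Agent.Q183.CF.JX

/-!
# The Gaussian inequality with the constant `500/443` in dimension two
-/

set_option autoImplicit false

open MeasureTheory

namespace Pool.Agent.Q183.CF

open Pool.Agent.Q188.FC
open Pool.Agent.W716.FV (E gam gd UU)
open Pool.Agent.H241R3.FV (Sph act)

/-- the bound for `v` -/
theorem scal_v {s v : ℝ} (hs0 : 0 ≤ s) (hs : s ≤ 1 / 5) (hv0 : 0 ≤ v)
    (h : ∀ l b : ℝ, 5 * s + 8 * (l * (2 * v)) + 12 * b * (l * (2 * v)) - 12 * b ^ 2 * s ≤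
      1 + l ^ 2 * (2 * v) * (1 + s / 2)) :
    4 * (3 + s) * v ≤ s * (2 + s) * (1 - 5 * s) := by
  rcases eq_or_lt_of_le hs0 with h0 | h0
  · subst h0
    have hv : v ≤ 0 := by
      by_contra hv
      push Not at hv
      have h1 := h 1 (1 / (24 * v))
      have h2 : 12 * (1 / (24 * v)) * (1 * (2 * v)) = 1 := by field_simp; norm_num
      rw [h2] at h1
      nlinarith
    have : v = 0 := le_antisymm hv hv0
    rw [this]
    norm_num
  · have hl0 : 0 < 2 * s * (2 + s) := by positivity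
    obtain ⟨l, hl⟩ : ∃ l : ℝ, l = (3 + s) / (2 * s * (2 + s)) := ⟨_, rfl⟩
    have hl' : l * (2 * s * (2 + s)) = 3 + s := by rw [hl]; field_simp
    have hlp : 0 < l := by rw [hl]; positivity
    obtain ⟨w, hw⟩ : ∃ w : ℝ, w = 2 * l * v := ⟨_, rfl⟩
    obtain ⟨b, hb⟩ : ∃ b : ℝ, b = w / (2 * s) := ⟨_, rfl⟩
    have hb' : b * (2 * s) = w := by rw [hb]; field_simp
    have hw0 : 0 ≤ w := by rw [hw]; positivity
    have h1 := h l b
    have h2 : 12 * b * (l * (2 * v)) - 12 * b ^ 2 * s = 12 * b * w - 6 * b * (b * (2 * s)) := by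
      rw [hw]; ring
    rw [hb'] at h2
    have h3 : 4 * s * (l ^ 2 * (2 * v) * (1 + s / 2)) = w * (3 + s) := by
      rw [← hl', hw]; ring
    have h4 : 4 * s * (12 * b * w - 6 * b * w) = 12 * w ^ 2 := by
      have : 4 * s * (12 * b * w - 6 * b * w) = 12 * (b * (2 * s)) * w := by ring
      rw [this, hb']; ring
    have h5 : 4 * s * (5 * s) + 32 * s * w + 12 * w ^ 2 ≤ 4 * s + w * (3 + s) := by
      have h6 := mul_le_mul_of_nonneg_left h1 (show 0 ≤ 4 * s by positivity)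
      have h7 : 4 * s * (8 * (l * (2 * v))) = 32 * s * w := by rw [hw]; ring
      nlinarith
    have h6 : (4 * w - (1 - 5 * s)) * (3 * w + 4 * s) ≤ 0 := by nlinarith
    have h7 : 4 * w ≤ 1 - 5 * s := by
      by_contra hc
      push Not at hc
      have : 0 < (4 * w - (1 - 5 * s)) * (3 * w + 4 * s) := by
        apply mul_pos <;> nlinarith
      linarith
    have h8 : 4 * (3 + s) * v = s * (2 + s) * (4 * w) := by
      rw [← hl', hw]; ring
    rw [h8]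
    exact mul_le_mul_of_nonneg_left h7 (by positivity)

/-- the polynomial inequality -/
theorem scal_p {s v : ℝ} (hs0 : 0 ≤ s) (hs : s ≤ 1 / 5) (hv0 : 0 ≤ v)
    (hv : v ≤ 11 / 64 * (s * (1 - 5 * s))) {t : ℝ}
    (ht : t ≤ -s / 2 + (25 / 288 * (1 - 5 * s) + 9 / 800 * (4 * s - 2 * s ^ 2 +
      2 * (v * (50 / 3) + 3 / 50) * (1 - s) - 2 * v))) :
    33 / 40 ≤ ((1 - s / 2) ^ 2 - v) * (1 - 357 / 5000 - t) := by
  obtain ⟨V, hV⟩ : ∃ V : ℝ, V = 11 / 64 * (s * (1 - 5 * s)) := ⟨_, rfl⟩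
  rw [← hV] at hv
  have hV1 : V ≤ 11 / 64 * (1 / 20) := by rw [hV]; nlinarith [sq_nonneg (s - 1 / 10)]
  have h1 : 1 - 357 / 5000 - (-s / 2 + (25 / 288 * (1 - 5 * s) + 9 / 800 * (4 * s - 2 * s ^ 2 +
      2 * (V * (50 / 3) + 3 / 50) * (1 - s) - 2 * V))) ≤ 1 - 357 / 5000 - t := by
    nlinarith
  have h2 : 0 ≤ 1 - 357 / 5000 - (-s / 2 + (25 / 288 * (1 - 5 * s) + 9 / 800 * (4 * s - 2 * s ^ 2 +
      2 * (V * (50 / 3) + 3 / 50) * (1 - s) - 2 * V))) := by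
    nlinarith
  have h3 : 0 ≤ (1 - s / 2) ^ 2 - V := by nlinarith
  have h4 : (1 - s / 2) ^ 2 - V ≤ (1 - s / 2) ^ 2 - v := by linarith
  refine le_trans ?_ (mul_le_mul h4 h1 h2 (h3.trans h4))
  rw [hV]
  nlinarith [mul_nonneg hs0 (sq_nonneg (s - 9 / 50)), sq_nonneg (s - 9 / 50),
    sq_nonneg (s ^ 2 - (9 / 50) ^ 2), mul_nonneg (sub_nonneg.2 hs) (sq_nonneg (s ^ 2)),
    mul_nonneg hs0 (sq_nonneg (s ^ 2 - (9 / 50) ^ 2))]

/-- the scalar inequality -/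
theorem scal {s v b : ℝ} (hs0 : 0 ≤ s) (hs : s ≤ 1 / 5) (hv0 : 0 ≤ v)
    (hv : 4 * (3 + s) * v ≤ s * (2 + s) * (1 - 5 * s)) {y : ℝ} (hy : y ^ 2 ≤ v)
    (hb : ∀ ε : ℝ, 5 * s + 16 * ε * b ≤
      1 + ε ^ 2 * (4 * (s + y) + 4 * (v - y ^ 2) - 2 * (s + y) ^ 2)) {b' : ℝ}
    (hb' : |b'| ≤ |b|) :
    Real.exp (-(s + b') / 2) ≤ 500 / 443 * ((1 - s / 2) ^ 2 - v) := by
  have hV : v ≤ 11 / 64 * (s * (1 - 5 * s)) := by
    have h1 : s * (2 + s) * (1 - 5 * s) ≤ 11 / 16 * (3 + s) * (s * (1 - 5 * s)) := by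
      have : 0 ≤ s * (1 - 5 * s) * (1 - 5 * s) := by
        apply mul_nonneg (mul_nonneg hs0 _) <;> linarith
      nlinarith
    have h2 : 4 * (3 + s) * v ≤ 4 * (3 + s) * (11 / 64 * (s * (1 - 5 * s))) := by linarith
    exact le_of_mul_le_mul_left h2 (by linarith)
  obtain ⟨C, hC⟩ : ∃ C : ℝ, C = 4 * (s + y) + 4 * (v - y ^ 2) - 2 * (s + y) ^ 2 := ⟨_, rfl⟩
  have hC' : C ≤ 4 * s - 2 * s ^ 2 + 2 * (v * (50 / 3) + 3 / 50) * (1 - s) - 2 * v := by
    have h1 : 0 ≤ (1 - s) * (y - 3 / 50) ^ 2 := mul_nonneg (by linarith) (sq_nonneg _)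
    have h2 : 0 ≤ (v - y ^ 2) * (4 / 5 - s + 1 / 5) := mul_nonneg (by linarith) (by linarith)
    have h3 : 0 ≤ (v - y ^ 2) * (1 / 5 - s) := mul_nonneg (by linarith) (by linarith)
    have h4 : 0 ≤ v - y ^ 2 := by linarith
    rw [hC]
    nlinarith
  have hbb : |b| ≤ 25 / 144 * (1 - 5 * s) + 9 / 400 * C := by
    rw [abs_le]
    have h1 := hb (9 / 25)
    have h2 := hb (-(9 / 25))
    rw [← hC] at h1 h2
    constructor <;> linarith
  obtain ⟨t, ht⟩ : ∃ t : ℝ, t = -(s + b') / 2 := ⟨_, rfl⟩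
  have hbn := neg_abs_le b'
  have ht1 : t ≤ -s / 2 + (25 / 288 * (1 - 5 * s) + 9 / 800 * (4 * s - 2 * s ^ 2 +
      2 * (v * (50 / 3) + 3 / 50) * (1 - s) - 2 * v)) := by
    rw [ht]
    linarith
  have hP := scal_p hs0 hs hv0 hV ht1
  obtain ⟨D, hD⟩ : ∃ D : ℝ, D = (1 - s / 2) ^ 2 - v := ⟨_, rfl⟩
  rw [← hD] at hP ⊢
  rw [← ht]
  have hDp : 0 < D := by
    have : v ≤ 11 / 64 * (1 / 20) := by nlinarith [sq_nonneg (s - 1 / 10)]
    rw [hD]
    nlinarith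
  have h1 : 33 / 40 / D ≤ 1 - 357 / 5000 - t := by
    rw [div_le_iff₀ hDp]
    linarith
  have h2 : Real.exp t ≤ Real.exp (-(357 / 5000) + (1 - 33 / 40 / D)) :=
    Real.exp_le_exp.2 (by linarith)
  rw [Real.exp_add] at h2
  have h3 : Real.exp (1 - 33 / 40 / D) ≤ 40 / 33 * D := by
    have h4 := Real.add_one_le_exp (33 / 40 / D - 1)
    have h5 : Real.exp (1 - 33 / 40 / D) = (Real.exp (33 / 40 / D - 1))⁻¹ := by
      rw [← Real.exp_neg]
      congr 1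
      ring
    rw [h5]
    have h6 : 0 < 33 / 40 / D := by positivity
    rw [show (33 / 40 / D - 1 + 1 : ℝ) = 33 / 40 / D by ring] at h4
    calc (Real.exp (33 / 40 / D - 1))⁻¹ ≤ (33 / 40 / D)⁻¹ := by gcongr
      _ = 40 / 33 * D := by field_simp
  have h4 : Real.exp (-(357 / 5000)) ≤ 16500 / 17720 := by
    have h5 := Real.quadratic_le_exp_of_nonneg (show (0 : ℝ) ≤ 357 / 5000 by norm_num)
    rw [Real.exp_neg]
    have h6 : (17720 / 16500 : ℝ) ≤ Real.exp (357 / 5000) := le_trans (by norm_num) h5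
    calc (Real.exp (357 / 5000))⁻¹ ≤ (17720 / 16500 : ℝ)⁻¹ := by gcongr
      _ = 16500 / 17720 := by norm_num
  calc Real.exp t ≤ Real.exp (-(357 / 5000)) * Real.exp (1 - 33 / 40 / D) := h2
    _ ≤ 16500 / 17720 * (40 / 33 * D) := by
        apply mul_le_mul h4 h3 (Real.exp_pos _).le (by norm_num)
    _ ≤ 500 / 443 * D := by nlinarith

/-- **The Gaussian inequality in dimension two.** -/
theorem gaussK2 (h1 : PLBasic) (h2 : CcBasic) (hCM : CcMom) (hGM : GMom) (hSA : SXa)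
    (h4 : SPOdd) : GaussK 2 (500 / 443) := by
  intro φ hφ hm p hp
  have hs0 : 0 ≤ sv φ := (h2 2 φ hφ).2.2.2.2.2.2.2.2
  obtain ⟨htr, hsym, -, -⟩ := hCM 2 φ hφ
  obtain ⟨X, hX⟩ : ∃ X, X = Xm φ := ⟨_, rfl⟩
  rw [← hX] at htr hsym
  obtain ⟨s, hsv⟩ : ∃ s, s = sv φ := ⟨_, rfl⟩
  rw [← hsv] at htr hs0
  have hX10 : X 1 0 = X 0 1 := by
    have := congrFun (congrFun hsym 0) 1
    simpa [Matrix.transpose_apply] using this
  have htr' : X 0 0 + X 1 1 = s := by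
    rw [← htr, Matrix.trace_fin_two]
  obtain ⟨δ, hδ⟩ : ∃ δ, δ = (X 0 0 - X 1 1) / 2 := ⟨_, rfl⟩
  obtain ⟨q, hq⟩ : ∃ q, q = X 0 1 := ⟨_, rfl⟩
  have e00 : X 0 0 = s / 2 + δ := by rw [hδ]; linarith
  have e11 : X 1 1 = s / 2 - δ := by rw [hδ]; linarith
  rw [← hq] at hX10
  obtain ⟨v, hv⟩ : ∃ v, v = δ ^ 2 + q ^ 2 := ⟨_, rfl⟩
  have hv0 : 0 ≤ v := by rw [hv]; positivity
  -- the inequality for `v`
  have hV : ∀ l b : ℝ, 5 * s + 8 * (l * (2 * v)) + 12 * b * (l * (2 * v)) - 12 * b ^ 2 * s ≤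
      1 + l ^ 2 * (2 * v) * (1 + s / 2) := by
    intro l b
    have h := vIneqR h1 h2 hCM hGM hSA 2 (by norm_num) φ hφ hm !![l * δ, l * q; l * q, -(l * δ)]
      (by
        ext i j
        fin_cases i <;> fin_cases j <;> simp [Matrix.transpose_apply])
      (by rw [Matrix.trace_fin_two]; simp) (l ^ 2 * v) (fun w => by
        have e1 : ‖act !![l * δ, l * q; l * q, -(l * δ)] w‖ ^ 2 =
            (l * δ * w 0 + l * q * w 1) ^ 2 + (l * q * w 0 + -(l * δ) * w 1) ^ 2 := by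
          rw [EuclideanSpace.real_norm_sq_eq]
          simp [act, Fin.sum_univ_two]
        have e2 : ‖w‖ ^ 2 = w 0 ^ 2 + w 1 ^ 2 := by
          rw [EuclideanSpace.real_norm_sq_eq, Fin.sum_univ_two]
        rw [e1, e2, hv]
        nlinarith) (l * (2 * v)) (by
        simp only [Fin.sum_univ_two]
        rw [← hX, e00, e11, hX10, ← hq, hv]
        simp
        ring) b
    have e3 : hs !![l * δ, l * q; l * q, -(l * δ)] = l ^ 2 * (2 * v) := by
      unfold hs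
      simp only [Fin.sum_univ_two]
      rw [hv]
      simp
      ring
    rw [e3, ← hsv] at h
    push_cast at h
    have e4 : (3 * 2 + 4) / 2 * s + 8 * (l * (2 * v)) + 2 / (2 + 2) *
        (4 * (2 + 4) * b * (l * (2 * v)) - (2 + 4) * (2 + 2) * b ^ 2 * s) =
        5 * s + 8 * (l * (2 * v)) + 12 * b * (l * (2 * v)) - 12 * b ^ 2 * s := by ring
    have e5 : 1 + 2 * 2 / (2 + 2) * (l ^ 2 * (2 * v)) + (2 / (2 + 2)) ^ 2 *
        ((2 + 2) / (2 + 4) * (s * (2 * (l ^ 2 * (2 * v)) + 4 * 2 / (2 + 2) * (l ^ 2 * v)))) =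
        1 + l ^ 2 * (2 * v) * (1 + s / 2) := by ring
    rw [e4, e5] at h
    exact h
  have hs5 : s ≤ 1 / 5 := by
    have := hV 0 0
    linarith
  have hvv := scal_v hs0 hs5 hv0 hV
  have hdet : (1 - X).det = (1 - s / 2) ^ 2 - v := by
    rw [Matrix.det_fin_two]
    simp only [Matrix.sub_apply, Matrix.one_apply_eq, ne_eq, zero_ne_one, not_false_eq_true,
      Matrix.one_apply_ne, one_ne_zero]
    rw [e00, e11, hX10, ← hq, hv]
    ring
  rw [← hX, hdet, ← hsv]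
  obtain ⟨b, y, hy, hb, hbp⟩ : ∃ b y : ℝ, y ^ 2 ≤ v ∧ (∀ ε : ℝ, 5 * s + 16 * ε * b ≤
      1 + ε ^ 2 * (4 * (s + y) + 4 * (v - y ^ 2) - 2 * (s + y) ^ 2)) ∧ |bv φ p| ≤ |b| := by
    rcases eq_or_ne p 0 with h | h
    · refine ⟨0, 0, by simpa using hv0, fun ε => ?_, ?_⟩
      · have h5 : 0 ≤ 4 * (s + 0) + 4 * (v - 0 ^ 2) - 2 * (s + 0) ^ 2 := by nlinarith
        have h6 := mul_nonneg (sq_nonneg ε) h5
        linarith
      · rw [h]
        simp [bv]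
    · have hp0 : 0 < ‖p‖ := norm_pos_iff.2 h
      obtain ⟨u, hu⟩ : ∃ u : E 2, u = ‖p‖⁻¹ • p := ⟨_, rfl⟩
      have hu1 : ‖u‖ = 1 := by
        rw [hu, norm_smul, norm_inv, norm_norm, inv_mul_cancel₀ hp0.ne']
      have hu2 : u 0 ^ 2 + u 1 ^ 2 = 1 := by
        have := EuclideanSpace.real_norm_sq_eq u
        rw [hu1, Fin.sum_univ_two] at this
        linarith
      refine ⟨bv φ u, δ * (u 0 ^ 2 - u 1 ^ 2) + 2 * q * u 0 * u 1, ?_, fun ε => ?_, ?_⟩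
      · have e6 : v = (δ * (u 0 ^ 2 - u 1 ^ 2) + 2 * q * u 0 * u 1) ^ 2 +
            (q * (u 0 ^ 2 - u 1 ^ 2) - 2 * δ * u 0 * u 1) ^ 2 := by
          have : v = v * (u 0 ^ 2 + u 1 ^ 2) ^ 2 := by rw [hu2]; ring
          rw [this, hv]
          ring
        rw [e6]
        have := sq_nonneg (q * (u 0 ^ 2 - u 1 ^ 2) - 2 * δ * u 0 * u 1)
        linarith
      · have h := bIneqR h1 h2 h4 2 (by norm_num) φ hφ hm u hu1 ε
          (s / 2 + (δ * (u 0 ^ 2 - u 1 ^ 2) + 2 * q * u 0 * u 1))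
          (s ^ 2 / 4 + s * (δ * (u 0 ^ 2 - u 1 ^ 2) + 2 * q * u 0 * u 1) + v) (by
            simp only [Fin.sum_univ_two]
            rw [← hX, e00, e11, hX10, ← hq]
            linear_combination (-(s / 2)) * hu2) (by
            simp only [Fin.sum_univ_two]
            rw [← hX, e00, e11, hX10, ← hq]
            linear_combination (-(s ^ 2 / 4 + δ ^ 2 + q ^ 2)) * hu2 + hv)
        rw [← hsv] at h
        push_cast at h
        have e9 : ∀ y : ℝ, 1 + 2 / (2 + 2) * (ε ^ 2 * (4 * (s + 2 * (s / 2 + y)) +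
            8 * (s ^ 2 / 4 + s * y + v - (s / 2 + y) ^ 2) -
            4 * (s + 2 * (s / 2 + y)) ^ 2 / (2 + 2))) =
            1 + ε ^ 2 * (4 * (s + y) + 4 * (v - y ^ 2) - 2 * (s + y) ^ 2) := by
          intro y
          ring
        rw [e9] at h
        linarith
      · have e : bv φ p = ‖p‖ * bv φ u := by
          have e2 : ∫ z, (inner ℝ p z : ℝ) * φ z ^ 3 ∂(gam 2) =
              ∫ z, ‖p‖ * ((inner ℝ u z : ℝ) * φ z ^ 3) ∂(gam 2) := by
            congr 1; ext z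
            rw [hu, real_inner_smul_left]
            field_simp
          unfold bv
          rw [e2, integral_const_mul]
          ring
        rw [e, abs_mul, abs_of_nonneg hp0.le]
        exact mul_le_of_le_one_left (abs_nonneg _) hp
  exact scal hs0 hs5 hv0 hvv hy hb hbp

end Pool.Agent.Q183.CF
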