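import Pool.Agent.Q183.CF.GB
import Pool.Agent.Q183.CF.GV
import Pool.Agent.Q183.CF.JX
import Pool.Agent.Q149.FC.B
import Pool.Agent.Q280.FC.SC

/-!
# The Gaussian inequality in dimension `n`, from a numerical inequality
-/

set_option autoImplicit false

open MeasureTheory

namespace Pool.Agent.Q183.CF

open Pool.Agent.Q188.FC
open Pool.Agent.W716.FV (E gam gd UU)
open Pool.Agent.H241R3.FV (Sph act)

/-- The numerical inequality for `s`, the square `v` of the norm of the traceless part, and `b`. -/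
def NumK (n : ℝ) (L : ℝ) : Prop :=
  ∀ s v b y : ℝ, 0 ≤ s → 0 ≤ v → y ^ 2 ≤ (1 - 1 / n) * v →
    (∀ l β : ℝ, (3 * n + 4) / n * s + 8 * (l * v) + n / (n + 2) * (4 * (n + 4) * β * (l * v) -
      (n + 4) * (n + 2) * β ^ 2 * s) ≤ 1 + 2 * n / (n + 2) * (l ^ 2 * v) + (n / (n + 2)) ^ 2 *
        ((n + 2) / (n + 4) * (s * (2 * (l ^ 2 * v) + 4 * n / (n + 2) * (l ^ 2 * v))))) →
    (∀ ε : ℝ, (3 * n + 4) / n * s + 16 * ε * b ≤ 1 + n / (n + 2) * (ε ^ 2 *
      (4 * (s + 2 * (s / n + y)) + 4 * (v - y ^ 2) - 4 * (s + 2 * (s / n + y)) ^ 2 / (n + 2)))) →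
    s ^ 2 / n + v ≤ 36 / 625 ∧ s / 2 + |b| / 2 + 3 / 5 * (s ^ 2 / n + v) ≤ L

section
variable {n : ℕ}

/-- the traceless part -/
noncomputable def tl (X : Matrix (Fin n) (Fin n) ℝ) (t : ℝ) : Matrix (Fin n) (Fin n) ℝ :=
  X - t • 1

theorem tl_apply (X : Matrix (Fin n) (Fin n) ℝ) (t : ℝ) (i j : Fin n) :
    tl X t i j = X i j - t * (if i = j then 1 else 0) := by
  unfold tl
  rw [Matrix.sub_apply, Matrix.smul_apply, Matrix.one_apply, smul_eq_mul]

theorem tl_symm {X : Matrix (Fin n) (Fin n) ℝ} (hX : X.IsSymm) (t : ℝ) : (tl X t).IsSymm := by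
  unfold tl
  exact hX.sub (Matrix.isSymm_one.smul t)

theorem tl_trace {X : Matrix (Fin n) (Fin n) ℝ} {s t : ℝ} (hX : X.trace = s)
    (ht : n * t = s) : (tl X t).trace = 0 := by
  unfold tl
  rw [Matrix.trace_sub, Matrix.trace_smul, Matrix.trace_one, Fintype.card_fin, hX, smul_eq_mul,
    ← ht]
  ring

theorem sum_diag (t : ℝ) (f : Fin n → Fin n → ℝ) :
    ∑ i, ∑ j, f i j * (t * (if i = j then 1 else 0)) = t * ∑ i, f i i := by
  rw [Finset.mul_sum]
  refine Finset.sum_congr rfl fun i _ => ?_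
  rw [Finset.sum_eq_single i]
  · simp; ring
  · intro j _ hj
    rw [if_neg (Ne.symm hj)]
    ring
  · simp

theorem hs_tl {X : Matrix (Fin n) (Fin n) ℝ} {s t : ℝ} (hX : X.trace = s) (ht : n * t = s) :
    hs X = hs (tl X t) + t * s := by
  have h1 : hs X = hs (tl X t) + 2 * ∑ i, ∑ j, X i j * (t * (if i = j then 1 else 0)) -
      ∑ i, ∑ j : Fin n, (t * (if i = j then 1 else 0)) * (t * (if i = j then 1 else 0)) := by
    unfold hs
    rw [Finset.mul_sum, ← Finset.sum_add_distrib, ← Finset.sum_sub_distrib]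
    refine Finset.sum_congr rfl fun i _ => ?_
    rw [Finset.mul_sum, ← Finset.sum_add_distrib, ← Finset.sum_sub_distrib]
    refine Finset.sum_congr rfl fun j _ => ?_
    rw [tl_apply]
    ring
  have h2 : ∑ i, ∑ j : Fin n, (t * (if i = j then 1 else 0)) * (t * (if i = j then 1 else 0)) =
      t * s := by
    rw [sum_diag t (fun i j : Fin n => t * (if i = j then 1 else 0))]
    simp only [if_true, mul_one, Finset.sum_const, Finset.card_univ, Fintype.card_fin,
      nsmul_eq_mul]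
    rw [ht]
  have h3 : ∑ i, X i i = s := hX
  have h4 : ∑ i, ∑ j, X i j * (t * (if i = j then 1 else 0)) = t * s := by
    rw [← h3]
    exact sum_diag t (fun i j => X i j)
  rw [h1, h2, h4]
  ring

theorem pair_tl {X : Matrix (Fin n) (Fin n) ℝ} {s t : ℝ} (hX : X.trace = s) (ht : n * t = s) :
    ∑ i, ∑ j, tl X t i j * X i j = hs (tl X t) := by
  have h1 : ∑ i, ∑ j, tl X t i j * X i j = hs (tl X t) +
      ∑ i, ∑ j, tl X t i j * (t * (if i = j then 1 else 0)) := by
    unfold hs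
    rw [← Finset.sum_add_distrib]
    refine Finset.sum_congr rfl fun i _ => ?_
    rw [← Finset.sum_add_distrib]
    refine Finset.sum_congr rfl fun j _ => ?_
    rw [tl_apply]
    ring
  have h2 : ∑ i, tl X t i i = 0 := tl_trace hX ht
  have h3 : ∑ i, ∑ j, tl X t i j * (t * (if i = j then 1 else 0)) = t * 0 := by
    exact (sum_diag t (fun i j => tl X t i j)).trans (congrArg (fun x => t * x) h2)
  rw [h1, h3]
  ring

/-- the form of the traceless part -/
theorem form_tl (X : Matrix (Fin n) (Fin n) ℝ) (t : ℝ) (u : Fin n → ℝ)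
    (hu : ∑ i, u i ^ 2 = 1) :
    ∑ i, u i * ∑ j, X i j * u j = t + ∑ i, u i * ∑ j, tl X t i j * u j := by
  have h1 : ∀ i, ∑ j, tl X t i j * u j = ∑ j, X i j * u j - t * u i := by
    intro i
    have : ∀ j, tl X t i j * u j = X i j * u j - t * (if i = j then u j else 0) := by
      intro j
      rw [tl_apply]
      split_ifs <;> ring
    simp only [this]
    rw [Finset.sum_sub_distrib, ← Finset.mul_sum, Finset.sum_ite_eq]
    simp
  simp only [h1]
  have h2 : ∑ i, u i * (∑ j, X i j * u j - t * u i) = ∑ i, u i * ∑ j, X i j * u j -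
      t * ∑ i, u i ^ 2 := by
    rw [Finset.mul_sum, ← Finset.sum_sub_distrib]
    refine Finset.sum_congr rfl fun i _ => ?_
    ring
  rw [h2, hu]
  ring

theorem sq_tl (X : Matrix (Fin n) (Fin n) ℝ) (t : ℝ) (u : Fin n → ℝ)
    (hu : ∑ i, u i ^ 2 = 1) :
    ∑ i, (∑ j, X i j * u j) ^ 2 = t ^ 2 + 2 * t * ∑ i, u i * ∑ j, tl X t i j * u j +
      ∑ i, (∑ j, tl X t i j * u j) ^ 2 := by
  have h1 : ∀ i, ∑ j, X i j * u j = ∑ j, tl X t i j * u j + t * u i := by
    intro i
    have : ∀ j, tl X t i j * u j = X i j * u j - t * (if i = j then u j else 0) := by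
      intro j
      rw [tl_apply]
      split_ifs <;> ring
    simp only [this]
    rw [Finset.sum_sub_distrib, ← Finset.mul_sum, Finset.sum_ite_eq]
    simp
  simp only [h1]
  have h2 : ∑ i, (∑ j, tl X t i j * u j + t * u i) ^ 2 = t ^ 2 * ∑ i, u i ^ 2 +
      2 * t * ∑ i, u i * ∑ j, tl X t i j * u j + ∑ i, (∑ j, tl X t i j * u j) ^ 2 := by
    rw [Finset.mul_sum, Finset.mul_sum, ← Finset.sum_add_distrib, ← Finset.sum_add_distrib]
    refine Finset.sum_congr rfl fun i _ => ?_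
    ring
  rw [h2, hu]
  ring

/-- `y² ≤ (1 - 1/n) v` -/
theorem form_le {Y : Matrix (Fin n) (Fin n) ℝ} (hn : 0 < n) (hY : Y.trace = 0) (u : Fin n → ℝ)
    (hu : ∑ i, u i ^ 2 = 1) :
    (∑ i, u i * ∑ j, Y i j * u j) ^ 2 ≤ (1 - 1 / (n : ℝ)) * hs Y := by
  have hn0 : (0 : ℝ) < n := by exact_mod_cast hn
  obtain ⟨t, ht⟩ : ∃ t : ℝ, t = 1 / (n : ℝ) := ⟨_, rfl⟩
  have htn : t * n = 1 := by rw [ht]; field_simp
  have h1 : ∑ i, u i * ∑ j, Y i j * u j =
      ∑ i, ∑ j, Y i j * (u i * u j - t * (if i = j then 1 else 0)) := by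
    have e1 : ∑ i, ∑ j, Y i j * (u i * u j - t * (if i = j then 1 else 0)) =
        ∑ i, ∑ j, Y i j * (u i * u j) - ∑ i, ∑ j, Y i j * (t * (if i = j then 1 else 0)) := by
      rw [← Finset.sum_sub_distrib]
      refine Finset.sum_congr rfl fun i _ => ?_
      rw [← Finset.sum_sub_distrib]
      refine Finset.sum_congr rfl fun j _ => ?_
      ring
    have e2 : ∑ i, Y i i = 0 := hY
    have e3 : ∑ i, ∑ j, Y i j * (t * (if i = j then 1 else 0)) = t * 0 := by
      exact (sum_diag t (fun i j => Y i j)).trans (congrArg (fun x => t * x) e2)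
    rw [e1, e3, mul_zero, sub_zero]
    refine Finset.sum_congr rfl fun i _ => ?_
    rw [Finset.mul_sum]
    refine Finset.sum_congr rfl fun j _ => ?_
    ring
  have h2 : ∑ i, ∑ j, (u i * u j - t * (if i = j then 1 else 0)) ^ 2 = 1 - t := by
    have e1 : ∑ i, ∑ j, (u i * u j - t * (if i = j then 1 else 0)) ^ 2 =
        ∑ i, ∑ j, (u i ^ 2 * u j ^ 2) - 2 * ∑ i, ∑ j, u i * u j * (t * (if i = j then 1 else 0)) +
        ∑ i, ∑ j : Fin n, (t * (if i = j then 1 else 0)) * (t * (if i = j then 1 else 0)) := by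
      rw [Finset.mul_sum, ← Finset.sum_sub_distrib, ← Finset.sum_add_distrib]
      refine Finset.sum_congr rfl fun i _ => ?_
      rw [Finset.mul_sum, ← Finset.sum_sub_distrib, ← Finset.sum_add_distrib]
      refine Finset.sum_congr rfl fun j _ => ?_
      ring
    have e2 : ∑ i, ∑ j, (u i ^ 2 * u j ^ 2) = 1 := by
      simp only [← Finset.mul_sum]
      rw [← Finset.sum_mul, hu]
      ring
    have e3 : ∑ i, u i * u i = 1 := by
      rw [← hu]
      refine Finset.sum_congr rfl fun i _ => ?_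
      ring
    rw [e1, e2, sum_diag t (fun i j => u i * u j), e3,
      sum_diag t (fun i j : Fin n => t * (if i = j then 1 else 0))]
    simp only [if_true, mul_one, Finset.sum_const, Finset.card_univ, Fintype.card_fin,
      nsmul_eq_mul]
    have : t * (n * t) = t := by
      rw [show t * (n * t) = t * n * t by ring, htn, one_mul]
    linarith
  rw [h1, ← ht, ← h2]
  unfold hs
  have h3 : ∀ f g : Fin n → Fin n → ℝ, (∑ i, ∑ j, f i j * g i j) ^ 2 ≤
      (∑ i, ∑ j, g i j ^ 2) * ∑ i, ∑ j, f i j ^ 2 := by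
    intro f g
    have := Finset.sum_mul_sq_le_sq_mul_sq (Finset.univ : Finset (Fin n × Fin n))
      (fun p => f p.1 p.2) (fun p => g p.1 p.2)
    simp only [Fintype.sum_prod_type] at this
    linarith
  exact h3 _ _

end

/-- **The Gaussian inequality from the numerical inequality.** -/
theorem gaussKn (h1 : PLBasic) (h2 : CcBasic) (hCM : CcMom) (hGM : GMom) (hSA : SXa)
    (h4 : SPOdd) (hDL : DetLog) (n : ℕ) (hn : 0 < n) (κ : ℝ) (hκ : 0 < κ)
    (hnum : NumK n (Real.log κ)) : GaussK n κ := by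
  intro φ hφ hm p hp
  have hn0 : (0 : ℝ) < n := by exact_mod_cast hn
  have hs0 : 0 ≤ sv φ := (h2 n φ hφ).2.2.2.2.2.2.2.2
  obtain ⟨htr, hsym, -, -⟩ := hCM n φ hφ
  obtain ⟨X, hX⟩ : ∃ X, X = Xm φ := ⟨_, rfl⟩
  rw [← hX] at htr hsym
  obtain ⟨s, hsv⟩ : ∃ s, s = sv φ := ⟨_, rfl⟩
  rw [← hsv] at htr hs0
  obtain ⟨t, ht⟩ : ∃ t : ℝ, t = s / n := ⟨_, rfl⟩
  have htn : n * t = s := by rw [ht]; field_simp
  obtain ⟨v, hv⟩ : ∃ v, v = hs (tl X t) := ⟨_, rfl⟩
  have hv0 : 0 ≤ v := by rw [hv]; exact Pool.Agent.Q280.FC.hs_nonneg _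
  have hhs : hs X = s ^ 2 / n + v := by
    rw [hs_tl htr htn, ← hv, ht]
    ring
  -- the inequality for `v`
  have hV : ∀ l β : ℝ, (3 * (n : ℝ) + 4) / n * s + 8 * (l * v) + n / (n + 2) *
      (4 * (n + 4) * β * (l * v) -
      (n + 4) * (n + 2) * β ^ 2 * s) ≤ 1 + 2 * n / (n + 2) * (l ^ 2 * v) + (n / (n + 2)) ^ 2 *
        ((n + 2) / (n + 4) * (s * (2 * (l ^ 2 * v) + 4 * n / (n + 2) * (l ^ 2 * v)))) := by
    intro l β
    have h := vIneqR h1 h2 hCM hGM hSA n hn φ hφ hm (l • tl X t) ((tl_symm hsym t).smul l)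
      (by rw [Matrix.trace_smul, tl_trace htr htn, smul_zero]) (l ^ 2 * v) (fun w => by
        have := Pool.Agent.Q280.FC.act_le (l • tl X t) w
        rwa [Pool.Agent.Q280.FC.hs_smul, ← hv] at this) (l * v) (by
        have h5 : ∑ i, ∑ j, (l • tl X t) i j * X i j = l * ∑ i, ∑ j, tl X t i j * X i j := by
          rw [Finset.mul_sum]
          refine Finset.sum_congr rfl fun i _ => ?_
          rw [Finset.mul_sum]
          refine Finset.sum_congr rfl fun j _ => ?_
          rw [Matrix.smul_apply, smul_eq_mul, mul_assoc]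
        rw [← hX, h5, pair_tl htr htn, hv]) β
    rw [Pool.Agent.Q280.FC.hs_smul, ← hv, ← hsv] at h
    exact h
  obtain ⟨b, y, hy, hb, hbp⟩ : ∃ b y : ℝ, y ^ 2 ≤ (1 - 1 / (n : ℝ)) * v ∧
      (∀ ε : ℝ, (3 * (n : ℝ) + 4) / n * s + 16 * ε * b ≤ 1 + n / (n + 2) * (ε ^ 2 *
      (4 * (s + 2 * (s / n + y)) + 4 * (v - y ^ 2) - 4 * (s + 2 * (s / n + y)) ^ 2 / (n + 2)))) ∧
      |bv φ p| ≤ |b| := by
    rcases eq_or_ne p 0 with h | h
    · refine ⟨0, 0, ?_, fun ε => ?_, ?_⟩
      · have h5 : 0 ≤ 1 - 1 / (n : ℝ) := by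
          rw [sub_nonneg, div_le_one hn0]
          exact_mod_cast hn
        have := mul_nonneg h5 hv0
        simpa using this
      · have h6 := hV 0 0
        have h7 : (3 * (n : ℝ) + 4) / n * s ≤ 1 := by
          have e1 : (3 * (n : ℝ) + 4) / n * s + 8 * (0 * v) + n / (n + 2) *
            (4 * (n + 4) * 0 * (0 * v) - (n + 4) * (n + 2) * 0 ^ 2 * s) =
            (3 * (n : ℝ) + 4) / n * s := by ring
          have e2 : 1 + 2 * n / (n + 2) * (0 ^ 2 * v) + (n / (n + 2)) ^ 2 *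
            ((n + 2) / (n + 4) * (s * (2 * (0 ^ 2 * v) + 4 * n / (n + 2) * (0 ^ 2 * v)))) =
            (1 : ℝ) := by ring
          rw [e1, e2] at h6
          exact h6
        have h8 : s ≤ 1 := by
          have : s ≤ (3 * (n : ℝ) + 4) / n * s := by
            have h9 : 1 ≤ (3 * (n : ℝ) + 4) / n := by
              rw [le_div_iff₀ hn0]
              linarith
            nlinarith
          linarith
        have h9 : 0 ≤ 4 * (s + 2 * (s / n + 0)) + 4 * (v - 0 ^ 2) -
            4 * (s + 2 * (s / n + 0)) ^ 2 / (n + 2) := by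
          have e3 : 4 * (s + 2 * (s / n + 0)) ^ 2 / (n + 2) = 4 * s ^ 2 * (n + 2) / n ^ 2 := by
            field_simp
            ring
          have e4 : 4 * (s + 2 * (s / n + 0)) = 4 * s * (n + 2) / n := by
            field_simp
            ring
          rw [e3, e4]
          have e5 : 4 * s ^ 2 * (n + 2) / n ^ 2 ≤ 4 * s * (n + 2) / n := by
            rw [div_le_div_iff₀ (by positivity) hn0]
            have h10 : (1 : ℝ) ≤ n := by exact_mod_cast hn
            have h11 : s * (n + 2) ≤ (n + 2) * n := by nlinarith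
            have h12 : 0 ≤ 4 * s * n := by positivity
            nlinarith
          linarith
        have h10 : 0 ≤ n / (n + 2) * (ε ^ 2 * (4 * (s + 2 * (s / n + 0)) + 4 * (v - 0 ^ 2) -
            4 * (s + 2 * (s / n + 0)) ^ 2 / (n + 2))) := by positivity
        linarith
      · rw [h]
        simp [bv]
    · have hp0 : 0 < ‖p‖ := norm_pos_iff.2 h
      obtain ⟨u, hu⟩ : ∃ u : E n, u = ‖p‖⁻¹ • p := ⟨_, rfl⟩
      have hu1 : ‖u‖ = 1 := by
        rw [hu, norm_smul, norm_inv, norm_norm, inv_mul_cancel₀ hp0.ne']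
      have hu2 : ∑ i, u i ^ 2 = 1 := by
        have := EuclideanSpace.real_norm_sq_eq u
        rw [hu1] at this
        linarith
      obtain ⟨y, hy⟩ : ∃ y : ℝ, y = ∑ i, u i * ∑ j, tl X t i j * u j := ⟨_, rfl⟩
      refine ⟨bv φ u, y, ?_, fun ε => ?_, ?_⟩
      · rw [hy, hv]
        exact form_le hn (tl_trace htr htn) (fun i => u i) hu2
      · have h := bIneqR h1 h2 h4 n hn φ hφ hm u hu1 ε (s / n + y)
          (∑ i, (∑ j, Xm φ i j * u j) ^ 2) (by
            rw [← hX, hy, ← ht]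
            exact (form_tl X t (fun i => u i) hu2).symm) rfl
        have h5 := sq_tl X t (fun i => u i) hu2
        rw [← hy] at h5
        have h6 := Pool.Agent.Q149.FC.B.hs_bound (tl X t) (tl_symm hsym t) (fun i => u i) hu2
        rw [← hy, ← hv] at h6
        rw [← hX, h5, ← hsv] at h
        refine h.trans ?_
        have h7 : 8 * (t ^ 2 + 2 * t * y + ∑ i, (∑ j, tl X t i j * u j) ^ 2 - (s / n + y) ^ 2) ≤
            4 * (v - y ^ 2) := by
          rw [← ht]
          nlinarith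
        have h8 : 0 ≤ (n : ℝ) / (n + 2) := by positivity
        gcongr
      · have e : bv φ p = ‖p‖ * bv φ u := by
          have e2 : ∫ z, (inner ℝ p z : ℝ) * φ z ^ 3 ∂(gam n) =
              ∫ z, ‖p‖ * ((inner ℝ u z : ℝ) * φ z ^ 3) ∂(gam n) := by
            congr 1; ext z
            rw [hu, real_inner_smul_left]
            field_simp
          unfold bv
          rw [e2, integral_const_mul]
          ring
        rw [e, abs_mul, abs_of_nonneg hp0.le]
        exact mul_le_of_le_one_left (abs_nonneg _) hp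
  obtain ⟨hv36, hlog⟩ := hnum s v b y hs0 hv0 hy hV hb
  rw [← hhs] at hv36 hlog
  have hdet := hDL n X hsym hv36
  rw [htr] at hdet
  have hbp' := neg_abs_le (bv φ p)
  rw [← hX, ← hsv]
  have e1 : Real.exp (-(s + bv φ p) / 2) ≤
      Real.exp (Real.log κ + -(s + 3 / 5 * hs X)) := by
    apply Real.exp_le_exp.2
    linarith
  rw [Real.exp_add, Real.exp_log hκ] at e1
  exact e1.trans (mul_le_mul_of_nonneg_left hdet hκ.le)

end Pool.Agent.Q183.CF
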