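import Pool.Agent.Q183.CF.GE

/-!
# The numerical inequalities in the dimensions three to six
-/

set_option autoImplicit false

namespace Pool.Agent.Q183.CF

/-- the bound for `v` -/
theorem vbound {n s v : ℝ} (hn : 2 ≤ n) (hs : 0 ≤ s) (hv : 0 ≤ v)
    (h : ∀ l β : ℝ, (3 * n + 4) / n * s + 8 * (l * v) + n / (n + 2) * (4 * (n + 4) * β * (l * v) -
      (n + 4) * (n + 2) * β ^ 2 * s) ≤ 1 + 2 * n / (n + 2) * (l ^ 2 * v) + (n / (n + 2)) ^ 2 *
        ((n + 2) / (n + 4) * (s * (2 * (l ^ 2 * v) + 4 * n / (n + 2) * (l ^ 2 * v))))) :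
    (3 * n + 4) / n * s ≤ 1 ∧
    v * (16 * s + 4 * n * (n + 4) / (n + 2) ^ 2 * (1 - (3 * n + 4) / n * s)) ≤
      (2 * n / (n + 2) + n ^ 2 / ((n + 2) * (n + 4)) * (2 + 4 * n / (n + 2)) * s) *
        (s * (1 - (3 * n + 4) / n * s)) := by
  have hn0 : 0 < n := by linarith
  obtain ⟨c, hc⟩ : ∃ c : ℝ, c = (3 * n + 4) / n * s := ⟨_, rfl⟩
  obtain ⟨k, hk⟩ : ∃ k : ℝ, k = 4 * n * (n + 4) / (n + 2) ^ 2 := ⟨_, rfl⟩
  obtain ⟨m, hm⟩ : ∃ m : ℝ, m = 2 * n / (n + 2) + n ^ 2 / ((n + 2) * (n + 4)) *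
    (2 + 4 * n / (n + 2)) * s := ⟨_, rfl⟩
  have hc1 : c ≤ 1 := by
    have h0 := h 0 0
    have e1 : (3 * n + 4) / n * s + 8 * (0 * v) + n / (n + 2) *
        (4 * (n + 4) * 0 * (0 * v) - (n + 4) * (n + 2) * 0 ^ 2 * s) = c := by rw [hc]; ring
    have e2 : 1 + 2 * n / (n + 2) * (0 ^ 2 * v) + (n / (n + 2)) ^ 2 *
        ((n + 2) / (n + 4) * (s * (2 * (0 ^ 2 * v) + 4 * n / (n + 2) * (0 ^ 2 * v)))) =
        (1 : ℝ) := by ring
    rw [e1, e2] at h0
    exact h0
  refine ⟨by rw [← hc]; exact hc1, ?_⟩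
  rw [← hc, ← hk, ← hm]
  have hkp : 0 < k := by rw [hk]; positivity
  have hmr : ∀ l : ℝ, 1 + 2 * n / (n + 2) * (l ^ 2 * v) + (n / (n + 2)) ^ 2 *
      ((n + 2) / (n + 4) * (s * (2 * (l ^ 2 * v) + 4 * n / (n + 2) * (l ^ 2 * v)))) =
      1 + m * (l ^ 2 * v) := by
    intro l
    rw [hm]
    field_simp
    ring
  rcases eq_or_lt_of_le hs with h0 | h0
  · -- `s = 0`
    have hv0 : v ≤ 0 := by
      by_contra hcon
      push Not at hcon
      have h1 := h 1 ((1 + m * v) / (n / (n + 2) * (4 * (n + 4)) * v))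
      rw [hmr] at h1
      have e1 : n / (n + 2) * (4 * (n + 4) * ((1 + m * v) / (n / (n + 2) * (4 * (n + 4)) * v)) *
          (1 * v) - (n + 4) * (n + 2) * ((1 + m * v) / (n / (n + 2) * (4 * (n + 4)) * v)) ^ 2 *
          s) = 1 + m * v := by
        rw [← h0]
        field_simp
        ring
      rw [e1, ← h0] at h1
      nlinarith
    have hvz : v = 0 := le_antisymm hv0 hv
    rw [hvz, ← h0]
    simp
  · have h1 : ∀ l : ℝ, c + 8 * (l * v) + k * (l ^ 2 * v ^ 2) / s ≤ 1 + m * (l ^ 2 * v) := by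
      intro l
      have h2 := h l (2 * l * v / ((n + 2) * s))
      rw [hmr, ← hc] at h2
      have e1 : n / (n + 2) * (4 * (n + 4) * (2 * l * v / ((n + 2) * s)) * (l * v) -
          (n + 4) * (n + 2) * (2 * l * v / ((n + 2) * s)) ^ 2 * s) =
          k * (l ^ 2 * v ^ 2) / s := by
        rw [hk]
        field_simp
        ring
      rw [e1] at h2
      exact h2
    have h3 : ∀ x : ℝ, 0 ≤ (m * v * s - k * v ^ 2) * (x * x) + (-(8 * v * s)) * x +
        (1 - c) * s := by
      intro x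
      have h4 := h1 x
      have h5 : 0 ≤ s * (1 + m * (x ^ 2 * v) - (c + 8 * (x * v) + k * (x ^ 2 * v ^ 2) / s)) :=
        mul_nonneg hs (by linarith)
      have e1 : s * (1 + m * (x ^ 2 * v) - (c + 8 * (x * v) + k * (x ^ 2 * v ^ 2) / s)) =
          (m * v * s - k * v ^ 2) * (x * x) + (-(8 * v * s)) * x + (1 - c) * s := by
        field_simp
        ring
      rw [e1] at h5
      exact h5
    have h4 := discrim_le_zero h3
    unfold discrim at h4
    rcases eq_or_lt_of_le hv with hv0 | hv0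
    · rw [← hv0, zero_mul]
      have hmp : 0 ≤ m := by rw [hm]; positivity
      have : 0 ≤ 1 - c := by linarith
      positivity
    · have h5 : 0 < 4 * v * s := by positivity
      have h6 : 4 * v * s * (v * (16 * s + k * (1 - c))) ≤ 4 * v * s * (m * (s * (1 - c))) := by
        nlinarith
      exact le_of_mul_le_mul_left h6 h5

theorem numK_of {n ε g L : ℝ} (hn : 2 ≤ n) (hε : 0 < ε) (hg : 0 < g)
    (hg2 : (n + 6) / (n + 2) * g ≤ 1 - 2 / n * (1 / 3))
    (hP : ∀ s : ℝ, 0 ≤ s → (3 * n + 4) / n * s ≤ 1 →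
      (3 / 5 + ε / 32 * (n / (n + 2) * (4 + (1 - 1 / n) * (4 * (1 - 2 * s / n) / g -
        4 * (n + 6) / (n + 2))))) *
        ((2 * n / (n + 2) + n ^ 2 / ((n + 2) * (n + 4)) * (2 + 4 * n / (n + 2)) * s) *
          (s * (1 - (3 * n + 4) / n * s))) ≤
      (L - (s / 2 + 3 / 5 * (s ^ 2 / n) + (1 - (3 * n + 4) / n * s) / (32 * ε) +
        ε / 32 * (4 * s - 4 * s ^ 2 / n + n / (n + 2) * (4 * g * (1 - 2 * s / n))))) *
        (16 * s + 4 * n * (n + 4) / (n + 2) ^ 2 * (1 - (3 * n + 4) / n * s)))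
    (h36 : ∀ s : ℝ, 0 ≤ s → (3 * n + 4) / n * s ≤ 1 →
      (2 * n / (n + 2) + n ^ 2 / ((n + 2) * (n + 4)) * (2 + 4 * n / (n + 2)) * s) *
          (s * (1 - (3 * n + 4) / n * s)) ≤
        (36 / 625 - s ^ 2 / n) *
          (16 * s + 4 * n * (n + 4) / (n + 2) ^ 2 * (1 - (3 * n + 4) / n * s))) :
    NumK n L := by
  intro s v b y hs hv hy hV hB
  have hn0 : 0 < n := by linarith
  obtain ⟨hc1, hvb⟩ := vbound hn hs hv hV
  have hp := hP s hs hc1
  have hq := h36 s hs hc1
  obtain ⟨c, hc⟩ : ∃ c : ℝ, c = (3 * n + 4) / n * s := ⟨_, rfl⟩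
  obtain ⟨D, hD⟩ : ∃ D : ℝ, D = 16 * s + 4 * n * (n + 4) / (n + 2) ^ 2 *
    (1 - (3 * n + 4) / n * s) := ⟨_, rfl⟩
  obtain ⟨R, hR⟩ : ∃ R : ℝ, R = (2 * n / (n + 2) + n ^ 2 / ((n + 2) * (n + 4)) *
    (2 + 4 * n / (n + 2)) * s) * (s * (1 - (3 * n + 4) / n * s)) := ⟨_, rfl⟩
  rw [← hD, ← hR] at hvb hp hq
  have hDp : 0 < D := by
    rw [hD]
    have hk : 0 < 4 * n * (n + 4) / (n + 2) ^ 2 := by positivity
    rcases eq_or_lt_of_le hs with h0 | h0
    · rw [← h0]
      simpa using hk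
    · have : 0 ≤ 4 * n * (n + 4) / (n + 2) ^ 2 * (1 - (3 * n + 4) / n * s) :=
        mul_nonneg hk.le (by linarith)
      linarith
  have hs3 : s ≤ 1 / 3 := by
    have h1 : 3 * s ≤ (3 * n + 4) / n * s := by
      apply mul_le_mul_of_nonneg_right _ hs
      rw [le_div_iff₀ hn0]
      linarith
    linarith
  obtain ⟨w, hw⟩ : ∃ w : ℝ, w = 1 - 2 * s / n := ⟨_, rfl⟩
  have hw1 : 1 - 2 / n * (1 / 3) ≤ w := by
    rw [hw]
    have : 2 * s / n ≤ 2 / n * (1 / 3) := by
      rw [show 2 * s / n = 2 / n * s by ring]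
      gcongr
    linarith
  have hw0 : 0 < w := by
    have : 2 / n * (1 / 3) ≤ 1 / 3 := by
      have h2 : 2 / n ≤ 1 := by
        rw [div_le_one hn0]
        exact hn
      linarith
    linarith
  rw [← hw] at hp
  constructor
  · -- the first bound
    by_contra hcon
    push Not at hcon
    have h1 : (36 / 625 - s ^ 2 / n) * D < v * D := by
      apply mul_lt_mul_of_pos_right _ hDp
      linarith
    linarith
  · -- the bound for `b`
    obtain ⟨C, hC⟩ : ∃ C : ℝ, C = n / (n + 2) * (4 * (s + 2 * (s / n + y)) + 4 * (v - y ^ 2) -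
      4 * (s + 2 * (s / n + y)) ^ 2 / (n + 2)) := ⟨_, rfl⟩
    have hC1 : C = 4 * s - 4 * s ^ 2 / n + n / (n + 2) * (8 * y * w + 4 * v -
        4 * (n + 6) / (n + 2) * y ^ 2) := by
      rw [hC, hw]
      field_simp
      ring
    have hC2 : 8 * y * w + 4 * v - 4 * (n + 6) / (n + 2) * y ^ 2 ≤ 4 * g * w + v *
        (4 + (1 - 1 / n) * (4 * w / g - 4 * (n + 6) / (n + 2))) := by
      have h1 : 8 * y * w ≤ 4 * g * w + y ^ 2 * (4 * w / g) := by
        have h2 : 0 ≤ 4 * w / g * (y - g) ^ 2 := by positivity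
        have h3 : 4 * w / g * (y - g) ^ 2 = y ^ 2 * (4 * w / g) - 8 * y * w + 4 * g * w := by
          field_simp
          ring
        linarith
      have h2 : 0 ≤ 4 * w / g - 4 * (n + 6) / (n + 2) := by
        rw [sub_nonneg, div_le_div_iff₀ (by positivity) hg]
        have h3 : (n + 6) * g ≤ w * (n + 2) := by
          have h4 : (n + 6) / (n + 2) * g ≤ w := hg2.trans hw1
          have h5 := mul_le_mul_of_nonneg_right h4 (show 0 ≤ n + 2 by linarith)
          have h6 : (n + 6) / (n + 2) * g * (n + 2) = (n + 6) * g := by field_simp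
          linarith
        linarith
      have h3 := mul_le_mul_of_nonneg_right hy h2
      nlinarith
    have hC3 : C ≤ 4 * s - 4 * s ^ 2 / n + n / (n + 2) * (4 * g * w + v *
        (4 + (1 - 1 / n) * (4 * w / g - 4 * (n + 6) / (n + 2)))) := by
      rw [hC1]
      have : 0 ≤ n / (n + 2) := by positivity
      have := mul_le_mul_of_nonneg_left hC2 this
      linarith
    have hbb : |b| ≤ (1 - c) / (16 * ε) + ε / 16 * C := by
      have h1 := hB ε
      have h2 := hB (-ε)
      rw [← hc] at h1 h2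
      have e1 : n / (n + 2) * (ε ^ 2 * (4 * (s + 2 * (s / n + y)) + 4 * (v - y ^ 2) -
          4 * (s + 2 * (s / n + y)) ^ 2 / (n + 2))) = ε ^ 2 * C := by rw [hC]; ring
      have e2 : n / (n + 2) * ((-ε) ^ 2 * (4 * (s + 2 * (s / n + y)) + 4 * (v - y ^ 2) -
          4 * (s + 2 * (s / n + y)) ^ 2 / (n + 2))) = ε ^ 2 * C := by rw [hC]; ring
      rw [e1] at h1
      rw [e2] at h2
      have e3 : (1 - c) / (16 * ε) + ε / 16 * C = (1 - c + ε ^ 2 * C) / (16 * ε) := by
        field_simp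
      rw [e3, le_div_iff₀ (by positivity)]
      have h3 : |b| * (16 * ε) = |16 * ε * b| := by
        rw [abs_mul, abs_of_pos (show 0 < 16 * ε by positivity)]
        ring
      rw [h3, abs_le]
      constructor <;> linarith
    obtain ⟨L0, hL0⟩ : ∃ L0 : ℝ, L0 = s / 2 + 3 / 5 * (s ^ 2 / n) + (1 - c) / (32 * ε) +
        ε / 32 * (4 * s - 4 * s ^ 2 / n + n / (n + 2) * (4 * g * w)) := ⟨_, rfl⟩
    obtain ⟨L1, hL1⟩ : ∃ L1 : ℝ, L1 = 3 / 5 + ε / 32 * (n / (n + 2) * (4 + (1 - 1 / n) *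
        (4 * w / g - 4 * (n + 6) / (n + 2)))) := ⟨_, rfl⟩
    rw [← hc, ← hL0, ← hL1] at hp
    have hL1p : 0 ≤ L1 := by
      rw [hL1]
      have h2 : 0 ≤ 4 * w / g - 4 * (n + 6) / (n + 2) := by
        rw [sub_nonneg, div_le_div_iff₀ (by positivity) hg]
        have h3 : (n + 6) * g ≤ w * (n + 2) := by
          have h4 : (n + 6) / (n + 2) * g ≤ w := hg2.trans hw1
          have h5 := mul_le_mul_of_nonneg_right h4 (show 0 ≤ n + 2 by linarith)
          have h6 : (n + 6) / (n + 2) * g * (n + 2) = (n + 6) * g := by field_simp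
          linarith
        linarith
      have h3 : 0 ≤ 1 - 1 / n := by
        rw [sub_nonneg, div_le_one hn0]
        linarith
      positivity
    have h1 : s / 2 + |b| / 2 + 3 / 5 * (s ^ 2 / n + v) ≤ L0 + L1 * v := by
      have h2 : ε / 32 * C ≤ ε / 32 * (4 * s - 4 * s ^ 2 / n + n / (n + 2) * (4 * g * w + v *
        (4 + (1 - 1 / n) * (4 * w / g - 4 * (n + 6) / (n + 2))))) := by gcongr
      have h3 : |b| / 2 ≤ (1 - c) / (32 * ε) + ε / 32 * C := by
        have : (1 - c) / (32 * ε) = (1 - c) / (16 * ε) / 2 := by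
          field_simp
          ring
        rw [this]
        linarith
      rw [hL0, hL1]
      linarith
    have h2 : (L0 + L1 * v) * D ≤ L * D := by
      have h3 := mul_le_mul_of_nonneg_left hvb hL1p
      linarith
    exact h1.trans (le_of_mul_le_mul_right h2 hDp)

theorem NumK.mono {n L L' : ℝ} (h : NumK n L) (hL : L ≤ L') : NumK n L' := by
  intro s v b y h1 h2 h3 h4 h5
  obtain ⟨g1, g2⟩ := h s v b y h1 h2 h3 h4 h5
  exact ⟨g1, g2.trans hL⟩

theorem log_lb' {q : ℝ} (h0 : 0 ≤ q) (h1 : q < 1) :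
    q + q ^ 2 / 2 + q ^ 3 / 3 + q ^ 4 / 4 + q ^ 5 / 5 ≤ Real.log (1 / (1 - q)) := by
  have h := Real.hasSum_pow_div_log_of_abs_lt_one (x := q) (by rw [abs_lt]; constructor <;> linarith)
  have h2 := sum_le_hasSum (Finset.range 5) (fun i _ => by positivity) h
  rw [Finset.sum_range_succ, Finset.sum_range_succ, Finset.sum_range_succ,
    Finset.sum_range_succ, Finset.sum_range_succ, Finset.sum_range_zero] at h2
  rw [one_div, Real.log_inv]
  norm_num at h2 ⊢
  linarith

theorem num3 : NumK 3 (Real.log (100 / 87)) := by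
  refine NumK.mono (L := 1392 / 10000) (numK_of (ε := 69 / 200) (g := 33 / 400) (by norm_num)
    (by norm_num) (by norm_num) (by norm_num) (fun s hs hc => ?_) (fun s hs hc => ?_)) ?_
  · have hs' : s ≤ 3 / 13 := by norm_num at hc; linarith
    norm_num
    nlinarith [mul_nonneg hs (sq_nonneg (s - 1 / 5)), sq_nonneg (s - 1 / 5),
      mul_nonneg (pow_nonneg hs 3) (sub_nonneg.2 hs')]
  · have hs' : s ≤ 3 / 13 := by norm_num at hc; linarith
    norm_num
    nlinarith [mul_nonneg hs (sq_nonneg (s - 1 / 5)), sq_nonneg (s - 1 / 5),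
      mul_nonneg (pow_nonneg hs 3) (sub_nonneg.2 hs')]
  · have h := log_lb' (q := 13 / 100) (by norm_num) (by norm_num)
    rw [show (1 / (1 - 13 / 100) : ℝ) = 100 / 87 by norm_num] at h
    refine le_trans ?_ h
    norm_num

theorem num4 : NumK 4 (Real.log (50 / 43)) := by
  refine NumK.mono (L := 1508 / 10000) (numK_of (ε := 17 / 50) (g := 1 / 10) (by norm_num)
    (by norm_num) (by norm_num) (by norm_num) (fun s hs hc => ?_) (fun s hs hc => ?_)) ?_
  · have hs' : s ≤ 1 / 4 := by norm_num at hc; linarith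
    norm_num
    nlinarith [mul_nonneg hs (sq_nonneg (s - 21 / 100)), sq_nonneg (s - 21 / 100),
      mul_nonneg (pow_nonneg hs 3) (sub_nonneg.2 hs')]
  · have hs' : s ≤ 1 / 4 := by norm_num at hc; linarith
    norm_num
    nlinarith [mul_nonneg hs (sq_nonneg (s - 21 / 100)), sq_nonneg (s - 21 / 100),
      mul_nonneg (pow_nonneg hs 3) (sub_nonneg.2 hs')]
  · have h := log_lb' (q := 14 / 100) (by norm_num) (by norm_num)
    rw [show (1 / (1 - 14 / 100) : ℝ) = 50 / 43 by norm_num] at h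
    refine le_trans ?_ h
    norm_num

theorem num5 : NumK 5 (Real.log (200 / 171)) := by
  refine NumK.mono (L := 1566 / 10000) (numK_of (ε := 67 / 200) (g := 9 / 80) (by norm_num)
    (by norm_num) (by norm_num) (by norm_num) (fun s hs hc => ?_) (fun s hs hc => ?_)) ?_
  · have hs' : s ≤ 5 / 19 := by norm_num at hc; linarith
    norm_num
    nlinarith [mul_nonneg hs (sq_nonneg (s - 11 / 50)), sq_nonneg (s - 11 / 50),
      mul_nonneg (pow_nonneg hs 3) (sub_nonneg.2 hs')]
  · have hs' : s ≤ 5 / 19 := by norm_num at hc; linarith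
    norm_num
    nlinarith [mul_nonneg hs (sq_nonneg (s - 11 / 50)), sq_nonneg (s - 11 / 50),
      mul_nonneg (pow_nonneg hs 3) (sub_nonneg.2 hs')]
  · have h := log_lb' (q := 145 / 1000) (by norm_num) (by norm_num)
    rw [show (1 / (1 - 145 / 1000) : ℝ) = 200 / 171 by norm_num] at h
    refine le_trans ?_ h
    norm_num

theorem num6 : NumK 6 (Real.log (20 / 17)) := by
  refine NumK.mono (L := 1625 / 10000) (numK_of (ε := 1 / 3) (g := 61 / 500) (by norm_num)
    (by norm_num) (by norm_num) (by norm_num) (fun s hs hc => ?_) (fun s hs hc => ?_)) ?_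
  · have hs' : s ≤ 3 / 11 := by norm_num at hc; linarith
    norm_num
    nlinarith [mul_nonneg hs (sq_nonneg (s - 9 / 40)), sq_nonneg (s - 9 / 40),
      mul_nonneg (pow_nonneg hs 3) (sub_nonneg.2 hs')]
  · have hs' : s ≤ 3 / 11 := by norm_num at hc; linarith
    norm_num
    nlinarith [mul_nonneg hs (sq_nonneg (s - 9 / 40)), sq_nonneg (s - 9 / 40),
      mul_nonneg (pow_nonneg hs 3) (sub_nonneg.2 hs')]
  · have h := log_lb' (q := 15 / 100) (by norm_num) (by norm_num)
    rw [show (1 / (1 - 15 / 100) : ℝ) = 20 / 17 by norm_num] at h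
    refine le_trans ?_ h
    norm_num

theorem num7 : NumK 7 (Real.log (200 / 169)) := by
  refine NumK.mono (L := 1684 / 10000) (numK_of (ε := 33 / 100) (g := 13 / 100) (by norm_num)
    (by norm_num) (by norm_num) (by norm_num) (fun s hs hc => ?_) (fun s hs hc => ?_)) ?_
  · have hs' : s ≤ 7 / 25 := by norm_num at hc; linarith
    norm_num
    nlinarith [mul_nonneg hs (sq_nonneg (s - 229 / 1000)), sq_nonneg (s - 229 / 1000),
      mul_nonneg (pow_nonneg hs 3) (sub_nonneg.2 hs')]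
  · have hs' : s ≤ 7 / 25 := by norm_num at hc; linarith
    norm_num
    nlinarith [mul_nonneg hs (sq_nonneg (s - 229 / 1000)), sq_nonneg (s - 229 / 1000),
      mul_nonneg (pow_nonneg hs 3) (sub_nonneg.2 hs')]
  · have h := log_lb' (q := 155 / 1000) (by norm_num) (by norm_num)
    rw [show (1 / (1 - 155 / 1000) : ℝ) = 200 / 169 by norm_num] at h
    refine le_trans ?_ h
    norm_num

theorem num8 : NumK 8 (Real.log (25 / 21)) := by
  refine NumK.mono (L := 1743 / 10000) (numK_of (ε := 33 / 100) (g := 7 / 50) (by norm_num)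
    (by norm_num) (by norm_num) (by norm_num) (fun s hs hc => ?_) (fun s hs hc => ?_)) ?_
  · have hs' : s ≤ 2 / 7 := by norm_num at hc; linarith
    norm_num
    nlinarith [mul_nonneg hs (sq_nonneg (s - 58 / 250)), sq_nonneg (s - 58 / 250),
      mul_nonneg (pow_nonneg hs 3) (sub_nonneg.2 hs')]
  · have hs' : s ≤ 2 / 7 := by norm_num at hc; linarith
    norm_num
    nlinarith [mul_nonneg hs (sq_nonneg (s - 58 / 250)), sq_nonneg (s - 58 / 250),
      mul_nonneg (pow_nonneg hs 3) (sub_nonneg.2 hs')]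
  · have h := log_lb' (q := 16 / 100) (by norm_num) (by norm_num)
    rw [show (1 / (1 - 16 / 100) : ℝ) = 25 / 21 by norm_num] at h
    refine le_trans ?_ h
    norm_num

theorem num9 : NumK 9 (Real.log (25 / 21)) := by
  refine NumK.mono (L := 1743 / 10000) (numK_of (ε := 33 / 100) (g := 29 / 200) (by norm_num)
    (by norm_num) (by norm_num) (by norm_num) (fun s hs hc => ?_) (fun s hs hc => ?_)) ?_
  · have hs' : s ≤ 9 / 31 := by norm_num at hc; linarith
    norm_num
    nlinarith [mul_nonneg hs (sq_nonneg (s - 47 / 200)), sq_nonneg (s - 47 / 200),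
      mul_nonneg (pow_nonneg hs 3) (sub_nonneg.2 hs')]
  · have hs' : s ≤ 9 / 31 := by norm_num at hc; linarith
    norm_num
    nlinarith [mul_nonneg hs (sq_nonneg (s - 47 / 200)), sq_nonneg (s - 47 / 200),
      mul_nonneg (pow_nonneg hs 3) (sub_nonneg.2 hs')]
  · have h := log_lb' (q := 16 / 100) (by norm_num) (by norm_num)
    rw [show (1 / (1 - 16 / 100) : ℝ) = 25 / 21 by norm_num] at h
    refine le_trans ?_ h
    norm_num

end Pool.Agent.Q183.CF
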