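import Pool.Agent.Q183.CF.BX
import Pool.Agent.Q183.CF.CX

/-!
# The volume of the part of a filling near the boundary
-/

set_option autoImplicit false

open MeasureTheory Set Metric InnerProductGeometry

namespace Pool.Agent.Q183.CF

open Pool.Agent.W716.FV (E gam gd UU)
open Pool.Agent.H241R3.FV (Sph Fill Triang RChart)
open Pool.Agent.Q188.FC

/-- The volume of the set of all points of `M` at distance less than `π/2` from the boundary. -/
noncomputable def collarVol {d : ℕ} {M : Type} [MetricSpace M] (S : Fill d M) : ENNReal :=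
  ∑' i, ∫⁻ c in {c | c ∈ (S.chart i).D ∧
    infDist ((S.chart i).map c) (range S.bd) < Real.pi / 2},
      ENNReal.ofReal √((S.chart i).G c).det

/-- The estimate in one chart with the constant `κ`, in dimension `n`. -/
def ChartAreaK (n : ℕ) (κ : ℝ) : Prop :=
  ∀ (U : Set (E n)) (φ : E n → E n → ℝ), IsOpen U → LipFam U φ →
    ∀ G : E n → Matrix (Fin n) (Fin n) ℝ, (∀ c ∈ U, (G c).PosDef) →
    (∀ᵐ c ∂(volume : Measure (E n)), c ∈ U → ∃ D, GoodD φ c (G c) D) →
    ∀ D : Set (E n), MeasurableSet D → D ⊆ U → ∀ (s : Set (E n)) (f : E n → E n),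
    s = {c | c ∈ D ∧ ∃ p : E n, ‖p‖ < 1 ∧ GG p (φ c) = 0} →
    (∀ c ∈ s, ‖f c‖ < 1 ∧ GG (f c) (φ c) = 0) →
    ∫⁻ p in f '' s, ENNReal.ofReal (lf p) ≤
      ENNReal.ofReal κ * ∫⁻ c in D, ENNReal.ofReal √(G c).det

theorem map_contOn {n : ℕ} {M : Type} [MetricSpace M] (C : RChart n M) :
    ContinuousOn C.map C.U := by
  intro c₀ hc₀
  apply ContinuousAt.continuousWithinAt
  obtain ⟨r, hr, hb, hl⟩ := Pool.Agent.H241R3.FV.TLoc.taskLoc n M C c₀ hc₀ 1 one_pos
  obtain ⟨K, hK, hKg⟩ := Pool.Agent.H241R3.FV.TDiff.gnorm_le (C.G c₀)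
  rw [Metric.continuousAt_iff]
  intro ε hε
  refine ⟨min r (ε / (K + 1)), lt_min hr (by positivity), fun {x} hx => ?_⟩
  have h1 : x ∈ ball c₀ r := by
    rw [mem_ball]
    exact hx.trans_le (min_le_left _ _)
  have h2 := hl x h1 c₀ (mem_ball_self hr)
  have h3 := hKg (x - c₀)
  have h4 : ‖x - c₀‖ < ε / (K + 1) := by
    rw [← dist_eq_norm]
    exact hx.trans_le (min_le_right _ _)
  have h5 : (K + 1) * ‖x - c₀‖ < ε := by
    rw [lt_div_iff₀ (by positivity)] at h4
    linarith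
  linarith

theorem meas_near {d : ℕ} {M : Type} [MetricSpace M] (S : Fill d M) (i : S.ι) :
    MeasurableSet {c | c ∈ (S.chart i).D ∧
      infDist ((S.chart i).map c) (range S.bd) < Real.pi / 2} := by
  have h1 : ContinuousOn (fun c => infDist ((S.chart i).map c) (range S.bd)) (S.chart i).U :=
    (continuous_infDist_pt (range S.bd)).comp_continuousOn (map_contOn (S.chart i))
  have h2 : IsOpen ((S.chart i).U ∩
      (fun c => infDist ((S.chart i).map c) (range S.bd)) ⁻¹' Iio (Real.pi / 2)) :=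
    h1.isOpen_inter_preimage (S.chart i).isOpen_U isOpen_Iio
  have h3 : {c | c ∈ (S.chart i).D ∧
      infDist ((S.chart i).map c) (range S.bd) < Real.pi / 2} =
      (S.chart i).D ∩ ((S.chart i).U ∩
      (fun c => infDist ((S.chart i).map c) (range S.bd)) ⁻¹' Iio (Real.pi / 2)) := by
    ext c
    constructor
    · rintro ⟨h, h'⟩
      exact ⟨h, (S.chart i).D_sub h, h'⟩
    · rintro ⟨h, -, h'⟩
      exact ⟨h, h'⟩
  rw [h3]
  exact (S.chart i).meas_D.inter h2.measurableSet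

theorem mainK (hRM : RMap) (hBA : BoostAlg) (hBI : BallInt) (hHL : HatLin) (hGH : GGHat)
    (hGL : GGLip) (hLZ : LocZ) (d : ℕ) (hd : 1 ≤ d) (κ : ℝ) (hκ : 0 < κ)
    (hCA : ChartAreaK (d + 1) κ) (M : Type) [MetricSpace M] (S : Fill d M) (hS : S.NonShort)
    (hT : (CompactSpace M ∧ S.Triangulated) ∨ NoCollarRetraction S) :
    ENNReal.ofReal κ⁻¹ *
      ((volume : Measure (EuclideanSpace ℝ (Fin (d + 2)))).toSphere Set.univ / 2) ≤
        collarVol S := by
  classical
  have := S.countable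
  have he := tr_dst (Nat.succ_pos d) S.bd hS
  -- the centres in the charts
  set φ : S.ι → E (d + 1) → E (d + 1) → ℝ := fun i c => FE (tr S.bd) ((S.chart i).map c) with hφ
  set D' : S.ι → Set (E (d + 1)) := fun i => {c | c ∈ (S.chart i).D ∧
    infDist ((S.chart i).map c) (range S.bd) < Real.pi / 2} with hD'
  set s : S.ι → Set (E (d + 1)) := fun i =>
    {c | c ∈ D' i ∧ ∃ p : E (d + 1), ‖p‖ < 1 ∧ GG p (φ i c) = 0} with hs
  set f : S.ι → E (d + 1) → E (d + 1) := fun i c =>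
    if h : ∃ p : E (d + 1), ‖p‖ < 1 ∧ GG p (φ i c) = 0 then h.choose else 0 with hf
  have hfs : ∀ i, ∀ c ∈ s i, ‖f i c‖ < 1 ∧ GG (f i c) (φ i c) = 0 := by
    intro i c hc
    have h := hc.2
    rw [hf]
    simp only
    rw [dif_pos h]
    exact h.choose_spec
  have huniq : ∀ ψ : E (d + 1) → ℝ, Cc ψ → ∀ p p' : E (d + 1), ‖p‖ < 1 → ‖p'‖ < 1 →
      GG p ψ = 0 → GG p' ψ = 0 → p = p' := by
    intro ψ hψ p p' hp hp' h0 h0'
    obtain ⟨r, K, hr, hK, hz⟩ := hLZ (d + 1) ψ hψ p hp h0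
    have hb : ∀ y, |ψ y - ψ y| ≤ r * ‖y‖ := by
      intro y
      rw [sub_self, abs_zero]
      positivity
    have h9 := hz ψ ψ hψ hψ hb hb p p' hp hp' h0 h0' 0 le_rfl (fun y => by simp)
    rw [mul_zero] at h9
    have h10 : ‖p - p'‖ = 0 := le_antisymm h9 (norm_nonneg _)
    exact sub_eq_zero.1 (norm_eq_zero.1 h10)
  have hcov : ball (0 : E (d + 1)) 1 ⊆ (⋃ i, f i '' s i) ∪ {0} := by
    intro p hp
    rw [mem_ball_zero_iff] at hp
    by_cases hp0 : p = 0
    · exact Or.inr hp0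
    left
    obtain ⟨q, hq⟩ := cover hRM hBA hHL hGH hGL d hd M S hS hT p hp
    have hnear : infDist q (range S.bd) < Real.pi / 2 := by
      by_contra hcon
      push Not at hcon
      rw [FE_far (Nat.succ_pos d) S.bd q hcon, GG_zero] at hq
      exact hp0 (neg_eq_zero.1 hq)
    rcases S.cover q with ⟨x, rfl⟩ | ⟨i, c, hc, rfl⟩
    · exact absurd hq (bdry hHL hGH he p hp x).2
    · have hcs : c ∈ s i := ⟨⟨hc, hnear⟩, p, hp, hq⟩
      obtain ⟨g1, g2⟩ := hfs i c hcs
      refine mem_iUnion.2 ⟨i, c, hcs, ?_⟩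
      exact huniq _ (FE_Cc he _) _ _ g1 hp g2 hq
  have hchart : ∀ i, ∫⁻ p in f i '' s i, ENNReal.ofReal (lf p) ≤
      ENNReal.ofReal κ * ∫⁻ c in D' i, ENNReal.ofReal √((S.chart i).G c).det := by
    intro i
    obtain ⟨q1, q2⟩ := FE_chart he (S.chart i)
    exact hCA (S.chart i).U (φ i) (S.chart i).isOpen_U q1
      (S.chart i).G (S.chart i).pos_G q2 (D' i) (meas_near S i)
      (fun c hc => (S.chart i).D_sub hc.1) (s i) (f i) rfl (hfs i)
  have hnull : (volume : Measure (E (d + 1))) {0} = 0 := measure_singleton 0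
  have hmain : (volume : Measure (EuclideanSpace ℝ (Fin (d + 2)))).toSphere univ / 2 ≤
      ENNReal.ofReal κ * collarVol S := by
    calc (volume : Measure (EuclideanSpace ℝ (Fin (d + 2)))).toSphere univ / 2
        = ∫⁻ p in ball (0 : E (d + 1)) 1, ENNReal.ofReal (lf p) :=
          (hBI (d + 1) (Nat.succ_pos d)).symm
      _ ≤ ∫⁻ p in (⋃ i, f i '' s i) ∪ {0}, ENNReal.ofReal (lf p) := lintegral_mono_set hcov
      _ ≤ (∫⁻ p in ⋃ i, f i '' s i, ENNReal.ofReal (lf p)) +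
          ∫⁻ p in {(0 : E (d + 1))}, ENNReal.ofReal (lf p) := lintegral_union_le _ _ _
      _ = ∫⁻ p in ⋃ i, f i '' s i, ENNReal.ofReal (lf p) := by
          rw [setLIntegral_measure_zero _ _ hnull, add_zero]
      _ ≤ ∑' i, ∫⁻ p in f i '' s i, ENNReal.ofReal (lf p) := lintegral_iUnion_le _ _
      _ ≤ ∑' i, ENNReal.ofReal κ *
          ∫⁻ c in D' i, ENNReal.ofReal √((S.chart i).G c).det :=
          ENNReal.tsum_le_tsum hchart
      _ = ENNReal.ofReal κ * collarVol S := by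
          rw [ENNReal.tsum_mul_left]
          rfl
  calc ENNReal.ofReal κ⁻¹ *
      ((volume : Measure (EuclideanSpace ℝ (Fin (d + 2)))).toSphere univ / 2)
      ≤ ENNReal.ofReal κ⁻¹ * (ENNReal.ofReal κ * collarVol S) := by gcongr
    _ = collarVol S := by
        rw [← mul_assoc, ← ENNReal.ofReal_mul (by positivity), inv_mul_cancel₀ hκ.ne']
        norm_num

end Pool.Agent.Q183.CF
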