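import Pool.Agent.Q188.FC.Defs
import Pool.Agent.H241R3.FV.TExt
import Pool.Agent.W18.FV.UF

/-!
# Truncated distance functions

For a metric space `M` with a boundary sphere `bd : S^(n-1) → M` the extended distance functions
`ext bd x` are truncated at `π - ρ`, `ρ = min (distance to the boundary) (π/2)`.  All points at
distance at least `π/2` from the boundary are then represented by the function `0`.
The facts proved in `Pool.Agent.W18.FV.UF` for `ext` are proved for arbitrary families of
`1`-Lipschitz functions with the right boundary values.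
-/

set_option autoImplicit false

open MeasureTheory InnerProductGeometry

namespace Pool.Agent.Q183.CF

open Pool.Agent.W716.FV (E UU Good dir)
open Pool.Agent.H241R3.FV (Sph ext RChart Fill Triang)
open Pool.Agent.W18.FV.UF (key angle_dir dir_smul abs_cos_sub)

variable {n : ℕ} {M : Type} [MetricSpace M]

/-- a family of `1`-Lipschitz functions extending the distance functions of the sphere -/
structure Dst (bd : Sph n → M) (e : Sph n → M → ℝ) : Prop where
  q : ∀ x q q', |e x q - e x q'| ≤ dist q q'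
  x : ∀ x x' q, |e x q - e x' q| ≤ angle (x : E n) (x' : E n)
  b : ∀ x p, e x (bd p) = angle (x : E n) (p : E n)

open Classical in
/-- the function `G ↦ |G| cos (e in the direction G)` -/
noncomputable def UE (e : Sph n → M → ℝ) (q : M) (G : E n) : ℝ :=
  if h : G = 0 then 0 else ‖G‖ * Real.cos (e (dir G h) q)

/-- its odd part -/
noncomputable def FE (e : Sph n → M → ℝ) (q : M) (y : E n) : ℝ :=
  (UE e q y - UE e q (-y)) / 2

theorem UE_zero (e : Sph n → M → ℝ) (q : M) : UE e q 0 = 0 := by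
  unfold UE
  simp

theorem UE_ne (e : Sph n → M → ℝ) (q : M) (G : E n) (h : G ≠ 0) :
    UE e q G = ‖G‖ * Real.cos (e (dir G h) q) := by
  unfold UE
  rw [dif_neg h]

theorem abs_UE_le (e : Sph n → M → ℝ) (q : M) (G : E n) : |UE e q G| ≤ ‖G‖ := by
  by_cases h : G = 0
  · rw [h, UE_zero]; simp
  · rw [UE_ne e q G h, abs_mul, abs_norm]
    have := Real.abs_cos_le_one (e (dir G h) q)
    calc ‖G‖ * |Real.cos (e (dir G h) q)| ≤ ‖G‖ * 1 :=
          mul_le_mul_of_nonneg_left this (norm_nonneg _)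
      _ = ‖G‖ := mul_one _

theorem UE_lip {bd : Sph n → M} {e : Sph n → M → ℝ} (he : Dst bd e) (q : M) (G G' : E n) :
    |UE e q G - UE e q G'| ≤ ‖G - G'‖ := by
  by_cases h : G = 0
  · subst h
    rw [UE_zero, zero_sub, zero_sub, abs_neg, norm_neg]
    exact abs_UE_le e q G'
  by_cases h' : G' = 0
  · subst h'
    rw [UE_zero, sub_zero, sub_zero]
    exact abs_UE_le e q G
  have hE := he.x (dir G h) (dir G' h') q
  rw [angle_dir] at hE
  have h1 := key ‖G‖ ‖G'‖ _ _ _ (norm_nonneg _) (norm_nonneg _) (angle_le_pi G G') hE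
  rw [← UE_ne, ← UE_ne] at h1
  have h2 : ‖G - G'‖ ^ 2 = ‖G‖ ^ 2 + ‖G'‖ ^ 2 - 2 * (‖G‖ * ‖G'‖ * Real.cos (angle G G')) := by
    rw [norm_sub_sq_real, ← cos_angle_mul_norm_mul_norm]
    ring
  rw [← h2] at h1
  exact abs_le_of_sq_le_sq h1 (norm_nonneg _)

theorem UE_hom (e : Sph n → M → ℝ) (q : M) (t : ℝ) (G : E n) (ht : 0 ≤ t) :
    UE e q (t • G) = t * UE e q G := by
  rcases ht.eq_or_lt with ht | ht
  · rw [← ht, zero_smul, UE_zero, zero_mul]
  by_cases h : G = 0
  · rw [h, smul_zero, UE_zero, mul_zero]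
  have h' : t • G ≠ 0 := smul_ne_zero ht.ne' h
  rw [UE_ne e q _ h', UE_ne e q G h, dir_smul t ht G h h', norm_smul, Real.norm_eq_abs,
    abs_of_pos ht]
  ring

theorem UE_bd {bd : Sph n → M} {e : Sph n → M → ℝ} (he : Dst bd e) (G : E n) (x : Sph n) :
    UE e (bd x) G = inner ℝ G (x : E n) := by
  by_cases h : G = 0
  · rw [h, UE_zero, inner_zero_left]
  rw [UE_ne e _ G h, he.b]
  have h1 : angle (dir G h : E n) (x : E n) = angle G (x : E n) := by
    show angle (‖G‖⁻¹ • G) (x : E n) = _
    rw [angle_smul_left_of_pos _ _ (inv_pos.2 (norm_pos_iff.2 h))]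
  rw [h1]
  have h2 := cos_angle_mul_norm_mul_norm G (x : E n)
  have h3 : ‖(x : E n)‖ = 1 := mem_sphere_zero_iff_norm.1 x.2
  rw [h3, mul_one] at h2
  rw [mul_comm]
  exact h2

theorem UE_q {bd : Sph n → M} {e : Sph n → M → ℝ} (he : Dst bd e) (q q' : M) (G : E n) :
    |UE e q G - UE e q' G| ≤ ‖G‖ * dist q q' := by
  by_cases h : G = 0
  · rw [h, UE_zero, UE_zero]; simp
  rw [UE_ne e q G h, UE_ne e q' G h, ← mul_sub, abs_mul, abs_norm]
  apply mul_le_mul_of_nonneg_left _ (norm_nonneg _)
  exact (abs_cos_sub _ _).trans (he.q _ _ _)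

theorem UE_q2 {bd : Sph n → M} {e : Sph n → M → ℝ} (he : Dst bd e) (q q' : M) (G : E n) :
    |UE e q' G - UE e q G| ≤
      √(‖G‖ ^ 2 - UE e q G ^ 2) * dist q' q + ‖G‖ * dist q' q ^ 2 := by
  by_cases h : G = 0
  · rw [h, UE_zero, UE_zero]; simp
  rw [UE_ne e q G h, UE_ne e q' G h]
  have hd := he.q (dir G h) q' q
  set φ := e (dir G h) q
  set φ' := e (dir G h) q'
  set δ := φ' - φ with hδ
  have hφ' : φ' = φ + δ := by rw [hδ]; ring
  have hs : √(‖G‖ ^ 2 - (‖G‖ * Real.cos φ) ^ 2) = ‖G‖ * |Real.sin φ| := by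
    have : ‖G‖ ^ 2 - (‖G‖ * Real.cos φ) ^ 2 = (‖G‖ * |Real.sin φ|) ^ 2 := by
      rw [mul_pow, mul_pow, sq_abs, Real.sin_sq]
      ring
    rw [this, Real.sqrt_sq (mul_nonneg (norm_nonneg _) (abs_nonneg _))]
  rw [hs, hφ', Real.cos_add]
  have h1 : ‖G‖ * (Real.cos φ * Real.cos δ - Real.sin φ * Real.sin δ) - ‖G‖ * Real.cos φ =
      ‖G‖ * (Real.cos φ * (Real.cos δ - 1) - Real.sin φ * Real.sin δ) := by ring
  rw [h1, abs_mul, abs_norm, mul_assoc, ← mul_add]
  apply mul_le_mul_of_nonneg_left _ (norm_nonneg _)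
  have h2 : |Real.cos δ - 1| ≤ δ ^ 2 := by
    have h3 := Real.one_sub_sq_div_two_le_cos (x := δ)
    have h4 := Real.cos_le_one δ
    rw [abs_le]
    constructor <;> nlinarith [sq_nonneg δ]
  have h3 : |Real.sin δ| ≤ |δ| := Real.abs_sin_le_abs
  have h4 : δ ^ 2 ≤ dist q' q ^ 2 := by
    rw [← sq_abs]
    exact pow_le_pow_left₀ (abs_nonneg _) hd 2
  calc |Real.cos φ * (Real.cos δ - 1) - Real.sin φ * Real.sin δ|
      ≤ |Real.cos φ * (Real.cos δ - 1)| + |Real.sin φ * Real.sin δ| := abs_sub _ _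
    _ = |Real.cos φ| * |Real.cos δ - 1| + |Real.sin φ| * |Real.sin δ| := by
        rw [abs_mul, abs_mul]
    _ ≤ 1 * dist q' q ^ 2 + |Real.sin φ| * dist q' q := by
        apply add_le_add
        · exact mul_le_mul (Real.abs_cos_le_one _) (h2.trans h4) (abs_nonneg _) zero_le_one
        · exact mul_le_mul_of_nonneg_left (h3.trans hd) (abs_nonneg _)
    _ = |Real.sin φ| * dist q' q + dist q' q ^ 2 := by ring

theorem UE_sq_le (e : Sph n → M → ℝ) (q : M) (G : E n) : UE e q G ^ 2 ≤ ‖G‖ ^ 2 := by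
  have := abs_UE_le e q G
  rw [← sq_abs]
  exact pow_le_pow_left₀ (abs_nonneg _) this 2

/-! ### the odd part -/

open Pool.Agent.Q188.FC in
theorem FE_Cc {bd : Sph n → M} {e : Sph n → M → ℝ} (he : Dst bd e) (q : M) : Cc (FE e q) := by
  refine ⟨fun x y => ?_, fun t x => ?_⟩
  · have h1 := UE_lip he q x y
    have h2 := UE_lip he q (-x) (-y)
    have h3 : ‖-x - -y‖ = ‖x - y‖ := by
      rw [← norm_neg]
      congr 1
      abel
    rw [h3] at h2
    unfold FE
    rw [abs_le] at h1 h2 ⊢
    constructor <;> linarith [h1.1, h1.2, h2.1, h2.2]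
  · unfold FE
    rcases le_total 0 t with ht | ht
    · have h1 := UE_hom e q t x ht
      have h2 := UE_hom e q t (-x) ht
      rw [smul_neg] at h2
      rw [h1, h2]
      ring
    · have h1 := UE_hom e q (-t) x (by linarith)
      have h2 := UE_hom e q (-t) (-x) (by linarith)
      rw [neg_smul] at h1
      rw [neg_smul, smul_neg, neg_neg] at h2
      rw [h1, h2]
      ring

theorem FE_bd {bd : Sph n → M} {e : Sph n → M → ℝ} (he : Dst bd e) (x : Sph n) (y : E n) :
    FE e (bd x) y = inner ℝ y (x : E n) := by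
  unfold FE
  rw [UE_bd he, UE_bd he, inner_neg_left]
  ring

theorem FE_q {bd : Sph n → M} {e : Sph n → M → ℝ} (he : Dst bd e) (q q' : M) (y : E n) :
    |FE e q y - FE e q' y| ≤ dist q q' * ‖y‖ := by
  have h1 := UE_q he q q' y
  have h2 := UE_q he q q' (-y)
  rw [norm_neg] at h2
  unfold FE
  rw [abs_le] at h1 h2 ⊢
  constructor <;> linarith [h1.1, h1.2, h2.1, h2.2]

/-! ### the truncated distance functions -/

/-- distance to the boundary, at most `π/2` -/
noncomputable def rho (bd : Sph n → M) (q : M) : ℝ :=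
  min (Metric.infDist q (Set.range bd)) (Real.pi / 2)

/-- the truncated functions -/
noncomputable def tr (bd : Sph n → M) (x : Sph n) (q : M) : ℝ :=
  min (ext bd x q) (Real.pi - rho bd q)

theorem abs_min_sub_min (a b c d t : ℝ) (h1 : |a - c| ≤ t) (h2 : |b - d| ≤ t) :
    |min a b - min c d| ≤ t := by
  rw [abs_le] at h1 h2 ⊢
  constructor
  · have : min c d - t ≤ min a b := by
      apply le_min
      · linarith [min_le_left c d, h1.1]
      · linarith [min_le_right c d, h2.1]
    linarith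
  · have : min a b - t ≤ min c d := by
      apply le_min
      · linarith [min_le_left a b, h1.2]
      · linarith [min_le_right a b, h2.2]
    linarith

theorem rho_lip (bd : Sph n → M) (q q' : M) : |rho bd q - rho bd q'| ≤ dist q q' := by
  unfold rho
  apply abs_min_sub_min
  · have h := (Metric.lipschitz_infDist_pt (Set.range bd)).dist_le_mul q q'
    rw [NNReal.coe_one, one_mul, Real.dist_eq] at h
    exact h
  · rw [sub_self, abs_zero]
    exact dist_nonneg

theorem tr_dst (hn : 0 < n) (bd : Sph n → M)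
    (hns : ∀ x y : Sph n, angle (x : E n) (y : E n) ≤ dist (bd x) (bd y)) :
    Dst bd (tr bd) := by
  obtain ⟨h1, h2, h3⟩ := Pool.Agent.H241R3.FV.taskExt n hn M bd hns
  refine ⟨fun x q q' => ?_, fun x x' q => ?_, fun x p => ?_⟩
  · unfold tr
    apply abs_min_sub_min _ _ _ _ _ (h1 x q q')
    have h4 := rho_lip bd q q'
    have h5 : Real.pi - rho bd q - (Real.pi - rho bd q') = -(rho bd q - rho bd q') := by ring
    rw [h5, abs_neg]
    exact h4
  · unfold tr
    apply abs_min_sub_min _ _ _ _ _ (h2 x x' q)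
    rw [sub_self, abs_zero]
    exact angle_nonneg _ _
  · unfold tr
    rw [h3]
    have h4 : rho bd (bd p) = 0 := by
      unfold rho
      rw [Metric.infDist_zero_of_mem (Set.mem_range_self p)]
      exact min_eq_left (by positivity)
    rw [h4, sub_zero]
    exact min_eq_left (angle_le_pi _ _)

theorem infDist_le_ext (hn : 0 < n) (bd : Sph n → M) (x : Sph n) (q : M) :
    Metric.infDist q (Set.range bd) ≤ ext bd x q := by
  have := Pool.Agent.H241R3.FV.TExt.sph_nonempty hn
  unfold ext
  apply le_ciInf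
  intro p
  have h1 := Metric.infDist_le_dist_of_mem (x := q) (Set.mem_range_self (f := bd) p)
  have h2 := angle_nonneg (x : E n) (p : E n)
  linarith

/-- the points far from the boundary are represented by `0` -/
theorem FE_far (hn : 0 < n) (bd : Sph n → M) (q : M)
    (hq : Real.pi / 2 ≤ Metric.infDist q (Set.range bd)) : FE (tr bd) q = fun _ => 0 := by
  have hr : rho bd q = Real.pi / 2 := min_eq_right hq
  have ht : ∀ x, tr bd x q = Real.pi / 2 := by
    intro x
    unfold tr
    rw [hr, min_eq_right]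
    · ring
    · have := infDist_le_ext hn bd x q
      linarith
  have hU : ∀ G : E n, UE (tr bd) q G = 0 := by
    intro G
    by_cases h : G = 0
    · rw [h, UE_zero]
    · rw [UE_ne _ q G h, ht, Real.cos_pi_div_two, mul_zero]
  funext y
  unfold FE
  rw [hU, hU]
  simp

end Pool.Agent.Q183.CF
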